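import Pool.Agent.P.MP_13cc81_lc.Atoms

/-! Arithmetic of finite sets of atoms. -/

namespace Pool.Agent.P.MP_13cc81_lc

open FirstOrder FirstOrder.Language Set

variable {L : FirstOrder.Language.{0, 0}} {I : Iface L}

theorem Df.allZ {α : Type} {P : (α → Lind L) → ℤ → Prop}
    (h : Df (fun v : Option α → Lind L => P (fun i => v (some i)) (io I (v none)))) :
    Df (fun v => ∀ a, P v a) :=
  (Df.all (P := fun v p => P v (io I p)) h).congr fun v => (io_surj.forall (p := P v)).symm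

theorem Df.exZ {α : Type} {P : (α → Lind L) → ℤ → Prop}
    (h : Df (fun v : Option α → Lind L => P (fun i => v (some i)) (io I (v none)))) :
    Df (fun v => ∃ a, P v a) :=
  (Df.ex (P := fun v p => P v (io I p)) h).congr fun v => (io_surj.exists (p := P v)).symm

def Fn (G : ℤ → ℤ → Prop) (A B : Set ℤ) : Prop :=
  (∀ a, a ∈ A → ¬ a ∈ B) ∧ ∀ a, a ∈ A → ∃ b, b ∈ B ∧ G a b ∧ ∀ b', b' ∈ B → G a b' → b' = b

def Mt (G : ℤ → ℤ → Prop) (A B : Set ℤ) : Prop :=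
  Fn G A B ∧ ∀ b, b ∈ B → ∃ a, a ∈ A ∧ G a b ∧ ∀ a', a' ∈ A → G a' b → a' = a

theorem dfFn : Df3 (fun c b b' => Fn (gr I c) (tr I b) (tr I b')) := by
  unfold Df3 Fn
  repeat' first | apply Tm.var | apply dfMemZ.app | apply dfEqZ.app | apply dfGrZ.app | apply Df.and | apply Df.not | apply Df.exZ (I := I) | apply Df.allZ (I := I) | apply Df.imp

theorem dfMt : Df3 (fun c b b' => Mt (gr I c) (tr I b) (tr I b')) := by
  unfold Df3 Mt
  refine Df.and dfFn ?_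
  repeat' first | apply Tm.var | apply dfMemZ.app | apply dfEqZ.app | apply dfGrZ.app | apply Df.and | apply Df.not | apply Df.exZ (I := I) | apply Df.allZ (I := I) | apply Df.imp

theorem Fn.exists_fun {G : ℤ → ℤ → Prop} {A B : Set ℤ} (h : Fn G A B) :
    ∃ f : ℤ → ℤ, MapsTo f A B ∧ ∀ a ∈ A, ∀ b ∈ B, G a b ↔ f a = b := by
  choose! f h1 h2 h3 using h.2
  exact ⟨f, h1, fun a ha b hb => ⟨fun h => (h3 a ha b hb h).symm, fun h => h ▸ h2 a ha⟩⟩

theorem Mt.bij {G : ℤ → ℤ → Prop} {A B : Set ℤ} (h : Mt G A B) : ∃ f, BijOn f A B := by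
  obtain ⟨f, h1, h2⟩ := h.1.exists_fun
  refine ⟨f, h1, fun a ha a' ha' e => ?_, fun b hb => ?_⟩
  · obtain ⟨c, -, -, hc⟩ := h.2 _ (h1 ha)
    exact (hc a ha ((h2 a ha _ (h1 ha)).2 rfl)).trans
      (hc a' ha' ((h2 a' ha' _ (h1 ha)).2 e.symm)).symm
  · obtain ⟨a, ha, hg, -⟩ := h.2 b hb
    exact ⟨a, ha, (h2 a ha b hb).1 hg⟩

theorem exists_gr_fun (I : Iface L) {A B : Set ℤ} (hA : A.Finite) (hd : Disjoint A B) (f : ℤ → ℤ)
    (hf : MapsTo f A B) : ∃ c, ∀ a ∈ A, ∀ b ∈ B, gr I c a b ↔ f a = b := by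
  obtain ⟨c, hc⟩ := exists_gr (I := I) (hA.image fun a => (a, f a))
  refine ⟨c, fun a ha b hb => ?_⟩
  rw [hc]
  constructor
  · rintro ⟨-, ⟨a', -, h⟩ | ⟨a', ha', h⟩⟩
    · obtain ⟨rfl, rfl⟩ := Prod.mk.inj h; rfl
    · obtain ⟨rfl, rfl⟩ := Prod.mk.inj h
      exact absurd hb (disjoint_left.1 hd ha')
  · rintro rfl
    exact ⟨fun e => disjoint_left.1 hd ha (e ▸ hb), Or.inl ⟨a, ha, rfl⟩⟩

theorem fn_of {G : ℤ → ℤ → Prop} {A B : Set ℤ} (hd : Disjoint A B) {f : ℤ → ℤ} (hf : MapsTo f A B)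
    (h : ∀ a ∈ A, ∀ b ∈ B, G a b ↔ f a = b) : Fn G A B :=
  ⟨fun _ ha => disjoint_left.1 hd ha, fun a ha =>
    ⟨f a, hf ha, (h a ha _ (hf ha)).2 rfl, fun b hb hg => ((h a ha b hb).1 hg).symm⟩⟩

theorem exists_mt (I : Iface L) {A B : Set ℤ} (hA : A.Finite) (hB : B.Finite) (hd : Disjoint A B)
    (hc : A.ncard = B.ncard) : ∃ c, Mt (gr I c) A B := by
  obtain ⟨f, hf⟩ : ∃ f : ℤ → ℤ, BijOn f A B := by
    have := hA.to_subtype
    have := hB.to_subtype
    obtain ⟨e⟩ := Finite.card_eq.1 (show Nat.card A = Nat.card B from hc)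
    classical
    refine ⟨fun a => if h : a ∈ A then e ⟨a, h⟩ else 0, fun a ha => ?_, fun a ha a' ha' h => ?_,
      fun b hb => ⟨e.symm ⟨b, hb⟩, (e.symm ⟨b, hb⟩).2, ?_⟩⟩
    · simp [ha]
    · simp only [dif_pos ha, dif_pos ha'] at h
      simpa using e.injective (Subtype.ext h)
    · simp
  obtain ⟨c, hc⟩ := exists_gr_fun I hA hd f hf.mapsTo
  refine ⟨c, fn_of hd hf.mapsTo hc, fun b hb => ?_⟩
  obtain ⟨a, ha, rfl⟩ := hf.surjOn hb
  exact ⟨a, ha, (hc a ha _ hb).2 rfl, fun a' ha' hg => hf.injOn ha' ha ((hc a' ha' _ hb).1 hg)⟩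

theorem exists_fresh (I : Iface L) {A : Set ℤ} (hA : A.Finite) (n : ℕ) :
    ∃ d, (tr I d).Finite ∧ (tr I d).ncard = n ∧ Disjoint A (tr I d) := by
  obtain ⟨B, h1, h2, h3⟩ := hA.infinite_compl.exists_subset_ncard_eq n
  obtain ⟨d, rfl⟩ := exists_tr (I := I) h2
  exact ⟨d, h2, h3, (subset_compl_iff_disjoint_left.1 h1)⟩

def FinP (I : Iface L) (b : Lind L) : Prop := (tr I b).Finite

noncomputable def nu (I : Iface L) (b : Lind L) : ℕ := (tr I b).ncard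

theorem dfFin : Df1 (FinP I) := by
  refine Df.congr (P := fun v => ∃ d c, Mt (gr I c) (tr I (v 0)) (tr I d)) ?_ fun v => ⟨?_, ?_⟩
  · repeat' first | apply Tm.var | apply dfMt.app | apply Df.ex
  · rintro ⟨d, c, h⟩
    obtain ⟨f, hf⟩ := h.bij
    by_contra hc
    have h1 := (tr_cofin (I := I) (v 0)).resolve_left hc
    have h2 : (tr I d).Finite := h1.subset fun a ha ha' => h.1.1 a ha' ha
    exact hc (Finite.of_finite_image (h2.subset hf.mapsTo.image_subset) hf.injOn)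
  · intro h
    obtain ⟨d, h1, h2, h3⟩ := exists_fresh I h (tr I (v 0)).ncard
    exact ⟨d, exists_mt I h h1 h3 h2.symm⟩

def EqC (I : Iface L) (b c : Lind L) : Prop := FinP I b ∧ FinP I c ∧ nu I b = nu I c

theorem Mt.ncard {G : ℤ → ℤ → Prop} {A B : Set ℤ} (h : Mt G A B) : A.ncard = B.ncard := by
  obtain ⟨f, hf⟩ := h.bij
  rw [← hf.image_eq, ncard_image_of_injOn hf.injOn]

theorem dfEqC : Df2 (EqC I) := by
  refine Df.congr (P := fun v => FinP I (v 0) ∧ FinP I (v 1) ∧ ∃ d c c',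
    Mt (gr I c) (tr I (v 0)) (tr I d) ∧ Mt (gr I c') (tr I (v 1)) (tr I d)) ?_ fun v =>
    and_congr_right fun h0 => and_congr_right fun h1 => ⟨?_, ?_⟩
  · repeat' first | apply Tm.var | apply dfFin.app | apply dfMt.app | apply Df.ex | apply Df.and
  · rintro ⟨d, c, c', h, h'⟩
    exact h.ncard.trans h'.ncard.symm
  · intro h
    obtain ⟨d, h2, h3, h4⟩ := exists_fresh I (h0.union h1) (nu I (v 0))
    rw [disjoint_union_left] at h4
    obtain ⟨c, hc⟩ := exists_mt I h0 h2 h4.1 h3.symm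
    obtain ⟨c', hc'⟩ := exists_mt I h1 h2 h4.2 (h3.trans h).symm
    exact ⟨d, c, c', hc, hc'⟩

theorem dfAdd : Df3 (fun x y z => FinP I x ∧ FinP I y ∧ FinP I z ∧ nu I x + nu I y = nu I z) := by
  refine Df.congr (P := fun v => FinP I (v 0) ∧ FinP I (v 1) ∧ FinP I (v 2) ∧ ∃ x y,
    EqC I x (v 0) ∧ EqC I y (v 1) ∧ (∀ a, a ∈ tr I x → ¬ a ∈ tr I y) ∧
      ∀ a, (a ∈ tr I (v 2) ↔ a ∈ tr I x ∨ a ∈ tr I y)) ?_ fun v =>
    and_congr_right fun h0 => and_congr_right fun h1 => and_congr_right fun h2 => ⟨?_, ?_⟩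
  · repeat' first | apply Tm.var | apply dfFin.app | apply dfEqC.app | apply dfMemZ.app | apply Df.and | apply Df.or | apply Df.iff | apply Df.not | apply Df.allZ (I := I) | apply Df.ex | apply Df.imp
  · rintro ⟨x, y, hx, hy, hd, hu⟩
    rw [← hx.2.2, ← hy.2.2, nu, nu, nu, show tr I (v 2) = tr I x ∪ tr I y from Set.ext hu,
      ncard_union_eq (disjoint_left.2 hd) hx.1 hy.1]
  · intro h
    obtain ⟨A, a1, a2⟩ := exists_subset_card_eq (s := tr I (v 2)) (n := nu I (v 0))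
      (by rw [← nu, ← h]; omega)
    obtain ⟨x, rfl⟩ := exists_tr (I := I) (h2.subset a1)
    obtain ⟨y, hy⟩ := exists_tr (I := I) (W := tr I (v 2) \ tr I x) (h2.subset diff_subset)
    refine ⟨x, y, ⟨h2.subset a1, h0, a2⟩, ⟨by rw [FinP, hy]; exact h2.subset diff_subset, h1, ?_⟩,
      fun a ha => by simp [hy, ha], fun a => ?_⟩
    · rw [nu, hy, ncard_diff a1 (h2.subset a1), a2, ← nu, ← h]; omega
    · rw [hy]; have := @a1 a; simp only [mem_diff]; tauto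

theorem ncard_fib {A B : Set ℤ} (hA : A.Finite) (hB : B.Finite) {f : ℤ → ℤ} (hf : MapsTo f A B)
    {n : ℕ} (h : ∀ b ∈ B, {a | a ∈ A ∧ f a = b}.ncard = n) : A.ncard = B.ncard * n := by
  classical
  rw [ncard_eq_toFinset_card A hA, ncard_eq_toFinset_card B hB,
    Finset.card_eq_sum_card_fiberwise (f := f) (t := hB.toFinset) (by simpa using hf),
    Finset.sum_const_nat (m := n)]
  intro b hb
  rw [← h b (by simpa using hb), ← ncard_coe_finset]
  congr 1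
  ext a
  simp

theorem exists_fib {A B : Set ℤ} (hA : A.Finite) (hB : B.Finite) {n : ℕ}
    (h : A.ncard = B.ncard * n) :
    ∃ f : ℤ → ℤ, MapsTo f A B ∧ ∀ b ∈ B, {a | a ∈ A ∧ f a = b}.ncard = n := by
  have := hA.to_subtype
  have := hB.to_subtype
  obtain ⟨e⟩ := Finite.card_eq.1 (show Nat.card A = Nat.card (B × Fin n) by
    rw [Nat.card_prod, Nat.card_eq_fintype_card (α := Fin n), Fintype.card_fin]; exact h)
  classical
  refine ⟨fun a => if h : a ∈ A then (e ⟨a, h⟩).1 else 0, fun a ha => by simp [ha], fun b hb => ?_⟩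
  have : {a | a ∈ A ∧ (if h : a ∈ A then ((e ⟨a, h⟩).1 : ℤ) else 0) = b} =
      range (fun k : Fin n => (e.symm (⟨b, hb⟩, k) : ℤ)) := by
    ext a
    constructor
    · rintro ⟨ha, h⟩
      rw [dif_pos ha] at h
      refine ⟨(e ⟨a, ha⟩).2, ?_⟩
      have : ((⟨b, hb⟩ : B), (e ⟨a, ha⟩).2) = e ⟨a, ha⟩ := Prod.ext (Subtype.ext h.symm) rfl
      simp [this]
    · rintro ⟨k, rfl⟩
      exact ⟨(e.symm _).2, by simp⟩
  rw [this, ← Nat.card_coe_set_eq, Nat.card_range_of_injective, Nat.card_eq_fintype_card,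
    Fintype.card_fin]
  intro k k' h
  simpa using e.symm.injective (Subtype.ext h)

theorem dfMul : Df3 (fun x y z => FinP I x ∧ FinP I y ∧ FinP I z ∧ nu I x * nu I y = nu I z) := by
  refine Df.congr (P := fun v => FinP I (v 0) ∧ FinP I (v 1) ∧ FinP I (v 2) ∧ ∃ x c,
    EqC I x (v 0) ∧ Fn (gr I c) (tr I (v 2)) (tr I x) ∧ ∀ b, b ∈ tr I x → ∃ w, EqC I w (v 1) ∧
      ∀ a, (a ∈ tr I w ↔ a ∈ tr I (v 2) ∧ gr I c a b)) ?_ fun v =>
    and_congr_right fun h0 => and_congr_right fun h1 => and_congr_right fun h2 => ⟨?_, ?_⟩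
  · repeat' first | apply Tm.var | apply dfFin.app | apply dfEqC.app | apply dfFn.app | apply dfMemZ.app | apply dfGrZ.app | apply Df.and | apply Df.iff | apply Df.allZ (I := I) | apply Df.ex | apply Df.imp
  · rintro ⟨x, c, hx, hf, hw⟩
    obtain ⟨f, f1, f2⟩ := hf.exists_fun
    rw [← hx.2.2]
    refine (ncard_fib h2 hx.1 f1 fun b hb => ?_).symm
    obtain ⟨w, w1, w2⟩ := hw b hb
    rw [← w1.2.2, nu]
    congr 1
    ext a
    rw [w2]
    exact and_congr_right fun ha => (f2 a ha b hb).symm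
  · intro h
    obtain ⟨x, x1, x2, x3⟩ := exists_fresh I h2 (nu I (v 0))
    obtain ⟨f, f1, f2⟩ := exists_fib h2 x1 (n := nu I (v 1)) (by rw [x2, h]; rfl)
    obtain ⟨c, hc⟩ := exists_gr_fun I h2 x3 f f1
    refine ⟨x, c, ⟨x1, h0, x2⟩, fn_of x3 f1 hc, fun b hb => ?_⟩
    have hfin : {a | a ∈ tr I (v 2) ∧ f a = b}.Finite := h2.subset fun a ha => ha.1
    obtain ⟨w, hw⟩ := exists_tr (I := I) hfin
    refine ⟨w, ⟨by rw [FinP, hw]; exact hfin, h1, by rw [nu, hw, f2 b hb]⟩, fun a => ?_⟩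
    rw [hw]
    exact and_congr_right fun ha => (hc a ha b hb).symm

theorem nu_surj (I : Iface L) (n : ℕ) : ∃ b, FinP I b ∧ nu I b = n := by
  obtain ⟨d, h1, h2, -⟩ := exists_fresh I finite_empty n
  exact ⟨d, h1, h2⟩

end Pool.Agent.P.MP_13cc81_lc
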