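import Pool.Agent.P.MP_13cc81_lc.Sem

/-! Atoms at infinity and their incidence. -/

namespace Pool.Agent.P.MP_13cc81_lc

open FirstOrder FirstOrder.Language FirstOrder.Language.Structure Lind Filter

variable {L : FirstOrder.Language.{0, 0}} (I : Iface L)

def eP (a b : ℤ) (M : Md L) (e : M) : Prop := ∃ x y, I.E M e x y ∧ vP I a M x ∧ vP I b M y
def eAllP (M : Md L) (e : M) : Prop := ∃ x y, I.E M e x y ∧ vAllP I M x ∧ vAllP I M y

theorem ude (a b : ℤ) : UD1 (eP I a b) := by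
  unfold UD1 eP
  repeat' first | apply I.udE.app | apply (udv I _).app | apply UD.and | apply UD.ex

theorem udeAll : UD1 (eAllP I) := by
  unfold UD1 eAllP
  repeat' first | apply I.udE.app | apply (udvAll I).app | apply UD.and | apply UD.ex

noncomputable def eS (a b : ℤ) : Lind L := (ude I a b).exists_mem.choose
theorem eS_spec (a b : ℤ) (M : Md L) (x : M) : mem (eS I a b) M x ↔ eP I a b M x :=
  (ude I a b).exists_mem.choose_spec M x

noncomputable def eAll : Lind L := (udeAll I).exists_mem.choose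
theorem eAll_spec (M : Md L) (x : M) : mem (eAll I) M x ↔ eAllP I M x :=
  (udeAll I).exists_mem.choose_spec M x

noncomputable def vAll : Lind L := (udvAll I).exists_mem.choose
theorem vAll_spec (M : Md L) (x : M) : mem (vAll I) M x ↔ vAllP I M x :=
  (udvAll I).exists_mem.choose_spec M x

def Eqv (b c : Lind L) : Prop := Le I b c ∧ Le I c b
def VA (p : Lind L) : Prop := At I p ∧ Le I p (vAll I)
def EA (e : Lind L) : Prop := At I e ∧ Le I e (eAll I)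
def Inc (p e : Lind L) : Prop :=
  ∃ s, UU I s ∧ ∀ s', IsS s' → Sub s' s → Split p s' → Split e s'
def Adj (c p q : Lind L) : Prop :=
  ¬ Eqv I p q ∧ ∃ e, EA I e ∧ Le I e c ∧ Inc I p e ∧ Inc I q e

theorem dfEqv : Df2 (Eqv I) :=
  ((dfLe I).app (Tm.var 0) (Tm.var 1)).and ((dfLe I).app (Tm.var 1) (Tm.var 0))

theorem dfVA : Df1 (VA I) := ((dfAt I).app (Tm.var 0)).and ((dfLe I).app (Tm.var 0) (Tm.const _))

theorem dfEA : Df1 (EA I) := ((dfAt I).app (Tm.var 0)).and ((dfLe I).app (Tm.var 0) (Tm.const _))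

theorem dfInc : Df2 (Inc I) := by
  unfold Df2 Inc
  repeat' first | apply Tm.var | apply (dfUU I).app | apply dfS.app | apply dfSub.app | apply dfSplit.app | apply Df.and | apply Df.ex | apply Df.imp | apply Df.all

theorem dfAdj : Df3 (Adj I) := by
  unfold Df3 Adj
  repeat' first | apply Tm.var | apply (dfEqv I).app | apply (dfEA I).app | apply (dfLe I).app | apply (dfInc I).app | apply Df.and | apply Df.not | apply Df.ex

variable {I}

theorem edge_fm (F : FM I) (i j : Fin (F.n + 2)) (κ κ' : Fin 3) :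
    (∃ e, I.E F.M e (F.Ψ (.lad i ⊥ κ)) (F.Ψ (.lad j ⊥ κ'))) ↔ i ≠ j := by
  rw [F.ch.2.2]
  simp [StdR]

theorem large_v (a : ℤ) : Large I (fun M => ∃ x, vP I a M x) := by
  refine ⟨a.natAbs, fun F hF => ?_⟩
  obtain ⟨i, hi⟩ := exists_ad a F.n hF
  exact ⟨_, (vP_fm F a _).2 ⟨i, 1, by decide, hi, rfl⟩⟩

theorem large_e {a b : ℤ} (h : a ≠ b) :
    Large I (fun M => ∀ x y, vP I a M x → vP I b M y → ∃ e, I.E M e x y) := by
  refine ⟨a.natAbs + b.natAbs, fun F hF x y hx hy => ?_⟩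
  obtain ⟨i, κ, -, hi, rfl⟩ := (vP_fm F a _).1 hx
  obtain ⟨j, κ', -, hj, rfl⟩ := (vP_fm F b _).1 hy
  refine (edge_fm F _ _ _ _).2 ?_
  rintro rfl
  unfold Ad at hi hj
  omega

theorem large_ne {a b : ℤ} (h : a ≠ b) : Large I (fun M => ∀ x, vP I a M x → ¬ vP I b M x) := by
  refine ⟨a.natAbs + b.natAbs, fun F hF x hx hy => ?_⟩
  obtain ⟨i, κ, -, hi, rfl⟩ := (vP_fm F a _).1 hx
  obtain ⟨j, κ', -, hj, e⟩ := (vP_fm F b _).1 hy
  obtain rfl : j = i := by have := F.ch.1 e; simp only [Nd.lad.injEq] at this; exact this.1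
  unfold Ad at hi hj
  omega

theorem ev_v {Q : ∀ M : Md L, M → Prop} {a b : ℤ} (h : Ev I (fun M x _ => Q M x) a b) :
    Large I (fun M => ∀ x, vP I a M x → Q M x) := by
  obtain ⟨N, hN⟩ := h
  refine ⟨N + b.natAbs, fun F hF x hx => ?_⟩
  obtain ⟨i, κ, hκ, hi, rfl⟩ := (vP_fm F a _).1 hx
  obtain ⟨j, hj⟩ := exists_ad b F.n (by omega)
  exact hN ⟨F, i, j, κ, κ, hκ, hκ, fun _ => rfl⟩ (by simp; omega) hi hj

theorem ev_v_iff {Q : ∀ M : Md L, M → Prop} {a : ℤ} : Ev I (fun M x _ => Q M x) a a ↔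
    Large I (fun M => ∀ x, vP I a M x → Q M x) :=
  ⟨ev_v, fun ⟨N, hN⟩ => ⟨N, fun p hp hi _ =>
    hN p.toFM hp _ ((vP_fm p.toFM a _).2 ⟨p.i, p.κ, p.hκ, hi, rfl⟩)⟩⟩

theorem ev_e {Q : ∀ M : Md L, M → M → Prop} {a b : ℤ} (h : Ev I Q a b) :
    Large I (fun M => ∀ e x y, I.E M e x y → vP I a M x → vP I b M y → Q M x y) := by
  obtain ⟨N, hN⟩ := h
  refine ⟨N, fun F hF e x y he hx hy => ?_⟩
  obtain ⟨i, κ, hκ, hi, rfl⟩ := (vP_fm F a _).1 hx
  obtain ⟨j, κ', hκ', hj, rfl⟩ := (vP_fm F b _).1 hy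
  exact hN ⟨F, i, j, κ, κ', hκ, hκ', fun h => absurd h ((edge_fm F _ _ _ _).1 ⟨e, he⟩)⟩ hF hi hj

theorem nn_v (a : ℤ) : ¬ Null I (vS I a) := fun h => by
  obtain ⟨F, -, h1, x, hx⟩ := ((null_iff.1 h).and (large_v a)).exists 0
  exact h1 x ((vS_spec _ _ _ _).2 hx)

theorem nn_e {a b : ℤ} (hab : a ≠ b) : ¬ Null I (eS I a b) := fun h => by
  obtain ⟨F, -, h1, h2, ⟨x, hx⟩, y, hy⟩ :=
    ((null_iff.1 h).and ((large_e hab).and ((large_v a).and (large_v b)))).exists 0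
  obtain ⟨e, he⟩ := h2 x y hx hy
  exact h1 e ((eS_spec _ _ _ _ _).2 ⟨x, y, he, hx, hy⟩)

theorem at_v (a : ℤ) : At I (vS I a) := by
  refine ⟨nn_v a, fun c => ?_⟩
  rcases ev_dich (I := I) (Q := fun M x _ => mem c M x) ((ud_mem c).app 0) a a with h | h
  · exact Or.inl (le_iff.2 ((ev_v h).mono fun F hF x hx => hF x ((vS_spec _ _ _ _).1 hx)))
  · refine Or.inr (null_iff.2 ((ev_v (Q := fun M x => ¬ mem c M x) h).mono fun F hF x hx => ?_))
    rw [mem_cap, vS_spec] at hx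
    exact hF x hx.1 hx.2

theorem udQ (c : Lind L) : UD2 (fun (M : Md L) x y => ∃ e, I.E M e x y ∧ mem c M e) :=
  UD.ex (UD.and (I.udE.app none (some 0) (some 1)) ((ud_mem c).app none))

theorem le_e_of_ev {c : Lind L} {a b : ℤ}
    (h : Ev I (fun (M : Md L) x y => ∃ e, I.E M e x y ∧ mem c M e) a b) : Le I (eS I a b) c := by
  refine le_iff.2 ((ev_e h).mono fun F hF e he => ?_)
  obtain ⟨x, y, h1, h2, h3⟩ := (eS_spec _ _ _ _ _).1 he
  obtain ⟨e', h4, h5⟩ := hF e x y h1 h2 h3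
  rwa [I.uniqE _ F.eta _ _ _ _ h1 h4]

theorem at_e {a b : ℤ} (hab : a ≠ b) : At I (eS I a b) := by
  refine ⟨nn_e hab, fun c => ?_⟩
  rcases ev_dich (I := I) (udQ c) a b with h | h
  · exact Or.inl (le_e_of_ev h)
  · refine Or.inr (null_iff.2 ((ev_e h).mono fun F hF e he => ?_))
    rw [mem_cap, eS_spec] at he
    obtain ⟨⟨x, y, h1, h2, h3⟩, h4⟩ := he
    exact hF e x y h1 h2 h3 ⟨e, h1, h4⟩

theorem not_null {b : Lind L} (h : ¬ Null I b) {P : Md L → Prop} (hP : Large I P) (K : ℕ) :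
    ∃ F : FM I, K ≤ F.n ∧ P F.M ∧ ∃ x, mem b F.M x := by
  by_contra hc
  push Not at hc
  obtain ⟨N, hN⟩ := hP
  exact h (null_iff.2 ⟨N + K, fun F hF => hc F (by omega) (hN F (by omega))⟩)

theorem va_iff {p : Lind L} : VA I p ↔ ∃ a, Eqv I p (vS I a) := by
  constructor
  · rintro ⟨h1, h2⟩
    obtain ⟨N, hN⟩ := ev_class (I := I) (Q := fun M x _ => mem p M x) ((ud_mem p).app 0)
    obtain ⟨F, hF, h3, x, hx⟩ := not_null h1.1 (le_iff.1 h2) N
    obtain ⟨i, κ, hκ, rfl⟩ := (vAllP_fm F _).1 ((vAll_spec _ _ _).1 (h3 x hx))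
    obtain ⟨a, b, -, -, h⟩ := hN ⟨F, i, i, κ, κ, hκ, hκ, fun _ => rfl⟩ hF hx
    have h4 : Le I (vS I a) p :=
      le_iff.2 ((ev_v h).mono fun F hF x hx => hF x ((vS_spec _ _ _ _).1 hx))
    exact ⟨a, h1.le_of (nn_v a) h4, h4⟩
  · rintro ⟨a, h1, h2⟩
    refine ⟨(at_v a).congr h1 h2, h1.trans (le_iff.2 ⟨0, fun F _ x hx => ?_⟩)⟩
    obtain ⟨i, κ, hκ, -, rfl⟩ := (vP_fm F a _).1 ((vS_spec _ _ _ _).1 hx)
    exact (vAll_spec _ _ _).2 ((vAllP_fm F _).2 ⟨i, κ, hκ, rfl⟩)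

theorem ea_iff {e : Lind L} : EA I e ↔ ∃ a b, a ≠ b ∧ Eqv I e (eS I a b) := by
  constructor
  · rintro ⟨h1, h2⟩
    obtain ⟨N, hN⟩ := ev_class (I := I) (udQ e)
    obtain ⟨F, hF, h3, z, hz⟩ := not_null h1.1 (le_iff.1 h2) N
    obtain ⟨x, y, he, hx, hy⟩ := (eAll_spec _ _ _).1 (h3 z hz)
    obtain ⟨i, κ, hκ, rfl⟩ := (vAllP_fm F _).1 hx
    obtain ⟨j, κ', hκ', rfl⟩ := (vAllP_fm F _).1 hy
    have hij := (edge_fm F _ _ _ _).1 ⟨z, he⟩
    obtain ⟨a, b, ha, hb, h⟩ := hN ⟨F, i, j, κ, κ', hκ, hκ', fun h => absurd h hij⟩ hF ⟨z, he, hz⟩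
    have hab : a ≠ b := by
      rintro rfl
      apply hij
      apply Fin.ext
      unfold Ad at ha hb
      simp only at ha hb
      omega
    have h4 := le_e_of_ev h
    exact ⟨a, b, hab, h1.le_of (nn_e hab) h4, h4⟩
  · rintro ⟨a, b, hab, h1, h2⟩
    refine ⟨(at_e hab).congr h1 h2, h1.trans (le_iff.2 ⟨0, fun F _ z hz => ?_⟩)⟩
    obtain ⟨x, y, he, hx, hy⟩ := (eS_spec _ _ _ _ _).1 hz
    obtain ⟨i, κ, hκ, -, rfl⟩ := (vP_fm F a _).1 hx
    obtain ⟨j, κ', hκ', -, rfl⟩ := (vP_fm F b _).1 hy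
    exact (eAll_spec _ _ _).2 ⟨_, _, he, (vAllP_fm F _).2 ⟨i, κ, hκ, rfl⟩,
      (vAllP_fm F _).2 ⟨j, κ', hκ', rfl⟩⟩

theorem le_v_iff {a b : ℤ} : Le I (vS I a) (vS I b) ↔ a = b := by
  refine ⟨fun h => ?_, fun h => h ▸ Le.refl _⟩
  by_contra hab
  obtain ⟨F, -, h1, h2, x, hx⟩ := ((le_iff.1 h).and ((large_ne hab).and (large_v a))).exists 0
  exact h2 x hx ((vS_spec _ _ _ _).1 (h1 x ((vS_spec _ _ _ _).2 hx)))

theorem large_eta : Large I I.eta := ⟨0, fun F _ => F.eta⟩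

theorem inc_iff {p e : Lind L} {a k l : ℤ} (hp : Eqv I p (vS I a)) (he : Eqv I e (eS I k l))
    (hkl : k ≠ l) : Inc I p e ↔ a = k ∨ a = l := by
  constructor
  · rintro ⟨s, hs, h⟩
    by_contra hc
    push Not at hc
    obtain ⟨N, hN⟩ := (uu_iff.1 hs).2.and ((le_iff.1 hp.2).and (le_iff.1 he.1))
    obtain ⟨i0, hi0⟩ := exists_ad a (N + (a.natAbs + k.natAbs + l.natAbs)) (by omega)
    obtain ⟨M, Ψ, e1, e2⟩ := exists_fm I (N + (a.natAbs + k.natAbs + l.natAbs))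
      (fun r => if r = i0 then 1 else 0)
    let F : FM I := ⟨_, M, _, Ψ, e1, e2⟩
    obtain ⟨b1, b2, b3⟩ := hN F (by simp [F])
    obtain ⟨s', c1, c2⟩ := UD0.exists_S (P := fun M => hold s M ∧ ∃ x y, mem p M x ∧ mem p M y ∧
      rhoP I (F.n + 1) M x ∧ ¬ rhoP I (F.n + 1) M y) (by
        unfold UD0
        repeat' first | apply (ud_hold s).app | apply (ud_mem p).app | apply (udrho I _).app | apply UD.and | apply UD.not | apply UD.ex)
    obtain ⟨ψ, hψ, d⟩ := split_iff.1 (h s' c1 ((sub_iff c1).2 fun M hM => ((c2 M).1 hM).1)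
      (split_iff.2 ⟨_, udrho I (F.n + 1), fun M hM => ((c2 M).1 hM).2⟩))
    obtain ⟨x, y, f1, f2, f3, f4⟩ := fm_split F a i0 hi0 (by simp [F])
    obtain ⟨z, z', g1, g2, g3, g4⟩ := d M ((c2 M).2 ⟨b1, x, y, b2 x ((vS_spec _ _ _ _).2 f1),
      b2 y ((vS_spec _ _ _ _).2 f2), f3, f4⟩)
    obtain ⟨_, _, t1, t2, t3⟩ := (eS_spec _ _ _ _ _).1 (b3 z g1)
    obtain ⟨_, _, t1', t2', t3'⟩ := (eS_spec _ _ _ _ _).1 (b3 z' g2)
    obtain ⟨i, κ1, hκ1, hi, rfl⟩ := (vP_fm F k _).1 t2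
    obtain ⟨j, κ2, hκ2, hj, rfl⟩ := (vP_fm F l _).1 t3
    obtain ⟨i', κ1', hκ1', hi', rfl⟩ := (vP_fm F k _).1 t2'
    obtain ⟨j', κ2', hκ2', hj', rfl⟩ := (vP_fm F l _).1 t3'
    obtain rfl : i = i' := Fin.ext (by unfold Ad at hi hi'; omega)
    obtain rfl : j = j' := Fin.ext (by unfold Ad at hj hj'; omega)
    have hij := (edge_fm F _ _ _ _).1 ⟨z, t1⟩
    have hFn : F.n = N + (a.natAbs + k.natAbs + l.natAbs) := rfl
    have hi1 : i ≠ i0 := by
      intro e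
      have := hc.1
      have := congrArg Fin.val e
      unfold Ad at hi hi0
      omega
    have hj1 : j ≠ i0 := by
      intro e
      have := hc.2
      have := congrArg Fin.val e
      unfold Ad at hj hi0
      omega
    obtain ⟨α, α0, α1, α2, α3⟩ := exists_perm i j κ1 κ2 κ1' κ2' hκ1 hκ2 hκ1' hκ2'
      (fun h => absurd h hij)
    obtain ⟨g, hg⟩ := mod_iso e1 e1 e2 e2 (OrderIso.refl _) α α0 (Or.inr fun r => by
      by_cases hr : r = i0
      · rw [α3 r (hr ▸ hi1.symm) (hr ▸ hj1.symm)]; rfl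
      · simp [hr, α0])
    have u := (I.udE.iso g z _ _).2 t1
    rw [hg, hg, α1, α2] at u
    rw [← I.uniqE _ e1 _ _ _ _ u t1'] at g4
    exact g4 ((hψ.iso g z).2 g3)
  · rintro (rfl | rfl)
    · obtain ⟨s, hs, h⟩ := Large.uu (I := I) (P := fun M => I.eta M ∧ ∀ x, mem p M x →
        ∃ z y, I.E M z x y ∧ mem e M z) (by
          refine (large_eta.and ((le_iff.1 hp.1).and ((le_iff.1 he.2).and ((large_e hkl).and
            (large_v l))))).mono ?_
          rintro F ⟨a1, a2, a3, a4, y, hy⟩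
          refine ⟨a1, fun x hx => ?_⟩
          have hx' := (vS_spec _ _ _ _).1 (a2 x hx)
          obtain ⟨z, hz⟩ := a4 x y hx' hy
          exact ⟨z, y, hz, a3 z ((eS_spec _ _ _ _ _).2 ⟨x, y, hz, hx', hy⟩)⟩) (by
          unfold UD0
          repeat' first | apply I.udeta.app | apply I.udE.app | apply (ud_mem _).app | apply UD.and | apply UD.imp | apply UD.ex | apply UD.all)
      refine ⟨s, hs, fun s' h1 h2 h3 => ?_⟩
      obtain ⟨ψ, hψ, d⟩ := split_iff.1 h3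
      refine split_iff.2 ⟨fun M z => ∃ x y, I.E M z x y ∧ ψ M x, by
        unfold UD1
        repeat' first | apply I.udE.app | apply hψ.app | apply UD.and | apply UD.ex, fun M hM => ?_⟩
      obtain ⟨x, x', b1, b2, b3, b4⟩ := d M hM
      obtain ⟨c1, c2⟩ := (h M).1 ((sub_iff h1).1 h2 M hM)
      obtain ⟨z, y, d1, d2⟩ := c2 x b1
      obtain ⟨z', y', d1', d2'⟩ := c2 x' b2
      refine ⟨z, z', d2, d2', ⟨x, y, d1, b3⟩, ?_⟩
      rintro ⟨x'', y'', e1, e2⟩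
      exact b4 ((I.srcE _ c1 _ _ _ _ _ e1 d1').1 ▸ e2)
    · obtain ⟨s, hs, h⟩ := Large.uu (I := I) (P := fun M => I.eta M ∧ ∀ x, mem p M x →
        ∃ z y, I.E M z y x ∧ mem e M z) (by
          refine (large_eta.and ((le_iff.1 hp.1).and ((le_iff.1 he.2).and ((large_e hkl).and
            (large_v k))))).mono ?_
          rintro F ⟨a1, a2, a3, a4, y, hy⟩
          refine ⟨a1, fun x hx => ?_⟩
          have hx' := (vS_spec _ _ _ _).1 (a2 x hx)
          obtain ⟨z, hz⟩ := a4 y x hy hx'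
          exact ⟨z, y, hz, a3 z ((eS_spec _ _ _ _ _).2 ⟨y, x, hz, hy, hx'⟩)⟩) (by
          unfold UD0
          repeat' first | apply I.udeta.app | apply I.udE.app | apply (ud_mem _).app | apply UD.and | apply UD.imp | apply UD.ex | apply UD.all)
      refine ⟨s, hs, fun s' h1 h2 h3 => ?_⟩
      obtain ⟨ψ, hψ, d⟩ := split_iff.1 h3
      refine split_iff.2 ⟨fun M z => ∃ x y, I.E M z y x ∧ ψ M x, by
        unfold UD1
        repeat' first | apply I.udE.app | apply hψ.app | apply UD.and | apply UD.ex, fun M hM => ?_⟩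
      obtain ⟨x, x', b1, b2, b3, b4⟩ := d M hM
      obtain ⟨c1, c2⟩ := (h M).1 ((sub_iff h1).1 h2 M hM)
      obtain ⟨z, y, d1, d2⟩ := c2 x b1
      obtain ⟨z', y', d1', d2'⟩ := c2 x' b2
      refine ⟨z, z', d2, d2', ⟨x, y, d1, b3⟩, ?_⟩
      rintro ⟨x'', y'', e1, e2⟩
      exact b4 ((I.srcE _ c1 _ _ _ _ _ e1 d1').2 ▸ e2)

variable (I)

def tr (b : Lind L) : Set ℤ := {a | Le I (vS I a) b}

def gr (c : Lind L) (a b : ℤ) : Prop := a ≠ b ∧ (Le I (eS I a b) c ∨ Le I (eS I b a) c)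

variable {I}

theorem Eqv.refl (b : Lind L) : Eqv I b b := ⟨Le.refl b, Le.refl b⟩

theorem eqv_iff {p q : Lind L} {a b : ℤ} (hp : Eqv I p (vS I a)) (hq : Eqv I q (vS I b)) :
    Eqv I p q ↔ a = b :=
  ⟨fun h => le_v_iff.1 ((hp.2.trans h.1).trans hq.1),
    fun h => by subst h; exact ⟨hp.1.trans hq.2, hq.1.trans hp.2⟩⟩

theorem adj_iff {c p q : Lind L} {a b : ℤ} (hp : Eqv I p (vS I a)) (hq : Eqv I q (vS I b)) :
    Adj I c p q ↔ gr I c a b := by
  unfold Adj gr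
  rw [eqv_iff hp hq]
  refine and_congr_right fun hab => ⟨?_, ?_⟩
  · rintro ⟨e, h1, h2, h3, h4⟩
    obtain ⟨k, l, hkl, he⟩ := ea_iff.1 h1
    rcases (inc_iff hp he hkl).1 h3 with rfl | rfl <;>
      rcases (inc_iff hq he hkl).1 h4 with rfl | rfl
    · exact absurd rfl hab
    · exact Or.inl (he.2.trans h2)
    · exact Or.inr (he.2.trans h2)
    · exact absurd rfl hab
  · rintro (h | h)
    · exact ⟨_, ea_iff.2 ⟨a, b, hab, Eqv.refl _⟩, h, (inc_iff hp (Eqv.refl _) hab).2 (Or.inl rfl),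
        (inc_iff hq (Eqv.refl _) hab).2 (Or.inr rfl)⟩
    · exact ⟨_, ea_iff.2 ⟨b, a, Ne.symm hab, Eqv.refl _⟩, h,
        (inc_iff hp (Eqv.refl _) (Ne.symm hab)).2 (Or.inr rfl),
        (inc_iff hq (Eqv.refl _) (Ne.symm hab)).2 (Or.inl rfl)⟩

theorem tr_cofin (b : Lind L) : (tr I b).Finite ∨ (tr I b)ᶜ.Finite := by
  have : tr I b = {a | Ev I (fun M x _ => mem b M x) a a} := by
    ext a
    simp only [tr, Set.mem_setOf_eq, ev_v_iff, le_iff, vS_spec]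
  rw [this]
  exact ev_cofin ((ud_mem b).app 0)

theorem Large.all {ι : Type} [Finite ι] {P : ι → Md L → Prop} (h : ∀ i, Large I (P i)) :
    Large I (fun M => ∀ i, P i M) := by
  choose N hN using h
  obtain ⟨K, hK⟩ := (Set.finite_range N).bddAbove
  exact ⟨K, fun F hF i => hN i F ((hK ⟨i, rfl⟩).trans hF)⟩

theorem exists_tr {W : Set ℤ} (hW : W.Finite) : ∃ b, tr I b = W := by
  have := hW.to_subtype
  obtain ⟨b, hb⟩ := UD1.exists_mem (P := fun M x => ∃ a : W, vP I a M x)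
    (UD.iOr fun a => (udv I a.1).app 0)
  refine ⟨b, Set.ext fun a => ⟨fun h => ?_, fun h => le_iff.2 ⟨0, fun F _ x hx => ?_⟩⟩⟩
  · by_contra ha
    obtain ⟨F, -, h1, h2, x, hx⟩ := ((le_iff.1 h).and ((Large.all fun a' : W =>
      large_ne (I := I) (a := a) (b := a') (fun e => ha (e ▸ a'.2))).and (large_v a))).exists 0
    obtain ⟨a', h3⟩ := (hb _ _).1 (h1 x ((vS_spec _ _ _ _).2 hx))
    exact h2 a' x hx h3
  · exact (hb _ _).2 ⟨⟨a, h⟩, (vS_spec _ _ _ _).1 hx⟩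

theorem exists_gr {G : Set (ℤ × ℤ)} (hG : G.Finite) :
    ∃ c, ∀ a b, gr I c a b ↔ a ≠ b ∧ ((a, b) ∈ G ∨ (b, a) ∈ G) := by
  have := hG.to_subtype
  obtain ⟨c, hc⟩ := UD1.exists_mem (P := fun M x => ∃ g : G, eP I g.1.1 g.1.2 M x)
    (UD.iOr fun g => (ude I g.1.1 g.1.2).app 0)
  have key : ∀ a b, a ≠ b → (Le I (eS I a b) c ↔ (a, b) ∈ G) := by
    intro a b hab
    refine ⟨fun h => ?_, fun h => le_iff.2 ⟨0, fun F _ x hx => ?_⟩⟩
    · by_contra ha
      have h0 : ∀ g : G, Large I (fun M => ∀ x y, vP I a M x → vP I b M y →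
          ¬ (vP I g.1.1 M x ∧ vP I g.1.2 M y)) := by
        intro g
        by_cases e : a = g.1.1
        · have e' : b ≠ g.1.2 := fun e' => ha (by rw [e, e']; exact g.2)
          exact (large_ne e').mono fun F hF x y _ hy h => hF y hy h.2
        · exact (large_ne e).mono fun F hF x y hx _ h => hF x hx h.1
      obtain ⟨F, -, ⟨h1, h2⟩, z, hz⟩ := not_null (nn_e hab) ((le_iff.1 h).and (Large.all h0)) 0
      obtain ⟨g, x', y', h3, h4, h5⟩ := (hc _ _).1 (h1 z hz)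
      obtain ⟨x, y, h6, h7, h8⟩ := (eS_spec _ _ _ _ _).1 hz
      obtain ⟨rfl, rfl⟩ := I.srcE _ F.eta _ _ _ _ _ h3 h6
      exact h2 g _ _ h7 h8 ⟨h4, h5⟩
    · exact (hc _ _).2 ⟨⟨(a, b), h⟩, (eS_spec _ _ _ _ _).1 hx⟩
  exact ⟨c, fun a b => and_congr_right fun hab => by rw [key a b hab, key b a (Ne.symm hab)]⟩

open Classical in
noncomputable def io (I : Iface L) (p : Lind L) : ℤ := if h : VA I p then (va_iff.1 h).choose else 0

open Classical in
noncomputable def nf (I : Iface L) (p : Lind L) : Lind L := if VA I p then p else vS I 0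

theorem nf_eqv (p : Lind L) : Eqv I (nf I p) (vS I (io I p)) := by
  unfold nf io
  split_ifs with h
  · exact (va_iff.1 h).choose_spec
  · exact Eqv.refl _

theorem io_surj : Function.Surjective (io I) := by
  intro a
  have h : VA I (vS I a) := va_iff.2 ⟨a, Eqv.refl _⟩
  refine ⟨vS I a, ?_⟩
  have := nf_eqv (I := I) (vS I a)
  rw [nf, if_pos h] at this
  exact (le_v_iff.1 this.1).symm

theorem tm_nf {α : Type} (i : α) : Tm (fun v => nf I (v i)) := by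
  classical
  exact Set.DefinableFun.ite (p := fun v => VA I (v i)) ((dfVA I).app (Tm.var i)) (Tm.var i)
    (Tm.const _)

theorem dfMemZ : Df2 (fun p b => io I p ∈ tr I b) :=
  ((dfLe I).app (tm_nf 0) (Tm.var 1)).congr fun _ =>
    ⟨fun h => (nf_eqv _).2.trans h, fun h => (nf_eqv _).1.trans h⟩

theorem dfEqZ : Df2 (fun p q => io I p = io I q) :=
  ((dfEqv I).app (tm_nf 0) (tm_nf 1)).congr fun _ => eqv_iff (nf_eqv _) (nf_eqv _)

theorem dfGrZ : Df3 (fun c p q => gr I c (io I p) (io I q)) :=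
  ((dfAdj I).app (Tm.var 0) (tm_nf 1) (tm_nf 2)).congr fun _ => adj_iff (nf_eqv _) (nf_eqv _)

end Pool.Agent.P.MP_13cc81_lc
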