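import Mathlib

/-! The one-variable Lindenbaum algebra of pure predicate calculus, with the predicate `S`. -/

namespace Pool.Agent.P.MP_13cc81_lc

open FirstOrder FirstOrder.Language

/-- A signature is rich if it has a predicate or function symbol of arity `> 1`, or at least two
unary function symbols. -/
def Rich (L : FirstOrder.Language.{0, 0}) : Prop :=
  (∃ n, 1 < n ∧ (Nonempty (L.Relations n) ∨ Nonempty (L.Functions n))) ∨
    ∃ f g : L.Functions 1, f ≠ g

variable {L : FirstOrder.Language.{0, 0}}

/-- Formulas with free variables among `x0`, modulo equivalence in pure predicate calculus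
(the empty theory). -/
def Lind (L : FirstOrder.Language.{0, 0}) : Type :=
  Quotient ((∅ : L.Theory).iffSetoid : Setoid (L.Formula (Fin 1)))

theorem iff_def {φ ψ : L.Formula (Fin 1)} : (φ ⇔[(∅ : L.Theory)] ψ) ↔
    ∀ (M : (∅ : L.Theory).ModelType.{0, 0, 0}) (v : Fin 1 → M), φ.Realize v ↔ ψ.Realize v := by
  refine (Theory.models_formula_iff (φ := φ.iff ψ)).trans ?_
  simp only [Formula.realize_iff]

/-- the class of a formula -/
def Lind.mk (φ : L.Formula (Fin 1)) : Lind L := Quotient.mk _ φ

/-- the operation induced by disjunction -/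
def Lind.cup : Lind L → Lind L → Lind L :=
  Quotient.map₂ (fun φ ψ : L.Formula (Fin 1) => φ ⊔ ψ) fun _ _ h _ _ h' => iff_def.2 fun M v => by
    simp only [Formula.realize_sup, iff_def.1 h M v, iff_def.1 h' M v]

/-- the operation induced by conjunction -/
def Lind.cap : Lind L → Lind L → Lind L :=
  Quotient.map₂ (fun φ ψ : L.Formula (Fin 1) => φ ⊓ ψ) fun _ _ h _ _ h' => iff_def.2 fun M v => by
    simp only [Formula.realize_inf, iff_def.1 h M v, iff_def.1 h' M v]

/-- the operation induced by negation -/
def Lind.neg : Lind L → Lind L :=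
  Quotient.map (fun φ : L.Formula (Fin 1) => φ.not) fun _ _ h => iff_def.2 fun M v => by
    simp only [Formula.realize_not, iff_def.1 h M v]

/-- the class of `x0 = x0` -/
def Lind.one : Lind L := Lind.mk ((Term.var 0).equal (Term.var 0))

/-- the class of `x0 ≠ x0` -/
def Lind.zero : Lind L := Lind.mk ((Term.var 0).equal (Term.var 0)).not

/-- the class contains a sentence -/
def Lind.IsS (b : Lind L) : Prop := ∃ ψ : L.Sentence, b = Lind.mk (Formula.relabel Empty.elim ψ)

/-- function symbols `∪, ∩, -, 0, 1` -/
inductive BAFun : ℕ → Type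
  | cup : BAFun 2
  | cap : BAFun 2
  | neg : BAFun 1
  | zero : BAFun 0
  | one : BAFun 0

/-- the unary predicate symbol `S` -/
inductive BARel : ℕ → Type
  | S : BARel 1

/-- the signature `{∪, ∩, -, 0, 1, S}` -/
def baLang : FirstOrder.Language.{0, 0} := ⟨BAFun, BARel⟩

instance lindStructure : baLang.Structure (Lind L) where
  funMap
    | .cup, v => Lind.cup (v 0) (v 1)
    | .cap, v => Lind.cap (v 0) (v 1)
    | .neg, v => Lind.neg (v 0)
    | .zero, _ => Lind.zero
    | .one, _ => Lind.one
  RelMap
    | .S, v => Lind.IsS (v 0)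

end Pool.Agent.P.MP_13cc81_lc
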