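import Mathlib

/-! Uniform definability over all structures of a signature. -/

namespace Pool.Agent.P.MP_13cc81_lc

open FirstOrder FirstOrder.Language FirstOrder.Language.Structure

abbrev Md (L : FirstOrder.Language.{0, 0}) := (∅ : L.Theory).ModelType.{0, 0, 0}

variable {L : FirstOrder.Language.{0, 0}} {α β : Type}

def UD (P : ∀ M : Md L, (α → M) → Prop) : Prop :=
  ∃ φ : L.Formula α, ∀ (M : Md L) (v : α → M), φ.Realize v ↔ P M v

namespace UD

theorem congr {P Q : ∀ M : Md L, (α → M) → Prop} (h : UD P) (e : ∀ M v, P M v ↔ Q M v) : UD Q := by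
  obtain ⟨φ, hφ⟩ := h
  exact ⟨φ, fun M v => (hφ M v).trans (e M v)⟩

theorem fals : UD (L := L) (α := α) (fun _ _ => False) := ⟨⊥, fun _ _ => by simp⟩

theorem and {P Q : ∀ M : Md L, (α → M) → Prop} (h : UD P) (h' : UD Q) :
    UD (fun M v => P M v ∧ Q M v) := by
  obtain ⟨φ, hφ⟩ := h
  obtain ⟨ψ, hψ⟩ := h'
  exact ⟨φ ⊓ ψ, fun M v => by simp [hφ, hψ]⟩

theorem or {P Q : ∀ M : Md L, (α → M) → Prop} (h : UD P) (h' : UD Q) :
    UD (fun M v => P M v ∨ Q M v) := by
  obtain ⟨φ, hφ⟩ := h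
  obtain ⟨ψ, hψ⟩ := h'
  exact ⟨φ ⊔ ψ, fun M v => by simp [hφ, hψ]⟩

theorem not {P : ∀ M : Md L, (α → M) → Prop} (h : UD P) : UD (fun M v => ¬ P M v) := by
  obtain ⟨φ, hφ⟩ := h
  exact ⟨φ.not, fun M v => by simp [hφ]⟩

theorem imp {P Q : ∀ M : Md L, (α → M) → Prop} (h : UD P) (h' : UD Q) :
    UD (fun M v => P M v → Q M v) :=
  (h.not.or h').congr fun _ _ => imp_iff_not_or.symm

theorem iff {P Q : ∀ M : Md L, (α → M) → Prop} (h : UD P) (h' : UD Q) :
    UD (fun M v => P M v ↔ Q M v) :=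
  ((h.imp h').and (h'.imp h)).congr fun _ _ => iff_iff_implies_and_implies.symm

theorem comp {P : ∀ M : Md L, (α → M) → Prop} (h : UD P) (f : α → β) :
    UD (fun M (v : β → M) => P M (fun i => v (f i))) := by
  obtain ⟨φ, hφ⟩ := h
  exact ⟨φ.relabel f, fun M v => by rw [Formula.realize_relabel, hφ]; rfl⟩

theorem allFin {γ : Type} [Finite γ] {P : ∀ M : Md L, (α → M) → (γ → M) → Prop}
    (h : UD (fun M (v : α ⊕ γ → M) => P M (fun i => v (Sum.inl i)) (fun i => v (Sum.inr i)))) :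
    UD (fun M v => ∀ w, P M v w) := by
  obtain ⟨φ, hφ⟩ := h
  refine ⟨φ.iAlls γ, fun M v => ?_⟩
  rw [Formula.realize_iAlls]
  exact forall_congr' fun w => by rw [hφ]; rfl

theorem all {P : ∀ M : Md L, (α → M) → M → Prop}
    (h : UD (fun M (v : Option α → M) => P M (fun i => v (some i)) (v none))) :
    UD (fun M v => ∀ x, P M v x) := by
  have := allFin (γ := Unit) (P := fun M v w => P M v (w ()))
    (h.comp (fun o => Option.elim o (Sum.inr ()) Sum.inl))
  exact this.congr fun M v => ⟨fun h x => h (fun _ => x), fun h w => h _⟩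

theorem ex {P : ∀ M : Md L, (α → M) → M → Prop}
    (h : UD (fun M (v : Option α → M) => P M (fun i => v (some i)) (v none))) :
    UD (fun M v => ∃ x, P M v x) :=
  (all (P := fun M v x => ¬ P M v x) h.not).not.congr fun _ _ => by simp

theorem eq (i j : α) : UD (L := L) (fun _ v => v i = v j) :=
  ⟨(Term.var i).equal (Term.var j), fun M v => by simp⟩

theorem func {n : ℕ} (F : L.Functions n) (a : Fin n → α) (b : α) :
    UD (L := L) (fun _ v => funMap F (fun k => v (a k)) = v b) :=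
  ⟨(Term.func F (fun k => Term.var (a k))).equal (Term.var b), fun M v => by simp⟩

theorem rel {n : ℕ} (r : L.Relations n) (a : Fin n → α) :
    UD (L := L) (fun _ v => RelMap r (fun k => v (a k))) :=
  ⟨r.formula (fun k => Term.var (a k)), fun M v => by simp⟩

theorem iAnd {ι : Type} [Finite ι] {P : ι → ∀ M : Md L, (α → M) → Prop} (h : ∀ i, UD (P i)) :
    UD (fun M v => ∀ i, P i M v) := by
  choose φ hφ using h
  exact ⟨Formula.iInf φ, fun M v => by simp [Formula.realize_iInf, hφ]⟩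

theorem iOr {ι : Type} [Finite ι] {P : ι → ∀ M : Md L, (α → M) → Prop} (h : ∀ i, UD (P i)) :
    UD (fun M v => ∃ i, P i M v) := by
  choose φ hφ using h
  exact ⟨Formula.iSup φ, fun M v => by simp [Formula.realize_iSup, hφ]⟩

theorem iso {P : ∀ M : Md L, (α → M) → Prop} (h : UD P) {M M' : Md L} (g : M ≃[L] M')
    (v : α → M) : P M' (fun i => g (v i)) ↔ P M v := by
  obtain ⟨φ, hφ⟩ := h
  rw [← hφ, ← hφ]
  exact StrongHomClass.realize_formula g φ

end UD

def UD0 (P : Md L → Prop) : Prop := UD (α := Empty) (fun M _ => P M)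
def UD1 (P : ∀ M : Md L, M → Prop) : Prop := UD (α := Fin 1) (fun M v => P M (v 0))
def UD2 (P : ∀ M : Md L, M → M → Prop) : Prop := UD (α := Fin 2) (fun M v => P M (v 0) (v 1))
def UD3 (P : ∀ M : Md L, M → M → M → Prop) : Prop :=
  UD (α := Fin 3) (fun M v => P M (v 0) (v 1) (v 2))

theorem UD0.app {P : Md L → Prop} (h : UD0 P) : UD (α := α) (fun M _ => P M) :=
  UD.comp h Empty.elim

theorem UD1.app {P : ∀ M : Md L, M → Prop} (h : UD1 P) (i : α) : UD (fun M v => P M (v i)) :=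
  UD.comp h ![i]

theorem UD2.app {P : ∀ M : Md L, M → M → Prop} (h : UD2 P) (i j : α) :
    UD (fun M v => P M (v i) (v j)) := UD.comp h ![i, j]

theorem UD3.app {P : ∀ M : Md L, M → M → M → Prop} (h : UD3 P) (i j k : α) :
    UD (fun M v => P M (v i) (v j) (v k)) := UD.comp h ![i, j, k]

theorem UD0.iso {P : Md L → Prop} (h : UD0 P) {M M' : Md L} (g : M ≃[L] M') : P M' ↔ P M :=
  UD.iso h g Empty.elim

theorem UD1.iso {P : ∀ M : Md L, M → Prop} (h : UD1 P) {M M' : Md L} (g : M ≃[L] M') (x : M) :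
    P M' (g x) ↔ P M x := UD.iso h g ![x]

theorem UD2.iso {P : ∀ M : Md L, M → M → Prop} (h : UD2 P) {M M' : Md L} (g : M ≃[L] M')
    (x y : M) : P M' (g x) (g y) ↔ P M x y := UD.iso h g ![x, y]

theorem UD3.iso {P : ∀ M : Md L, M → M → M → Prop} (h : UD3 P) {M M' : Md L} (g : M ≃[L] M')
    (x y z : M) : P M' (g x) (g y) (g z) ↔ P M x y z := UD.iso h g ![x, y, z]

/-- ultraproducts -/
noncomputable def ultra (U : Ultrafilter ℕ) (M : ℕ → Md L) : Md L :=
  Theory.ModelType.of ∅ ((U : Filter ℕ).Product (fun k => (M k : Type)))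

def umk (U : Ultrafilter ℕ) (M : ℕ → Md L) (x : ∀ k, M k) : ultra U M :=
  ((x : ∀ k, (M k : Type)) : (U : Filter ℕ).Product (fun k => (M k : Type)))

theorem umk_surj (U : Ultrafilter ℕ) (M : ℕ → Md L) (z : ultra U M) : ∃ x, umk U M x = z :=
  Quotient.exists_rep z

theorem umk_eq (U : Ultrafilter ℕ) (M : ℕ → Md L) (x y : ∀ k, M k) :
    umk U M x = umk U M y ↔ ∀ᶠ k in U, x k = y k := Quotient.eq''

theorem UD.los {P : ∀ M : Md L, (α → M) → Prop} (h : UD P) (U : Ultrafilter ℕ) (M : ℕ → Md L)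
    (x : α → ∀ k, M k) : P (ultra U M) (fun i => umk U M (x i)) ↔ ∀ᶠ k in U, P (M k) (fun i => x i k) := by
  obtain ⟨φ, hφ⟩ := h
  simp only [← hφ]
  exact Ultraproduct.realize_formula_cast φ x

theorem UD0.los {P : Md L → Prop} (h : UD0 P) (U : Ultrafilter ℕ) (M : ℕ → Md L) :
    P (ultra U M) ↔ ∀ᶠ k in U, P (M k) := UD.los h U M Empty.elim

theorem UD1.los {P : ∀ M : Md L, M → Prop} (h : UD1 P) (U : Ultrafilter ℕ) (M : ℕ → Md L)
    (x : ∀ k, M k) : P (ultra U M) (umk U M x) ↔ ∀ᶠ k in U, P (M k) (x k) := UD.los h U M ![x]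

theorem UD2.los {P : ∀ M : Md L, M → M → Prop} (h : UD2 P) (U : Ultrafilter ℕ) (M : ℕ → Md L)
    (x y : ∀ k, M k) : P (ultra U M) (umk U M x) (umk U M y) ↔ ∀ᶠ k in U, P (M k) (x k) (y k) :=
  UD.los h U M ![x, y]

end Pool.Agent.P.MP_13cc81_lc
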