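import Pool.Agent.P.MP_13cc81_lc.Defs
import Pool.Agent.P.MP_13cc81_lc.UD

/-! Semantics of the Lindenbaum algebra and a definability toolkit. -/

namespace Pool.Agent.P.MP_13cc81_lc

open FirstOrder FirstOrder.Language FirstOrder.Language.Structure Lind

variable {L : FirstOrder.Language.{0, 0}} {α β : Type}

def mem (b : Lind L) (M : Md L) (x : M) : Prop :=
  Quotient.lift (fun φ : L.Formula (Fin 1) => φ.Realize (fun _ => x))
    (fun _ _ h => propext (iff_def.1 h M _)) b

theorem mem_mk (φ : L.Formula (Fin 1)) (M : Md L) (x : M) :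
    mem (Lind.mk φ) M x ↔ φ.Realize (fun _ => x) := Iff.rfl

theorem lind_ext {b c : Lind L} (h : ∀ M x, mem b M x ↔ mem c M x) : b = c := by
  induction b using Quotient.inductionOn
  induction c using Quotient.inductionOn
  refine Quotient.sound (iff_def.2 fun M v => ?_)
  have : v = fun _ => v 0 := funext fun i => by rw [Subsingleton.elim i 0]
  rw [this]
  exact h M (v 0)

theorem ud_mem (b : Lind L) : UD1 (mem b) := by
  induction b using Quotient.inductionOn with
  | _ φ =>
  refine ⟨φ, fun M v => ?_⟩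
  have : v = fun _ => v 0 := funext fun i => by rw [Subsingleton.elim i 0]
  rw [this]
  exact Iff.rfl

theorem UD1.exists_mem {P : ∀ M : Md L, M → Prop} (h : UD1 P) :
    ∃ b : Lind L, ∀ M x, mem b M x ↔ P M x := by
  obtain ⟨φ, hφ⟩ := h
  exact ⟨Lind.mk φ, fun M x => hφ M (fun _ => x)⟩

@[simp] theorem mem_cup (b c : Lind L) (M : Md L) (x : M) :
    mem (cup b c) M x ↔ mem b M x ∨ mem c M x := by
  induction b using Quotient.inductionOn
  induction c using Quotient.inductionOn
  exact Formula.realize_sup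

@[simp] theorem mem_cap (b c : Lind L) (M : Md L) (x : M) :
    mem (cap b c) M x ↔ mem b M x ∧ mem c M x := by
  induction b using Quotient.inductionOn
  induction c using Quotient.inductionOn
  exact Formula.realize_inf

@[simp] theorem mem_neg (b : Lind L) (M : Md L) (x : M) : mem (neg b) M x ↔ ¬ mem b M x := by
  induction b using Quotient.inductionOn
  exact Formula.realize_not

@[simp] theorem mem_zero (M : Md L) (x : M) : ¬ mem zero M x := by
  simp [zero, mem_mk]

def hold (s : Lind L) (M : Md L) : Prop := ∀ x, mem s M x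

theorem ud_hold (s : Lind L) : UD0 (hold s) := UD.all ((ud_mem s).app none)

theorem IsS.mem_iff {s : Lind L} (h : IsS s) (M : Md L) (x : M) : mem s M x ↔ hold s M := by
  obtain ⟨ψ, rfl⟩ := h
  have e : ∀ y : M, mem (Lind.mk (Formula.relabel Empty.elim ψ)) M y ↔ M ⊨ ψ := fun y => by
    rw [mem_mk, Formula.realize_relabel, Sentence.Realize, iff_iff_eq]
    congr 1
    exact Subsingleton.elim _ _
  simp only [hold, e, forall_const]

theorem UD0.exists_S {P : Md L → Prop} (h : UD0 P) :
    ∃ s : Lind L, IsS s ∧ ∀ M, hold s M ↔ P M := by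
  obtain ⟨φ, hφ⟩ := h
  refine ⟨Lind.mk (Formula.relabel Empty.elim φ), ⟨φ, rfl⟩, fun M => ?_⟩
  simp only [hold, mem_mk, Formula.realize_relabel, hφ, forall_const]

def Df (P : (α → Lind L) → Prop) : Prop := (Set.univ : Set (Lind L)).Definable baLang {v | P v}

def Tm (f : (α → Lind L) → Lind L) : Prop := (Set.univ : Set (Lind L)).DefinableFun baLang f

namespace Tm

theorem var (i : α) : Tm (L := L) (fun v => v i) := Set.DefinableFun.proj baLang

theorem const (b : Lind L) : Tm (α := α) (fun _ => b) :=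
  baLang.definableFun_const α (Set.mem_univ b)

theorem cap {f g : (α → Lind L) → Lind L} (hf : Tm f) (hg : Tm g) :
    Tm (fun v => cap (f v) (g v)) :=
  Set.DefinableFun.comp (g := fun v => ![f v, g v]) (fun i => by fin_cases i <;> assumption)
    (Set.DefinableFun.fun_symbol (L := baLang) BAFun.cap).of_empty

theorem neg {f : (α → Lind L) → Lind L} (hf : Tm f) : Tm (fun v => neg (f v)) :=
  Set.DefinableFun.comp (g := fun v => ![f v]) (fun i => by fin_cases i; assumption)
    (Set.DefinableFun.fun_symbol (L := baLang) BAFun.neg).of_empty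

end Tm

namespace Df

theorem congr {P Q : (α → Lind L) → Prop} (h : Df P) (e : ∀ v, P v ↔ Q v) : Df Q := by
  have : P = Q := funext fun v => propext (e v)
  exact this ▸ h

theorem and {P Q : (α → Lind L) → Prop} (h : Df P) (h' : Df Q) : Df (fun v => P v ∧ Q v) :=
  Set.Definable.inter h h'

theorem or {P Q : (α → Lind L) → Prop} (h : Df P) (h' : Df Q) : Df (fun v => P v ∨ Q v) :=
  Set.Definable.union h h'

theorem not {P : (α → Lind L) → Prop} (h : Df P) : Df (fun v => ¬ P v) :=
  Set.Definable.compl h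

theorem imp {P Q : (α → Lind L) → Prop} (h : Df P) (h' : Df Q) : Df (fun v => P v → Q v) :=
  (h.not.or h').congr fun _ => imp_iff_not_or.symm

theorem iff {P Q : (α → Lind L) → Prop} (h : Df P) (h' : Df Q) : Df (fun v => P v ↔ Q v) :=
  ((h.imp h').and (h'.imp h)).congr fun _ => iff_iff_implies_and_implies.symm

theorem all {P : (α → Lind L) → Lind L → Prop}
    (h : Df (fun v : Option α → Lind L => P (fun i => v (some i)) (v none))) :
    Df (fun v => ∀ x, P v x) := by
  have := Set.Definable.forall_of_finite (β := Unit)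
    (Set.Definable.preimage_comp (fun o : Option α => Option.elim o (Sum.inr ()) Sum.inl) h)
  exact Df.congr this fun v => ⟨fun h x => h (fun _ => x), fun h w => h _⟩

theorem ex {P : (α → Lind L) → Lind L → Prop}
    (h : Df (fun v : Option α → Lind L => P (fun i => v (some i)) (v none))) :
    Df (fun v => ∃ x, P v x) :=
  (all (P := fun v x => ¬ P v x) h.not).not.congr fun _ => by simp

theorem eq {f g : (α → Lind L) → Lind L} (hf : Tm f) (hg : Tm g) : Df (fun v => f v = g v) :=
  Set.DefinableFun.ofPred_eq hf hg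

end Df

def Df1 (P : Lind L → Prop) : Prop := Df (α := Fin 1) (fun v => P (v 0))
def Df2 (P : Lind L → Lind L → Prop) : Prop := Df (α := Fin 2) (fun v => P (v 0) (v 1))
def Df3 (P : Lind L → Lind L → Lind L → Prop) : Prop :=
  Df (α := Fin 3) (fun v => P (v 0) (v 1) (v 2))

theorem Df1.app {P : Lind L → Prop} (h : Df1 P) {f : (α → Lind L) → Lind L} (hf : Tm f) :
    Df (fun v => P (f v)) :=
  Set.Definable.preimage_map (F := fun v => ![f v]) (fun i => by fin_cases i; assumption) h

theorem Df2.app {P : Lind L → Lind L → Prop} (h : Df2 P) {f g : (α → Lind L) → Lind L}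
    (hf : Tm f) (hg : Tm g) : Df (fun v => P (f v) (g v)) :=
  Set.Definable.preimage_map (F := fun v => ![f v, g v])
    (fun i => by fin_cases i <;> assumption) h

theorem Df3.app {P : Lind L → Lind L → Lind L → Prop} (h : Df3 P)
    {f g k : (α → Lind L) → Lind L} (hf : Tm f) (hg : Tm g) (hk : Tm k) :
    Df (fun v => P (f v) (g v) (k v)) :=
  Set.Definable.preimage_map (F := fun v => ![f v, g v, k v])
    (fun i => by fin_cases i <;> assumption) h

theorem dfS : Df1 (L := L) IsS := by
  refine Set.Definable.mono (A := ∅) ?_ (Set.empty_subset _)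
  rw [Set.empty_definable_iff]
  refine ⟨Relations.formula (L := baLang) BARel.S (fun _ => Term.var 0), ?_⟩
  ext v
  simp only [Set.mem_setOf_eq]
  exact (Formula.realize_rel (L := baLang) (M := Lind L) (v := v) (R := BARel.S)
    (ts := fun _ => Term.var 0)).symm

def Sub (b c : Lind L) : Prop := ∀ M x, mem b M x → mem c M x

def Emp (b : Lind L) : Prop := ∀ M x, ¬ mem b M x

theorem dfSub : Df2 (L := L) Sub :=
  (Df.eq ((Tm.var 0).cap (Tm.var 1)) (Tm.var 0)).congr fun v =>
    ⟨fun h M x hx => by rw [← h, mem_cap] at hx; exact hx.2,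
      fun h => lind_ext fun M x => by have := h M x; simp; tauto⟩

theorem dfEmp : Df1 (L := L) Emp :=
  (Df.eq (Tm.var 0) (Tm.const zero)).congr fun v =>
    ⟨fun h M x => by rw [h]; exact mem_zero M x,
      fun h => lind_ext fun M x => iff_of_false (h M x) (mem_zero M x)⟩

/-- `b` meets every model of `s` -/
def Meets (s b : Lind L) : Prop := ∀ s', IsS s' → Sub s' s → Emp (cap s' b) → Emp s'

theorem dfMeets : Df2 (L := L) Meets := by
  unfold Df2 Meets
  repeat' first | apply Tm.var | apply Tm.cap | apply dfS.app | apply dfSub.app | apply dfEmp.app | apply Df.imp | apply Df.all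

theorem meets_iff {s b : Lind L} : Meets s b ↔ ∀ M, hold s M → ∃ x, mem b M x := by
  constructor
  · intro h M hM
    by_contra hc
    obtain ⟨s', h1, h2⟩ := UD0.exists_S (P := fun M => hold s M ∧ ¬ ∃ x, mem b M x)
      (UD.and (ud_hold s) (UD.not (UD.ex ((ud_mem b).app none))))
    refine h s' h1 (fun M x hx => ((h2 M).1 ((IsS.mem_iff h1 M x).1 hx)).1 x) (fun M x hx => ?_) M
      (Classical.arbitrary M) ((h2 M).2 ⟨hM, hc⟩ _)
    rw [mem_cap] at hx
    exact ((h2 M).1 ((IsS.mem_iff h1 M x).1 hx.1)).2 ⟨x, hx.2⟩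
  · intro h s' h1 h2 h3 M x hx
    have hs := (IsS.mem_iff h1 M x).1 hx
    obtain ⟨y, hy⟩ := h M (fun y => h2 M y (hs y))
    exact h3 M y ((mem_cap _ _ _ _).2 ⟨hs y, hy⟩)

/-- `b` has at least two types in every model of `s`, uniformly -/
def Split (b s : Lind L) : Prop := ∃ ψ, Meets s (cap b ψ) ∧ Meets s (cap b (neg ψ))

theorem dfSplit : Df2 (L := L) Split := by
  unfold Df2 Split
  repeat' first | apply Tm.var | apply Tm.cap | apply Tm.neg | apply dfMeets.app | apply Df.and | apply Df.ex

theorem split_iff {b s : Lind L} : Split b s ↔ ∃ ψ : ∀ M : Md L, M → Prop, UD1 ψ ∧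
    ∀ M, hold s M → ∃ x y, mem b M x ∧ mem b M y ∧ ψ M x ∧ ¬ ψ M y := by
  simp only [Split, meets_iff, mem_cap, mem_neg]
  constructor
  · rintro ⟨ψ, h1, h2⟩
    refine ⟨mem ψ, ud_mem ψ, fun M hM => ?_⟩
    obtain ⟨x, hx⟩ := h1 M hM
    obtain ⟨y, hy⟩ := h2 M hM
    exact ⟨x, y, hx.1, hy.1, hx.2, hy.2⟩
  · rintro ⟨ψ, h1, h2⟩
    obtain ⟨c, hc⟩ := h1.exists_mem
    refine ⟨c, fun M hM => ?_, fun M hM => ?_⟩
    · obtain ⟨x, y, a1, a2, a3, a4⟩ := h2 M hM
      exact ⟨x, a1, (hc _ _).2 a3⟩
    · obtain ⟨x, y, a1, a2, a3, a4⟩ := h2 M hM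
      exact ⟨y, a2, mt (hc _ _).1 a4⟩

end Pool.Agent.P.MP_13cc81_lc
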