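import Pool.Agent.P.MP_13cc81_lc.Std

/-! Structure theorem for models of the ladder axioms. -/

namespace Pool.Agent.P.MP_13cc81_lc

open Nd Relation

theorem conn_lemma {X : Type} (s : X → X → Prop) (h1 : ∀ a b c, s a b → s a c → b = c)
    (h2 : ∀ a b c, s a c → s b c → a = b) {a b : X} (h : EqvGen s a b) :
    ReflTransGen s a b ∨ ReflTransGen s b a := by
  have r1 : ∀ {a b c}, ReflTransGen s a b → ReflTransGen s a c →
      ReflTransGen s b c ∨ ReflTransGen s c b := fun hab hac =>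
    ReflTransGen.total_of_right_unique (fun _ _ _ h h' => h1 _ _ _ h h') hab hac
  have r2 : ∀ {a b c}, ReflTransGen s b a → ReflTransGen s c a →
      ReflTransGen s b c ∨ ReflTransGen s c b := fun hab hac => by
    have := ReflTransGen.total_of_right_unique (r := Function.swap s)
      (fun _ _ _ h h' => h2 _ _ _ h h') (reflTransGen_swap.2 hab) (reflTransGen_swap.2 hac)
    rcases this with h | h
    · exact Or.inr (reflTransGen_swap.1 h)
    · exact Or.inl (reflTransGen_swap.1 h)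
  induction h with
  | rel x y h => exact Or.inl (ReflTransGen.single h)
  | refl x => exact Or.inl ReflTransGen.refl
  | symm x y _ ih => exact ih.symm
  | trans x y z _ _ ih1 ih2 =>
    rcases ih1 with a | a <;> rcases ih2 with b | b
    · exact Or.inl (a.trans b)
    · exact r2 a b
    · exact r1 a b
    · exact Or.inr (b.trans a)

theorem inj3 {X : Type} : ∀ a b c : X, a ≠ b → a ≠ c → b ≠ c → Function.Injective ![a, b, c] := by
  intro a b c hab hac hbc u v huv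
  fin_cases u <;> fin_cases v <;> simp_all [eq_comm]

theorem range3 {X : Type} : ∀ a b c x : X, x ∈ Set.range ![a, b, c] ↔ x = a ∨ x = b ∨ x = c := by
  intro a b c x
  simp only [Set.mem_range, Fin.exists_fin_succ]
  simp [eq_comm]

theorem th_struct {X : Type} (R : X → X → Prop) (hT : Th R) :
    ∃ (P : Type) (_ : LinearOrder P) (_ : BoundedOrder P) (_ : Nontrivial P) (μ : P → Fin 3)
      (e : Nd P ≃ X), ∀ a b, R (e a) (e b) ↔ StdR μ a b := by
  classical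
  obtain ⟨⟨o, ho, hou⟩, t2, t3, t4, ⟨b, t, hb, ht, hbt⟩, t6, t7, t8, t9, t10, t11, t12⟩ := hT
  let P := {x // gPos R x}
  let _i1 : LinearOrder P :=
    { le := fun p q => R p.1 q.1
      le_refl := fun p => p.2
      le_trans := fun p q r => t3 _ _ _ p.2 q.2 r.2
      le_antisymm := fun p q h h' => Subtype.ext (t2 _ _ p.2 q.2 h h')
      le_total := fun p q => t4 _ _ p.2 q.2
      toDecidableLE := Classical.decRel _ }
  have hle : ∀ p q : P, p ≤ q ↔ R p.1 q.1 := fun _ _ => Iff.rfl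
  let _i2 : BoundedOrder P :=
    { bot := ⟨b, hb.1⟩
      bot_le := fun p => hb.2 _ p.2
      top := ⟨t, ht.1⟩
      le_top := fun p => ht.2 _ p.2 }
  have hbot : ∀ p : P, gBot R p.1 ↔ p = ⊥ := fun p =>
    ⟨fun h => le_bot_iff.1 (h.2 _ hb.1), by rintro rfl; exact hb⟩
  have htop : ∀ p : P, gTop R p.1 ↔ p = ⊤ := fun p =>
    ⟨fun h => top_le_iff.1 (h.2 _ ht.1), by rintro rfl; exact ht⟩
  have : Nontrivial P := ⟨⟨⊥, ⊤, fun h => hbt (congrArg Subtype.val h)⟩⟩
  have hcov : ∀ p q : P, gCov R p.1 q.1 ↔ p ⋖ q := by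
    intro p q
    constructor
    · rintro ⟨-, -, h1, h2, h3⟩
      refine ⟨lt_of_le_of_ne h1 (fun h => h2 (by rw [h])), fun c hc1 hc2 => ?_⟩
      rcases h3 c.1 c.2 hc1.le hc2.le with h | h
      · exact hc1.ne' (Subtype.ext h)
      · exact hc2.ne (Subtype.ext h)
    · intro h
      refine ⟨p.2, q.2, h.le, fun h' => h.ne (Subtype.ext h'), fun z hz h1 h2 => ?_⟩
      rcases h.eq_or_eq (c := ⟨z, hz⟩) h1 h2 with h | h
      · exact Or.inl (congrArg Subtype.val h)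
      · exact Or.inr (congrArg Subtype.val h)
  -- uniqueness of row and column
  have huniq : ∀ x (i j i' j' : X), gIn R x i j → gIn R x i' j' → i = i' ∧ j = j' := by
    intro x i j i' j' h h'
    obtain ⟨i0, j0, -, h1, h2⟩ := t7 x h.1
    exact ⟨(h1 _ h.2.1 h.2.2.2.1).trans (h1 _ h'.2.1 h'.2.2.2.1).symm,
      (h2 _ h.2.2.1 h.2.2.2.2).trans (h2 _ h'.2.2.1 h'.2.2.2.2).symm⟩
  -- enumerations of the fibres
  have henum : ∀ i j : P, ∃ L : Fin 3 → X, Function.Injective L ∧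
      (∀ x, gIn R x i.1 j.1 ↔ x ∈ Set.range L) ∧ (j = ⊥ → gMark R (L 0)) := by
    intro i j
    obtain ⟨x0, x1, x2, h01, h02, h12, hx⟩ := t8 i.1 j.1 i.2 j.2
    have hinj := @inj3 X
    have hr := @range3 X
    by_cases hj : j = ⊥
    · obtain ⟨y, ⟨hy, hm⟩, -⟩ := t12 i.1 j.1 i.2 (Or.inl ((hbot j).2 hj))
      rcases (hx y).1 hy with rfl | rfl | rfl
      · exact ⟨![y, x1, x2], hinj _ _ _ h01 h02 h12, fun x => by rw [hr, hx], fun _ => hm⟩
      · exact ⟨![y, x0, x2], hinj _ _ _ (Ne.symm h01) h12 h02,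
          fun x => by rw [hr, hx]; exact or_left_comm, fun _ => hm⟩
      · exact ⟨![y, x0, x1], hinj _ _ _ (Ne.symm h02) (Ne.symm h12) h01,
          fun x => by rw [hr, hx]; exact or_rotate.symm, fun _ => hm⟩
    · exact ⟨![x0, x1, x2], hinj _ _ _ h01 h02 h12, fun x => by rw [hr, hx], fun h => absurd h hj⟩
  choose L hLi hLr hLm using henum
  -- steps
  have hstep : ∀ x y (i j : P), gIn R x i.1 j.1 → gNx R x y →
      ∃ j' : P, j ⋖ j' ∧ gIn R y i.1 j'.1 := by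
    rintro x y i j hx ⟨hxy, i0, j0, j1, h0, h1⟩
    obtain ⟨rfl, rfl⟩ := huniq _ _ _ _ _ hx h0
    exact ⟨⟨j1, h1.2.2.1⟩, (hcov _ ⟨j1, h1.2.2.1⟩).1 ((t9 _ _ _ _ _ _ hx h1).2 rfl hxy), h1⟩
  have hstep' : ∀ x y (i j' : P), gIn R y i.1 j'.1 → gNx R x y →
      ∃ j : P, j ⋖ j' ∧ gIn R x i.1 j.1 := by
    rintro x y i j' hy ⟨hxy, i0, j0, j1, h0, h1⟩
    obtain ⟨rfl, rfl⟩ := huniq _ _ _ _ _ hy h1
    exact ⟨⟨j0, h0.2.2.1⟩, (hcov ⟨j0, h0.2.2.1⟩ _).1 ((t9 _ _ _ _ _ _ h0 hy).2 rfl hxy), h0⟩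
  have hfun : ∀ a b c, gNx R a b → gNx R a c → b = c := by
    intro x y z hy hz
    obtain ⟨i0, j0, j1, h0, -⟩ := hy.2
    obtain ⟨j', hj', hy'⟩ := hstep x y ⟨i0, h0.2.1⟩ ⟨j0, h0.2.2.1⟩ h0 hy
    obtain ⟨j'', hj'', hz'⟩ := hstep x z ⟨i0, h0.2.1⟩ ⟨j0, h0.2.2.1⟩ h0 hz
    obtain rfl := hj'.unique_right hj''
    obtain ⟨w, -, hw⟩ := (t10 i0 j0 j'.1 h0.2.1 ((hcov _ _).2 hj')).1 x h0
    exact (hw y ⟨hy', hy.1⟩).trans (hw z ⟨hz', hz.1⟩).symm
  have hinj : ∀ a b c, gNx R a c → gNx R b c → a = b := by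
    intro x y z hx hy
    obtain ⟨i0, j0, j1, -, h1⟩ := hx.2
    obtain ⟨j', hj', hx'⟩ := hstep' x z ⟨i0, h1.2.1⟩ ⟨j1, h1.2.2.1⟩ h1 hx
    obtain ⟨j'', hj'', hy'⟩ := hstep' y z ⟨i0, h1.2.1⟩ ⟨j1, h1.2.2.1⟩ h1 hy
    obtain rfl := hj'.unique_left hj''
    obtain ⟨w, -, hw⟩ := (t10 i0 j'.1 j1 h1.2.1 ((hcov _ _).2 hj')).2 z h1
    exact (hw x ⟨hx', hx.1⟩).trans (hw y ⟨hy', hy.1⟩).symm
  have hmono : ∀ x y (i j : P), gIn R x i.1 j.1 → ReflTransGen (gNx R) x y →
      x = y ∨ ∃ j' : P, j < j' ∧ gIn R y i.1 j'.1 := by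
    intro x y i j hx h
    induction h with
    | refl => exact Or.inl rfl
    | tail _ hs ih =>
      rcases ih with rfl | ⟨j', hj', hy⟩
      · obtain ⟨j'', h1, h2⟩ := hstep _ _ _ _ hx hs
        exact Or.inr ⟨j'', h1.lt, h2⟩
      · obtain ⟨j'', h1, h2⟩ := hstep _ _ _ _ hy hs
        exact Or.inr ⟨j'', hj'.trans h1.lt, h2⟩
  have hconn : ∀ x y (i j : P), gIn R x i.1 j.1 → gIn R y i.1 j.1 → EqvGen (gNx R) x y → x = y := by
    intro x y i j hx hy h
    rcases conn_lemma _ hfun hinj h with h | h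
    · rcases hmono _ _ _ _ hx h with h | ⟨j', h1, h2⟩
      · exact h
      · exact absurd (Subtype.ext (huniq _ _ _ _ _ hy h2).2) h1.ne
    · rcases hmono _ _ _ _ hy h with h | ⟨j', h1, h2⟩
      · exact h.symm
      · exact absurd (Subtype.ext (huniq _ _ _ _ _ hx h2).2) h1.ne
  have htrans : ∀ (i j j' : P), EqvGen (fun a b : P => a ⋖ b) j j' →
      (∀ x, gIn R x i.1 j.1 → ∃ y, gIn R y i.1 j'.1 ∧ EqvGen (gNx R) x y) ∧
      (∀ y, gIn R y i.1 j'.1 → ∃ x, gIn R x i.1 j.1 ∧ EqvGen (gNx R) x y) := by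
    intro i j j' h
    induction h with
    | rel j j' h =>
      obtain ⟨h1, h2⟩ := t10 i.1 j.1 j'.1 i.2 ((hcov _ _).2 h)
      constructor
      · intro x hx
        obtain ⟨y, ⟨hy, hxy⟩, -⟩ := h1 x hx
        exact ⟨y, hy, EqvGen.rel _ _ ⟨hxy, _, _, _, hx, hy⟩⟩
      · intro y hy
        obtain ⟨x, ⟨hx, hxy⟩, -⟩ := h2 y hy
        exact ⟨x, hx, EqvGen.rel _ _ ⟨hxy, _, _, _, hx, hy⟩⟩
    | refl j => exact ⟨fun x hx => ⟨x, hx, EqvGen.refl _⟩, fun x hx => ⟨x, hx, EqvGen.refl _⟩⟩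
    | symm j j' _ ih =>
      constructor
      · intro x hx
        obtain ⟨y, hy, h⟩ := ih.2 x hx
        exact ⟨y, hy, h.symm⟩
      · intro x hx
        obtain ⟨y, hy, h⟩ := ih.1 x hx
        exact ⟨y, hy, h.symm⟩
    | trans j j' j'' _ _ ih1 ih2 =>
      constructor
      · intro x hx
        obtain ⟨y, hy, h⟩ := ih1.1 x hx
        obtain ⟨z, hz, h'⟩ := ih2.1 y hy
        exact ⟨z, hz, h.trans _ _ _ h'⟩
      · intro z hz
        obtain ⟨y, hy, h⟩ := ih2.2 z hz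
        obtain ⟨x, hx, h'⟩ := ih1.2 y hy
        exact ⟨x, hx, h'.trans _ _ _ h⟩
  -- base points
  obtain ⟨base, hb1, hb2, hb3⟩ : ∃ base : P → P, (∀ j, EqvGen (fun a b : P => a ⋖ b) (base j) j) ∧
      (∀ j j', j ⋖ j' → base j = base j') ∧ base ⊥ = ⊥ := by
    let s : Setoid P := EqvGen.setoid (fun a b : P => a ⋖ b)
    refine ⟨fun j => if s ⊥ j then ⊥ else (Quotient.mk s j).out, fun j => ?_, fun j j' h => ?_, ?_⟩
    · by_cases h : s ⊥ j
      · simp only [if_pos h]; exact h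
      · simp only [if_neg h]; exact Quotient.mk_out (s := s) j
    · have h' : s j j' := EqvGen.rel _ _ h
      have h1 : s ⊥ j ↔ s ⊥ j' := ⟨fun a => s.trans' a h', fun a => s.trans' a (s.symm' h')⟩
      simp only [h1, Quotient.sound h']
    · exact if_pos (s.refl' ⊥)
  have hE : ∀ (i j : P) (k : Fin 3), ∃ y, gIn R y i.1 j.1 ∧ EqvGen (gNx R) (L i (base j) k) y :=
    fun i j k => (htrans i _ _ (hb1 j)).1 _ ((hLr _ _ _).2 ⟨k, rfl⟩)
  choose F hF1 hF2 using hE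
  have hFinj : ∀ i j k k', F i j k = F i j k' → k = k' := by
    intro i j k k' h
    apply hLi i (base j)
    refine hconn _ _ i (base j) ((hLr _ _ _).2 ⟨k, rfl⟩) ((hLr _ _ _).2 ⟨k', rfl⟩) ?_
    exact (hF2 i j k).trans _ _ _ (h ▸ (hF2 i j k').symm)
  have hFsurj : ∀ (i j : P) x, gIn R x i.1 j.1 → ∃ k, F i j k = x := by
    intro i j x hx
    obtain ⟨y, hy, h⟩ := (htrans i _ _ (hb1 j)).2 x hx
    obtain ⟨k, rfl⟩ := (hLr _ _ _).1 hy
    exact ⟨k, hconn _ _ i j (hF1 i j k) hx ((hF2 i j k).symm.trans _ _ _ h)⟩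
  have hF0 : ∀ i, gMark R (F i ⊥ 0) := by
    intro i
    have h := hF2 i ⊥ 0
    rw [hb3] at h
    rw [← hconn _ _ i ⊥ ((hLr _ _ _).2 ⟨0, rfl⟩) (hF1 i ⊥ 0) h]
    exact hLm i ⊥ rfl
  have hμ : ∀ i : P, ∃ k, gMark R (F i ⊤ k) := by
    intro i
    obtain ⟨y, ⟨hy, hm⟩, -⟩ := t12 i.1 (⊤ : P).1 i.2 (Or.inr ((htop _).2 rfl))
    obtain ⟨k, rfl⟩ := hFsurj i ⊤ y hy
    exact ⟨k, hm⟩
  choose μ hμ using hμ
  have hmk : ∀ i j k k', (j = ⊥ ∨ j = ⊤) → gMark R (F i j k) → gMark R (F i j k') → k = k' := by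
    intro i j k k' hj h h'
    obtain ⟨y, -, hy⟩ := t12 i.1 j.1 i.2 (hj.imp (hbot _).2 (htop _).2)
    exact hFinj i j _ _ ((hy _ ⟨hF1 i j k, h⟩).trans (hy _ ⟨hF1 i j k', h'⟩).symm)
  let f : Nd P → X := fun a => match a with
    | root => o
    | pos p => p.1
    | lad i j k => F i j k
  have hf : Function.Bijective f := by
    constructor
    · intro a b hab
      cases a <;> cases b <;> simp only [f] at hab
      · rfl
      · rename_i p; exact absurd p.2 (by rw [← hab]; exact ho _)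
      · rename_i i j k; exact absurd (hF1 i j k).2.2.2.1 (by rw [← hab]; exact ho _)
      · rename_i p; exact absurd p.2 (by rw [hab]; exact ho _)
      · rw [Subtype.ext hab]
      · rename_i p i j k; exact absurd p.2 (by rw [hab]; exact (hF1 i j k).1.1)
      · rename_i i j k; exact absurd (hF1 i j k).2.2.2.1 (by rw [hab]; exact ho _)
      · rename_i i j k p; exact absurd p.2 (by rw [← hab]; exact (hF1 i j k).1.1)
      · rename_i i j k i' j' k'
        obtain ⟨h1, h2⟩ := huniq _ _ _ _ _ (hF1 i j k) (hab ▸ hF1 i' j' k')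
        obtain rfl : i = i' := Subtype.ext h1
        obtain rfl : j = j' := Subtype.ext h2
        rw [hFinj _ _ _ _ hab]
    · intro x
      by_cases h1 : gPos R x
      · exact ⟨pos ⟨x, h1⟩, rfl⟩
      by_cases h2 : gRoot R x
      · exact ⟨root, (hou x h2).symm⟩
      have h3 : gLad R x := ⟨h1, by simpa [gRoot] using h2⟩
      obtain ⟨i, j, hx, -⟩ := t7 x h3
      obtain ⟨k, hk⟩ := hFsurj ⟨i, hx.2.1⟩ ⟨j, hx.2.2.1⟩ x hx
      exact ⟨lad _ _ k, hk⟩
  refine ⟨P, inferInstance, inferInstance, inferInstance, μ, Equiv.ofBijective f hf, ?_⟩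
  intro a b
  simp only [Equiv.ofBijective_apply]
  cases a with
  | root => cases b <;> simp only [f, StdR, iff_false] <;> exact ho _
  | pos p =>
    cases b with
    | root => simp only [f, StdR, iff_false]; exact t6 _ _ p.2 ho
    | pos q => exact Iff.rfl
    | lad i j k =>
      simp only [f, StdR]
      obtain ⟨i0, j0, -, -, h2⟩ := t7 _ (hF1 i j k).1
      constructor
      · intro h
        exact Subtype.ext ((h2 _ p.2 h).trans (h2 _ j.2 (hF1 i j k).2.2.2.2).symm)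
      · rintro rfl; exact (hF1 i p k).2.2.2.2
  | lad i j k =>
    cases b with
    | root =>
      simp only [f, StdR]
      have hm : R (F i j k) o ↔ gMark R (F i j k) :=
        ⟨fun h => ⟨o, ho, h⟩, fun ⟨o', h1, h2⟩ => hou o' h1 ▸ h2⟩
      rw [hm]
      constructor
      · intro h
        rcases t11 _ _ _ (hF1 i j k) h with h' | h'
        · obtain rfl := (hbot _).1 h'
          exact Or.inl ⟨rfl, hmk _ _ _ _ (Or.inl rfl) h (hF0 i)⟩
        · obtain rfl := (htop _).1 h'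
          exact Or.inr ⟨rfl, hmk _ _ _ _ (Or.inr rfl) h (hμ i)⟩
      · rintro (⟨rfl, rfl⟩ | ⟨rfl, rfl⟩)
        · exact hF0 i
        · exact hμ i
    | pos p =>
      simp only [f, StdR]
      obtain ⟨i0, j0, -, h1, -⟩ := t7 _ (hF1 i j k).1
      constructor
      · intro h
        exact Subtype.ext ((h1 _ p.2 h).trans (h1 _ i.2 (hF1 i j k).2.2.2.1).symm)
      · rintro rfl; exact (hF1 p j k).2.2.2.1
    | lad i' j' k' =>
      simp only [f, StdR]
      obtain ⟨h1, h2⟩ := t9 _ _ _ _ _ _ (hF1 i j k) (hF1 i' j' k')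
      by_cases hi : i = i'
      · subst hi
        simp only [ne_eq, not_true_eq_false, and_false, true_and, false_or]
        constructor
        · intro h
          have hc := (hcov _ _).1 (h2 rfl h)
          refine ⟨hc, hLi i (base j) ?_⟩
          refine hconn _ _ i (base j) ((hLr _ _ _).2 ⟨k, rfl⟩) ((hLr _ _ _).2 ⟨k', rfl⟩) ?_
          have e1 := hF2 i j' k'
          rw [← hb2 _ _ hc] at e1
          exact ((hF2 i j k).trans _ _ _
            (EqvGen.rel _ _ ⟨h, _, _, _, hF1 i j k, hF1 i j' k'⟩)).trans _ _ _ e1.symm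
        · rintro ⟨hc, rfl⟩
          obtain ⟨y, ⟨hy, hxy⟩, -⟩ := (t10 i.1 j.1 j'.1 i.2 ((hcov _ _).2 hc)).1 _ (hF1 i j k)
          have e1 := hF2 i j' k
          rw [← hb2 _ _ hc] at e1
          have : F i j' k = y := hconn _ _ i j' (hF1 i j' k) hy
            ((e1.symm.trans _ _ _ (hF2 i j k)).trans _ _ _
              (EqvGen.rel _ _ ⟨hxy, _, _, _, hF1 i j k, hy⟩))
          rw [this]; exact hxy
      · rw [h1 (fun h => hi (Subtype.ext h)), hbot, hbot]
        simp [hi]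

end Pool.Agent.P.MP_13cc81_lc
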