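import Pool.Agent.P.MP_13cc81_lc.Iface
import Pool.Agent.P.MP_13cc81_lc.Str

/-! Graph-definable predicates and their lifts to structures. -/

namespace Pool.Agent.P.MP_13cc81_lc

open FirstOrder FirstOrder.Language FirstOrder.Language.Structure

variable {L : FirstOrder.Language.{0, 0}} (I : Iface L) {α β : Type}

abbrev Iface.Ch (M : Md L) {X : Type} (R : X → X → Prop) (Ψ : X → M) : Prop :=
  Chart (I.V M) (I.E M) R Ψ

theorem Iface.taut (M : Md L) :
    I.Ch M (fun x y : {z // I.V M z} => ∃ e, I.E M e x.1 y.1) Subtype.val :=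
  ⟨Subtype.val_injective, fun z => ⟨fun h => ⟨⟨z, h⟩, rfl⟩, fun ⟨x, hx⟩ => hx ▸ x.2⟩,
    fun _ _ => Iff.rfl⟩

def GD (P : ∀ X : Type, (X → X → Prop) → (α → X) → Prop) : Prop :=
  ∃ Q : ∀ M : Md L, (α → M) → Prop, UD Q ∧ ∀ (M : Md L) (X : Type) (R : X → X → Prop) (Ψ : X → M),
    I.Ch M R Ψ → ∀ v : α → X, Q M (fun i => Ψ (v i)) ↔ P X R v

variable {I}

namespace GD

theorem congr {P Q : ∀ X : Type, (X → X → Prop) → (α → X) → Prop} (h : GD I P)
    (e : ∀ X R v, P X R v ↔ Q X R v) : GD I Q := by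
  obtain ⟨φ, h1, h2⟩ := h
  exact ⟨φ, h1, fun M X R Ψ c v => (h2 M X R Ψ c v).trans (e X R v)⟩

theorem and {P Q : ∀ X : Type, (X → X → Prop) → (α → X) → Prop} (h : GD I P) (h' : GD I Q) :
    GD I (fun X R v => P X R v ∧ Q X R v) := by
  obtain ⟨φ, h1, h2⟩ := h
  obtain ⟨ψ, h1', h2'⟩ := h'
  exact ⟨_, h1.and h1', fun M X R Ψ c v => and_congr (h2 M X R Ψ c v) (h2' M X R Ψ c v)⟩

theorem not {P : ∀ X : Type, (X → X → Prop) → (α → X) → Prop} (h : GD I P) :
    GD I (fun X R v => ¬ P X R v) := by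
  obtain ⟨φ, h1, h2⟩ := h
  exact ⟨_, h1.not, fun M X R Ψ c v => not_congr (h2 M X R Ψ c v)⟩

theorem or {P Q : ∀ X : Type, (X → X → Prop) → (α → X) → Prop} (h : GD I P) (h' : GD I Q) :
    GD I (fun X R v => P X R v ∨ Q X R v) :=
  (h.not.and h'.not).not.congr fun _ _ _ => or_iff_not_and_not.symm

theorem imp {P Q : ∀ X : Type, (X → X → Prop) → (α → X) → Prop} (h : GD I P) (h' : GD I Q) :
    GD I (fun X R v => P X R v → Q X R v) :=
  (h.not.or h').congr fun _ _ _ => imp_iff_not_or.symm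

theorem iff {P Q : ∀ X : Type, (X → X → Prop) → (α → X) → Prop} (h : GD I P) (h' : GD I Q) :
    GD I (fun X R v => P X R v ↔ Q X R v) :=
  ((h.imp h').and (h'.imp h)).congr fun _ _ _ => iff_iff_implies_and_implies.symm

theorem comp {P : ∀ X : Type, (X → X → Prop) → (α → X) → Prop} (h : GD I P) (f : α → β) :
    GD I (fun X R (v : β → X) => P X R (fun i => v (f i))) := by
  obtain ⟨φ, h1, h2⟩ := h
  exact ⟨_, h1.comp f, fun M X R Ψ c v => h2 M X R Ψ c _⟩

theorem all {P : ∀ X : Type, (X → X → Prop) → (α → X) → X → Prop}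
    (h : GD I (fun X R (v : Option α → X) => P X R (fun i => v (some i)) (v none))) :
    GD I (fun X R v => ∀ x, P X R v x) := by
  obtain ⟨φ, h1, h2⟩ := h
  refine ⟨fun M v => ∀ z, I.V M z → φ M (fun o => o.elim z v), UD.all ((I.udV.app none).imp
    (h1.congr fun M v => ?_)), fun M X R Ψ c v => ⟨fun h x => ?_, fun h z hz => ?_⟩⟩
  · rw [iff_iff_eq]; congr 1; funext o; cases o <;> rfl
  · have := h (Ψ x) ((c.2.1 _).2 ⟨x, rfl⟩)
    refine (h2 M X R Ψ c (fun o => o.elim x v)).1 ?_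
    convert this using 2 with o
    cases o <;> rfl
  · obtain ⟨x, rfl⟩ := (c.2.1 _).1 hz
    have := (h2 M X R Ψ c (fun o => o.elim x v)).2 (h x)
    convert this using 2 with o
    cases o <;> rfl

theorem ex {P : ∀ X : Type, (X → X → Prop) → (α → X) → X → Prop}
    (h : GD I (fun X R (v : Option α → X) => P X R (fun i => v (some i)) (v none))) :
    GD I (fun X R v => ∃ x, P X R v x) :=
  (all (P := fun X R v x => ¬ P X R v x) h.not).not.congr fun _ _ _ => by simp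

theorem eq (i j : α) : GD I (fun _ _ v => v i = v j) :=
  ⟨_, UD.eq i j, fun _ _ _ _ c _ => c.1.eq_iff⟩

theorem rel (i j : α) : GD I (fun _ R v => R (v i) (v j)) :=
  ⟨fun M v => ∃ e, I.E M e (v i) (v j), UD.ex (I.udE.app none (some i) (some j)),
    fun _ _ _ _ c _ => c.2.2 _ _⟩

end GD

variable (I)
def GD0 (P : ∀ X : Type, (X → X → Prop) → Prop) : Prop := GD I (α := Empty) (fun X R _ => P X R)
def GD1 (P : ∀ X : Type, (X → X → Prop) → X → Prop) : Prop :=
  GD I (α := Fin 1) (fun X R v => P X R (v 0))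
def GD2 (P : ∀ X : Type, (X → X → Prop) → X → X → Prop) : Prop :=
  GD I (α := Fin 2) (fun X R v => P X R (v 0) (v 1))
def GD3 (P : ∀ X : Type, (X → X → Prop) → X → X → X → Prop) : Prop :=
  GD I (α := Fin 3) (fun X R v => P X R (v 0) (v 1) (v 2))
variable {I}

theorem GD1.app {P : ∀ X : Type, (X → X → Prop) → X → Prop} (h : GD1 I P) (i : α) :
    GD I (fun X R v => P X R (v i)) := GD.comp h ![i]

theorem GD2.app {P : ∀ X : Type, (X → X → Prop) → X → X → Prop} (h : GD2 I P) (i j : α) :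
    GD I (fun X R v => P X R (v i) (v j)) := GD.comp h ![i, j]

theorem GD3.app {P : ∀ X : Type, (X → X → Prop) → X → X → X → Prop} (h : GD3 I P) (i j k : α) :
    GD I (fun X R v => P X R (v i) (v j) (v k)) := GD.comp h ![i, j, k]

variable (I)

theorem gdPos : GD1 I (fun _ => gPos) := GD.rel 0 0

theorem gdRoot : GD1 I (fun _ => gRoot) := by
  unfold GD1 gRoot
  repeat' first | apply GD.rel | apply GD.not | apply GD.all

theorem gdLad : GD1 I (fun _ => gLad) := by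
  unfold GD1 gLad
  repeat' first | apply GD.rel | apply GD.and | apply GD.not | apply GD.ex

theorem gdBot : GD1 I (fun _ => gBot) := by
  unfold GD1 gBot
  repeat' first | apply GD.rel | apply (gdPos I).app | apply GD.and | apply GD.imp | apply GD.all

theorem gdTop : GD1 I (fun _ => gTop) := by
  unfold GD1 gTop
  repeat' first | apply GD.rel | apply (gdPos I).app | apply GD.and | apply GD.imp | apply GD.all

theorem gdCov : GD2 I (fun _ => gCov) := by
  unfold GD2 gCov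
  repeat' first | apply GD.rel | apply GD.eq | apply (gdPos I).app | apply GD.and | apply GD.or | apply GD.not | apply GD.imp | apply GD.all

theorem gdMark : GD1 I (fun _ => gMark) := by
  unfold GD1 gMark
  repeat' first | apply GD.rel | apply (gdRoot I).app | apply GD.and | apply GD.ex

theorem gdIn : GD3 I (fun _ => gIn) := by
  unfold GD3 gIn
  repeat' first | apply GD.rel | apply (gdPos I).app | apply (gdLad I).app | apply GD.and

theorem gdNx : GD2 I (fun _ => gNx) := by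
  unfold GD2 gNx
  repeat' first | apply GD.rel | apply (gdIn I).app | apply GD.and | apply GD.ex

theorem gdUp (m : ℕ) : GD1 I (fun _ R => gUp R m) := by
  induction m with
  | zero => exact gdBot I
  | succ m ih => exact GD.ex (GD.and (ih.app none) ((gdCov I).app none (some 0)))

theorem gdDn (m : ℕ) : GD1 I (fun _ R => gDn R m) := by
  induction m with
  | zero => exact gdTop I
  | succ m ih => exact GD.ex (GD.and (ih.app none) ((gdCov I).app (some 0) none))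

theorem gdRow (a : ℤ) : GD1 I (fun _ R => gRow R a) := by
  cases a with
  | ofNat m => exact gdUp I m
  | negSucc m => exact gdDn I m

theorem gdSt : GD2 I (fun _ => gSt) := by
  unfold GD2 gSt
  repeat' first | apply (gdBot I).app | apply (gdIn I).app | apply (gdMark I).app | apply GD.and | apply GD.not | apply GD.ex

theorem gdRho (m : ℕ) : GD1 I (fun _ R => gRho R m) := by
  induction m with
  | zero =>
    simp only [GD1, gRho]
    repeat' first | apply (gdTop I).app | apply (gdIn I).app | apply (gdMark I).app | apply GD.and | apply GD.ex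
  | succ m ih => exact GD.ex (GD.and ((gdNx I).app (some 0) none) (ih.app none))

theorem gdTh : GD0 I (fun _ => Th) := by
  unfold GD0 Th
  repeat' first | apply GD.rel | apply GD.eq | apply (gdPos I).app | apply (gdRoot I).app | apply (gdBot I).app | apply (gdTop I).app | apply (gdIn I).app | apply (gdMark I).app | apply (gdCov I).app | apply (gdLad I).app | apply GD.and | apply GD.or | apply GD.iff | apply GD.ex | apply GD.not | apply GD.imp | apply GD.all

/-- lifts -/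
def Lf0 (P : ∀ X : Type, (X → X → Prop) → Prop) (M : Md L) : Prop :=
  ∃ (X : Type) (R : X → X → Prop) (Ψ : X → M), I.Ch M R Ψ ∧ P X R

def Lf1 (P : ∀ X : Type, (X → X → Prop) → X → Prop) (M : Md L) (z : M) : Prop :=
  ∃ (X : Type) (R : X → X → Prop) (Ψ : X → M) (x : X), I.Ch M R Ψ ∧ Ψ x = z ∧ P X R x

def Lf2 (P : ∀ X : Type, (X → X → Prop) → X → X → Prop) (M : Md L) (z w : M) : Prop :=
  ∃ (X : Type) (R : X → X → Prop) (Ψ : X → M) (x y : X), I.Ch M R Ψ ∧ Ψ x = z ∧ Ψ y = w ∧ P X R x y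

variable {I}

theorem GD0.ud {P} (h : GD0 I P) : UD0 (Lf0 I P) := by
  obtain ⟨Q, h1, h2⟩ := h
  refine h1.congr fun M v => ⟨fun h => ⟨_, _, _, I.taut M, (h2 M _ _ _ (I.taut M) Empty.elim).1 ?_⟩,
    fun ⟨X, R, Ψ, c, h⟩ => ?_⟩
  · exact (congrArg (Q M) (funext fun i : Empty => i.elim)).mp h
  · exact (congrArg (Q M) (funext fun i : Empty => i.elim)).mp ((h2 M _ _ _ c Empty.elim).2 h)

theorem GD1.spec {P} (h : GD1 I P) : UD1 (Lf1 I P) ∧ ∀ (M : Md L) (X : Type) (R : X → X → Prop)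
    (Ψ : X → M), I.Ch M R Ψ → ∀ z, Lf1 I P M z ↔ ∃ x, Ψ x = z ∧ P X R x := by
  obtain ⟨Q, h1, h2⟩ := h
  have key : ∀ (M : Md L) (X : Type) (R : X → X → Prop) (Ψ : X → M), I.Ch M R Ψ → ∀ z,
      (I.V M z ∧ Q M (fun _ => z)) ↔ ∃ x, Ψ x = z ∧ P X R x := by
    intro M X R Ψ c z
    constructor
    · rintro ⟨hz, hq⟩
      obtain ⟨x, rfl⟩ := (c.2.1 _).1 hz
      exact ⟨x, rfl, (h2 M X R Ψ c (fun _ => x)).1 hq⟩
    · rintro ⟨x, rfl, hp⟩
      exact ⟨(c.2.1 _).2 ⟨x, rfl⟩, (h2 M X R Ψ c (fun _ => x)).2 hp⟩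
  have key2 : ∀ (M : Md L) z, Lf1 I P M z ↔ (I.V M z ∧ Q M (fun _ => z)) := by
    intro M z
    constructor
    · rintro ⟨X, R, Ψ, x, c, hx, hp⟩
      exact (key M X R Ψ c z).2 ⟨x, hx, hp⟩
    · intro h
      obtain ⟨x, hx, hp⟩ := (key M _ _ _ (I.taut M) z).1 h
      exact ⟨_, _, _, x, I.taut M, hx, hp⟩
  exact ⟨((I.udV.app 0).and (h1.comp (fun _ => 0))).congr fun M v => (key2 M _).symm,
    fun M X R Ψ c z => (key2 M z).trans (key M X R Ψ c z)⟩

theorem GD2.spec {P} (h : GD2 I P) : UD2 (Lf2 I P) ∧ ∀ (M : Md L) (X : Type) (R : X → X → Prop)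
    (Ψ : X → M), I.Ch M R Ψ → ∀ z w, Lf2 I P M z w ↔ ∃ x y, Ψ x = z ∧ Ψ y = w ∧ P X R x y := by
  obtain ⟨Q, h1, h2⟩ := h
  have e : ∀ {X Y : Type} (Ψ : X → Y) (x y : X), (fun i => Ψ (![x, y] i)) = ![Ψ x, Ψ y] := by
    intro X Y Ψ x y; funext i; fin_cases i <;> rfl
  have key : ∀ (M : Md L) (X : Type) (R : X → X → Prop) (Ψ : X → M), I.Ch M R Ψ → ∀ z w,
      (I.V M z ∧ I.V M w ∧ Q M ![z, w]) ↔ ∃ x y, Ψ x = z ∧ Ψ y = w ∧ P X R x y := by
    intro M X R Ψ c z w
    constructor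
    · rintro ⟨hz, hw, hq⟩
      obtain ⟨x, rfl⟩ := (c.2.1 _).1 hz
      obtain ⟨y, rfl⟩ := (c.2.1 _).1 hw
      exact ⟨x, y, rfl, rfl, (h2 M X R Ψ c ![x, y]).1 (by rw [e]; exact hq)⟩
    · rintro ⟨x, y, rfl, rfl, hp⟩
      exact ⟨(c.2.1 _).2 ⟨x, rfl⟩, (c.2.1 _).2 ⟨y, rfl⟩,
        by rw [← e]; exact (h2 M X R Ψ c ![x, y]).2 hp⟩
  have key2 : ∀ (M : Md L) z w, Lf2 I P M z w ↔ (I.V M z ∧ I.V M w ∧ Q M ![z, w]) := by
    intro M z w
    constructor
    · rintro ⟨X, R, Ψ, x, y, c, hx, hy, hp⟩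
      exact (key M X R Ψ c z w).2 ⟨x, y, hx, hy, hp⟩
    · intro h
      obtain ⟨x, y, hx, hy, hp⟩ := (key M _ _ _ (I.taut M) z w).1 h
      exact ⟨_, _, _, x, y, I.taut M, hx, hy, hp⟩
  refine ⟨((I.udV.app 0).and ((I.udV.app 1).and h1)).congr fun M v => ?_,
    fun M X R Ψ c z w => (key2 M z w).trans (key M X R Ψ c z w)⟩
  rw [key2]
  have : ![v 0, v 1] = v := by funext i; fin_cases i <;> rfl
  rw [this]

variable (I)

/-- models of the ladder theory -/
def IsMod (M : Md L) : Prop := I.eta M ∧ Lf0 I (fun _ => Th) M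

theorem udIsMod : UD0 (IsMod I) := UD.and I.udeta (gdTh I).ud

variable {I}

theorem Chart.comp {M X Y : Type} {V : M → Prop} {E : M → M → M → Prop} {R : X → X → Prop}
    {R' : Y → Y → Prop} {Ψ : X → M} (c : Chart V E R Ψ) (e : Y ≃ X)
    (he : ∀ a b, R (e a) (e b) ↔ R' a b) : Chart V E R' (Ψ ∘ e) :=
  ⟨c.1.comp e.injective, fun z => (c.2.1 z).trans e.surjective.exists,
    fun x y => (c.2.2 _ _).trans (he x y)⟩

theorem IsMod.chart {M : Md L} (h : IsMod I M) :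
    ∃ (P : Type) (_ : LinearOrder P) (_ : BoundedOrder P) (_ : Nontrivial P) (μ : P → Fin 3)
      (Ψ : Nd P → M), I.Ch M (StdR μ) Ψ := by
  obtain ⟨-, X, R, Ψ, c, hT⟩ := h
  obtain ⟨P, i1, i2, i3, μ, e, he⟩ := th_struct R hT
  exact ⟨P, i1, i2, i3, μ, Ψ ∘ e, Chart.comp c e he⟩

theorem isMod_of_chart {M : Md L} (h : I.eta M) {P : Type} [LinearOrder P] [BoundedOrder P]
    [Nontrivial P] {μ : P → Fin 3} {Ψ : Nd P → M} (c : I.Ch M (StdR μ) Ψ) : IsMod I M :=
  ⟨h, _, _, Ψ, c, th_std μ⟩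

theorem exists_model (I : Iface L) {P : Type} [LinearOrder P] [BoundedOrder P] (μ : P → Fin 3) :
    ∃ (M : Md L) (Ψ : Nd P → M), I.eta M ∧ I.Ch M (StdR μ) Ψ :=
  I.ex _ _ Nd.root (s_root μ)

/-- isomorphisms between ladder models -/
theorem mod_iso {M M' : Md L} (h : I.eta M) (h' : I.eta M') {P P' : Type} [LinearOrder P]
    [BoundedOrder P] [Nontrivial P] [LinearOrder P'] [BoundedOrder P'] {μ : P → Fin 3}
    {μ' : P' → Fin 3} {Ψ : Nd P → M} {Ψ' : Nd P' → M'} (c : I.Ch M (StdR μ) Ψ)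
    (c' : I.Ch M' (StdR μ') Ψ') (o : P ≃o P') (α : P → Equiv.Perm (Fin 3)) (hα : ∀ i, α i 0 = 0)
    (hμ : (¬ ∃ m, Up m (⊤ : P)) ∨ ∀ i, α i (μ i) = μ' (o i)) :
    ∃ g : M ≃[L] M', ∀ i k, g (Ψ (.lad i ⊥ k)) = Ψ' (.lad (o i) ⊥ (α i k)) := by
  obtain ⟨e, he, he'⟩ := std_iso μ μ' o α hα hμ
  obtain ⟨g, hg⟩ := I.iso _ _ M M' Ψ (Ψ' ∘ e) h h' c (Chart.comp c' e he)
  exact ⟨g, fun i k => by rw [hg, Function.comp_apply, he']⟩

end Pool.Agent.P.MP_13cc81_lc
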