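import Pool.Agent.P.MP_13cc81_lc.UD

/-! Coding digraphs (vertices and edges as elements) in a rich signature. -/

namespace Pool.Agent.P.MP_13cc81_lc

open FirstOrder FirstOrder.Language FirstOrder.Language.Structure

variable {L : FirstOrder.Language.{0, 0}}

def Chart {M X : Type} (V : M → Prop) (E : M → M → M → Prop) (R : X → X → Prop) (Ψ : X → M) :
    Prop :=
  Function.Injective Ψ ∧ (∀ z, V z ↔ ∃ x, Ψ x = z) ∧ ∀ x y, (∃ e, E e (Ψ x) (Ψ y)) ↔ R x y

structure Iface (L : FirstOrder.Language.{0, 0}) where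
  V : ∀ M : Md L, M → Prop
  E : ∀ M : Md L, M → M → M → Prop
  eta : Md L → Prop
  udV : UD1 V
  udE : UD3 E
  udeta : UD0 eta
  uniqE : ∀ M, eta M → ∀ e e' x y, E M e x y → E M e' x y → e = e'
  srcE : ∀ M, eta M → ∀ e x y x' y', E M e x y → E M e x' y' → x = x' ∧ y = y'
  ex : ∀ (X : Type) (R : X → X → Prop) (o : X), (∀ x, (∀ y, ¬ R x y) ↔ x = o) →
    ∃ (M : Md L) (Ψ : X → M), eta M ∧ Chart (V M) (E M) R Ψ
  iso : ∀ (X : Type) (R : X → X → Prop) (M M' : Md L) (Ψ : X → M) (Ψ' : X → M'), eta M → eta M' →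
    Chart (V M) (E M) R Ψ → Chart (V M') (E M') R Ψ' → ∃ g : M ≃[L] M', ∀ x, g (Ψ x) = Ψ' x

inductive FK (n : ℕ) : Type
  | root | proj (i : Fin n) | src (i : Fin n) | tgt (i : Fin n) | bin (i j : Fin n)

inductive RK (n : ℕ) : Type
  | none | inc (i j : Fin n)

section B
variable {X Y : Type} (S T : X → X → Prop)

def Rt (o : X) : Prop := S o o ∧ ∀ e, S e o → S e e

def Base : Prop :=
  (∀ x, ∃ y, S x y) ∧ (∀ x y y', S x y → S x y' → y = y') ∧
  (∀ x, ∃ y, T x y) ∧ (∀ x y y', T x y → T x y' → y = y') ∧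
  (∀ x, S x x ↔ T x x) ∧ (∀ x y, S x y → S y y) ∧ (∀ x y, T x y → S y y) ∧
  (∀ e e' x y, ¬ S e e → ¬ S e' e' → S e x → S e' x → T e y → T e' y → e = e') ∧
  (∀ o o', Rt S o → Rt S o' → o = o')

def gF {n : ℕ} : FK n → (Fin n → X) → X → Prop
  | .root, _, y => Rt S y
  | .proj i, a, y => y = a i
  | .src i, a, y => S (a i) y
  | .tgt i, a, y => T (a i) y
  | .bin i j, a, y => (a j = a i ∧ S (a i) y) ∨ (¬ a j = a i ∧ S (a i) (a j) ∧ T (a i) y) ∨
      (¬ a j = a i ∧ ¬ S (a i) (a j) ∧ y = a i)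

def gR {n : ℕ} : RK n → (Fin n → X) → Prop
  | .none, _ => False
  | .inc i j, a => (a i = a j ∧ S (a i) (a i)) ∨ (¬ S (a i) (a i) ∧ S (a i) (a j)) ∨
      (¬ S (a j) (a j) ∧ T (a j) (a i))

def Ed (e x y : X) : Prop := ¬ S e e ∧ S e x ∧ T e y

variable {S T}

theorem gF_uniq (h : Base S T) {n : ℕ} (k : FK n) (a : Fin n → X) (y y' : X)
    (h1 : gF S T k a y) (h2 : gF S T k a y') : y = y' := by
  obtain ⟨-, b2, -, b4, -, -, -, -, b9⟩ := h
  cases k with
  | root => exact b9 _ _ h1 h2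
  | proj i => exact h1.trans h2.symm
  | src i => exact b2 _ _ _ h1 h2
  | tgt i => exact b4 _ _ _ h1 h2
  | bin i j =>
    rcases h1 with h1 | h1 | h1 <;> rcases h2 with h2 | h2 | h2
    · exact b2 _ _ _ h1.2 h2.2
    · exact absurd h1.1 h2.1
    · exact absurd h1.1 h2.1
    · exact absurd h2.1 h1.1
    · exact b4 _ _ _ h1.2.2 h2.2.2
    · exact absurd h1.2.1 h2.2.1
    · exact absurd h2.1 h1.1
    · exact absurd h2.2.1 h1.2.1
    · exact h1.2.2.trans h2.2.2.symm

theorem gF_ex (h : Base S T) (ho : ∃ o, Rt S o) {n : ℕ} (k : FK n) (a : Fin n → X) :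
    ∃ y, gF S T k a y := by
  obtain ⟨b1, -, b3, -⟩ := h
  cases k with
  | root => exact ho
  | proj i => exact ⟨_, rfl⟩
  | src i => exact b1 _
  | tgt i => exact b3 _
  | bin i j =>
    by_cases h1 : a j = a i
    · obtain ⟨y, hy⟩ := b1 (a i); exact ⟨y, Or.inl ⟨h1, hy⟩⟩
    by_cases h2 : S (a i) (a j)
    · obtain ⟨y, hy⟩ := b3 (a i); exact ⟨y, Or.inr (Or.inl ⟨h1, h2, hy⟩)⟩
    · exact ⟨_, Or.inr (Or.inr ⟨h1, h2, rfl⟩)⟩

theorem gF_map {S' T' : Y → Y → Prop} (g : X ≃ Y) (hS : ∀ a b, S' (g a) (g b) ↔ S a b)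
    (hT : ∀ a b, T' (g a) (g b) ↔ T a b) {n : ℕ} (k : FK n) (a : Fin n → X) (y : X) :
    gF S' T' k (g ∘ a) (g y) ↔ gF S T k a y := by
  cases k with
  | root => simp only [gF, Rt, g.surjective.forall, hS]
  | proj i => simp [gF]
  | src i => simp [gF, hS]
  | tgt i => simp [gF, hT]
  | bin i j => simp [gF, hS, hT]

theorem gR_map {S' T' : Y → Y → Prop} (g : X ≃ Y) (hS : ∀ a b, S' (g a) (g b) ↔ S a b)
    (hT : ∀ a b, T' (g a) (g b) ↔ T a b) {n : ℕ} (k : RK n) (a : Fin n → X) :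
    gR S' T' k (g ∘ a) ↔ gR S T k a := by
  cases k with
  | none => simp [gR]
  | inc i j => simp [gR, hS, hT]

theorem chart_equiv {Z : Type} {S' T' : Y → Y → Prop} (h : Base S T) (h' : Base S' T')
    {R : Z → Z → Prop} {Ψ : Z → X} {Ψ' : Z → Y} (c : Chart (fun x => S x x) (Ed S T) R Ψ)
    (c' : Chart (fun x => S' x x) (Ed S' T') R Ψ') :
    ∃ g : X ≃ Y, (∀ a b, S' (g a) (g b) ↔ S a b) ∧ (∀ a b, T' (g a) (g b) ↔ T a b) ∧
      ∀ x, g (Ψ x) = Ψ' x := by
  have key : ∀ {X Y : Type} {S T : X → X → Prop} {S' T' : Y → Y → Prop} {Ψ : Z → X} {Ψ' : Z → Y},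
      Base S T → Base S' T' → Chart (fun x => S x x) (Ed S T) R Ψ →
      Chart (fun x => S' x x) (Ed S' T') R Ψ' → ∀ Rel : X → Y → Prop,
      (∀ z z', Rel z z' ↔ (∃ x, z = Ψ x ∧ z' = Ψ' x) ∨
        ∃ x y, Ed S T z (Ψ x) (Ψ y) ∧ Ed S' T' z' (Ψ' x) (Ψ' y)) →
      (∀ z, ∃ z', Rel z z') ∧ (∀ z z' z'', Rel z z' → Rel z z'' → z' = z'') ∧
      (∀ z z' w w', Rel z z' → Rel w w' → (S z w → S' z' w') ∧ (T z w → T' z' w')) := by
    intro X Y S T S' T' Ψ Ψ' h h' c c' Rel hR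
    obtain ⟨b1, b2, b3, b4, b5, b6, b7, b8, -⟩ := h
    obtain ⟨b1', b2', b3', b4', b5', b6', b7', b8', -⟩ := h'
    have hv : ∀ x, S (Ψ x) (Ψ x) := fun x => (c.2.1 _).2 ⟨x, rfl⟩
    have hv' : ∀ x, S' (Ψ' x) (Ψ' x) := fun x => (c'.2.1 _).2 ⟨x, rfl⟩
    have hvert : ∀ x z', Rel (Ψ x) z' → z' = Ψ' x := by
      intro x z' hz
      rcases (hR _ _).1 hz with ⟨x', h1, h2⟩ | ⟨_, _, h1, -⟩
      · rw [h2, c.1 h1]
      · exact absurd (hv x) h1.1
    refine ⟨fun z => ?_, fun z z' z'' h1 h2 => ?_, fun z z' w w' h1 h2 => ?_⟩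
    · by_cases hz : S z z
      · obtain ⟨x, rfl⟩ := (c.2.1 z).1 hz
        exact ⟨Ψ' x, (hR _ _).2 (Or.inl ⟨x, rfl, rfl⟩)⟩
      · obtain ⟨a, ha⟩ := b1 z
        obtain ⟨b, hb⟩ := b3 z
        obtain ⟨x, rfl⟩ := (c.2.1 a).1 (b6 _ _ ha)
        obtain ⟨y, rfl⟩ := (c.2.1 b).1 (b7 _ _ hb)
        obtain ⟨e, he⟩ := (c'.2.2 x y).2 ((c.2.2 x y).1 ⟨z, hz, ha, hb⟩)
        exact ⟨e, (hR _ _).2 (Or.inr ⟨x, y, ⟨hz, ha, hb⟩, he⟩)⟩
    · rcases (hR _ _).1 h1 with ⟨x, rfl, rfl⟩ | ⟨x, y, e1, e2⟩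
      · exact (hvert _ _ h2).symm
      · rcases (hR _ _).1 h2 with ⟨x', rfl, rfl⟩ | ⟨x', y', e1', e2'⟩
        · exact absurd (hv x') e1.1
        · obtain rfl := c.1 (b2 _ _ _ e1.2.1 e1'.2.1)
          obtain rfl := c.1 (b4 _ _ _ e1.2.2 e1'.2.2)
          exact b8' _ _ _ _ e2.1 e2'.1 e2.2.1 e2'.2.1 e2.2.2 e2'.2.2
    · rcases (hR _ _).1 h1 with ⟨x, rfl, rfl⟩ | ⟨x, y, e1, e2⟩
      · constructor
        · intro hs
          obtain rfl := b2 _ _ _ (hv x) hs
          rw [hvert _ _ h2]; exact hv' x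
        · intro hs
          obtain rfl := b4 _ _ _ ((b5 _).1 (hv x)) hs
          rw [hvert _ _ h2]; exact (b5' _).1 (hv' x)
      · constructor
        · intro hs
          obtain rfl := b2 _ _ _ e1.2.1 hs
          rw [hvert _ _ h2]; exact e2.2.1
        · intro hs
          obtain rfl := b4 _ _ _ e1.2.2 hs
          rw [hvert _ _ h2]; exact e2.2.2
  let Rel : X → Y → Prop := fun z z' => (∃ x, z = Ψ x ∧ z' = Ψ' x) ∨
        ∃ x y, Ed S T z (Ψ x) (Ψ y) ∧ Ed S' T' z' (Ψ' x) (Ψ' y)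
  obtain ⟨k1, k2, k3⟩ := key h h' c c' Rel (fun _ _ => Iff.rfl)
  obtain ⟨l1, l2, l3⟩ := key h' h c' c (fun z' z => Rel z z')
    (fun _ _ => by simp only [Rel, and_comm])
  choose f hf using k1
  choose f' hf' using l1
  refine ⟨⟨f, f', fun z => l2 _ _ _ (hf' _) (hf z), fun z => k2 _ _ _ (hf _) (hf' z)⟩,
    fun a b => ⟨(l3 _ _ _ _ (hf a) (hf b)).1, (k3 _ _ _ _ (hf a) (hf b)).1⟩,
    fun a b => ⟨(l3 _ _ _ _ (hf a) (hf b)).2, (k3 _ _ _ _ (hf a) (hf b)).2⟩, fun x => ?_⟩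
  exact k2 _ _ _ (hf _) (Or.inl ⟨x, rfl, rfl⟩)

end B

structure Code (L : FirstOrder.Language.{0, 0}) where
  kF : ∀ n, L.Functions n → FK n
  kR : ∀ n, L.Relations n → RK n
  S : ∀ M : Md L, M → M → Prop
  T : ∀ M : Md L, M → M → Prop
  udS : UD2 S
  udT : UD2 T
  rec' : ∀ (M : Md L) (S0 T0 : M → M → Prop), Base S0 T0 →
    (∀ n (F : L.Functions n) a, gF S0 T0 (kF n F) a (funMap F a)) →
    (∀ n (r : L.Relations n) a, RelMap r a ↔ gR S0 T0 (kR n r) a) → S M = S0 ∧ T M = T0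

def Code.eta (C : Code L) (M : Md L) : Prop :=
  Base (C.S M) (C.T M) ∧
    (∀ n (F : L.Functions n) a, gF (C.S M) (C.T M) (C.kF n F) a (funMap F a)) ∧
    (∀ n (r : L.Relations n) a, RelMap r a ↔ gR (C.S M) (C.T M) (C.kR n r) a)

theorem Code.udRt (C : Code L) : UD1 (fun M => Rt (C.S M)) := by
  unfold UD1 Rt
  repeat' first | apply C.udS.app | apply UD.and | apply UD.imp | apply UD.all

theorem Code.udgF (C : Code L) {α : Type} {n : ℕ} (k : FK n) (a : Fin n → α) (b : α) :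
    UD (fun M (v : α → M) => gF (C.S M) (C.T M) k (fun i => v (a i)) (v b)) := by
  cases k <;> simp only [gF]
  · exact C.udRt.app b
  all_goals
    repeat' first | apply C.udS.app | apply C.udT.app | apply UD.eq | apply UD.and | apply UD.or | apply UD.not

theorem Code.udgR (C : Code L) {α : Type} {n : ℕ} (k : RK n) (a : Fin n → α) :
    UD (fun M (v : α → M) => gR (C.S M) (C.T M) k (fun i => v (a i))) := by
  cases k <;> simp only [gR]
  · exact UD.fals
  · repeat' first | apply C.udS.app | apply C.udT.app | apply UD.eq | apply UD.and | apply UD.or | apply UD.not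

theorem Code.udeta (C : Code L) [Finite (Σ n, L.Functions n)] [Finite (Σ n, L.Relations n)] :
    UD0 C.eta := by
  unfold UD0 Code.eta
  refine UD.and ?_ (UD.and ?_ ?_)
  · unfold Base
    repeat' first | apply C.udS.app | apply C.udT.app | apply C.udRt.app | apply UD.eq | apply UD.and | apply UD.not | apply UD.iff | apply UD.imp | apply UD.all | apply UD.ex
  · refine (UD.iAnd (ι := Σ n, L.Functions n) (P := fun F M _ => ∀ a,
      gF (C.S M) (C.T M) (C.kF F.1 F.2) a (funMap F.2 a)) fun F => ?_).congr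
      fun M v => ⟨fun h n F => h ⟨n, F⟩, fun h F => h F.1 F.2⟩
    apply UD.allFin
    refine (UD.all (P := fun M v y => funMap F.2 (fun i => v (Sum.inr i)) = y →
      gF (C.S M) (C.T M) (C.kF F.1 F.2) (fun i => v (Sum.inr i)) y)
      ((UD.func F.2 (fun i => some (Sum.inr i)) none).imp
        (C.udgF _ (fun i => some (Sum.inr i)) none))).congr fun M v => by simp
  · refine (UD.iAnd (ι := Σ n, L.Relations n) (P := fun F M _ => ∀ a,
      RelMap F.2 a ↔ gR (C.S M) (C.T M) (C.kR F.1 F.2) a) fun F => ?_).congr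
      fun M v => ⟨fun h n F => h ⟨n, F⟩, fun h F => h F.1 F.2⟩
    apply UD.allFin
    exact (UD.rel F.2 Sum.inr).iff (C.udgR _ Sum.inr)

theorem Code.exModel (C : Code L) (X : Type) (R : X → X → Prop) (o : X)
    (ho : ∀ x, (∀ y, ¬ R x y) ↔ x = o) :
    ∃ (M : Md L) (Ψ : X → M), C.eta M ∧ Chart (fun x => C.S M x x) (Ed (C.S M) (C.T M)) R Ψ := by
  let N := X ⊕ {p : X × X // R p.1 p.2}
  let s : N → N := Sum.elim Sum.inl (fun p => Sum.inl p.1.1)
  let t : N → N := Sum.elim Sum.inl (fun p => Sum.inl p.1.2)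
  let S0 : N → N → Prop := fun a b => s a = b
  let T0 : N → N → Prop := fun a b => t a = b
  have hRt : ∀ z, Rt S0 z ↔ z = Sum.inl o := by
    rintro (x | p)
    · constructor
      · intro h
        rw [(ho x).1 fun y hy => Sum.inl_ne_inr (h.2 (Sum.inr ⟨(x, y), hy⟩) rfl)]
      · intro h
        have h := (ho x).2 (Sum.inl_injective h)
        refine ⟨rfl, ?_⟩
        rintro (x' | p) h'
        · rfl
        · obtain rfl : p.1.1 = x := Sum.inl_injective h'
          exact absurd p.2 (h _)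
    · simp [Rt, S0, s]
  have hB : Base S0 T0 := by
    refine ⟨fun x => ⟨_, rfl⟩, fun x y y' h h' => h.symm.trans h', fun x => ⟨_, rfl⟩,
      fun x y y' h h' => h.symm.trans h', ?_, ?_, ?_, ?_, ?_⟩
    · rintro (x | p) <;> simp [S0, T0, s, t]
    · rintro (x | p) _ rfl <;> simp [S0, s]
    · rintro (x | p) _ rfl <;> simp [S0, s, t]
    · rintro (x | p) (x' | p') a b h1 h2 h3 h4 h5 h6
      · exact absurd rfl h1
      · exact absurd rfl h1
      · exact absurd rfl h2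
      · have e1 : p.1.1 = p'.1.1 := Sum.inl_injective (h3.trans h4.symm)
        have e2 : p.1.2 = p'.1.2 := Sum.inl_injective (h5.trans h6.symm)
        rw [Subtype.ext (Prod.ext e1 e2)]
    · intro a b h1 h2
      rw [(hRt a).1 h1, (hRt b).1 h2]
  let _i : L.Structure N :=
    { funMap := fun {n} F a => Classical.choose (gF_ex hB ⟨_, (hRt _).2 rfl⟩ (C.kF n F) a)
      RelMap := fun {n} r a => gR S0 T0 (C.kR n r) a }
  have : Nonempty N := ⟨Sum.inl o⟩
  let M : Md L := Theory.ModelType.of ∅ N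
  have h1 : ∀ n (F : L.Functions n) (a : Fin n → M), gF S0 T0 (C.kF n F) a (funMap F a) :=
    fun n F a => Classical.choose_spec (gF_ex hB ⟨_, (hRt _).2 rfl⟩ (C.kF n F) a)
  have h2 : ∀ n (r : L.Relations n) (a : Fin n → M), RelMap r a ↔ gR S0 T0 (C.kR n r) a :=
    fun n r a => Iff.rfl
  obtain ⟨e1, e2⟩ := C.rec' M S0 T0 hB h1 h2
  refine ⟨M, Sum.inl, ?_, ?_⟩
  · unfold Code.eta
    rw [e1, e2]
    exact ⟨hB, h1, h2⟩
  · rw [e1, e2]
    refine ⟨Sum.inl_injective, ?_, fun x y => ?_⟩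
    · rintro (x | p)
      · exact ⟨fun _ => ⟨x, rfl⟩, fun _ => rfl⟩
      · exact ⟨fun h => absurd h Sum.inl_ne_inr, fun ⟨_, h⟩ => absurd h Sum.inl_ne_inr⟩
    · constructor
      · rintro ⟨x' | p, h1, h2, h3⟩
        · exact absurd rfl h1
        · obtain rfl : p.1.1 = x := Sum.inl_injective h2
          obtain rfl : p.1.2 = y := Sum.inl_injective h3
          exact p.2
      · intro h
        exact ⟨Sum.inr ⟨(x, y), h⟩, Sum.inl_ne_inr, rfl, rfl⟩

def Code.iface (C : Code L) [Finite (Σ n, L.Functions n)] [Finite (Σ n, L.Relations n)] :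
    Iface L where
  V M x := C.S M x x
  E M := Ed (C.S M) (C.T M)
  eta := C.eta
  udV := C.udS.app 0 0
  udE := by
    unfold UD3 Ed
    repeat' first | apply C.udS.app | apply C.udT.app | apply UD.and | apply UD.not
  udeta := C.udeta
  uniqE M h e e' x y h1 h2 := h.1.2.2.2.2.2.2.2.1 _ _ _ _ h1.1 h2.1 h1.2.1 h2.2.1 h1.2.2 h2.2.2
  srcE M h e x y x' y' h1 h2 := ⟨h.1.2.1 _ _ _ h1.2.1 h2.2.1, h.1.2.2.2.1 _ _ _ h1.2.2 h2.2.2⟩
  ex := C.exModel
  iso X R M M' Ψ Ψ' h h' c c' := by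
    obtain ⟨g, g1, g2, g3⟩ := chart_equiv h.1 h'.1 c c'
    refine ⟨⟨g, fun {n} F a => ?_, fun {n} r a => ?_⟩, g3⟩
    · exact gF_uniq h'.1 (C.kF n F) (g ∘ a) _ _ ((gF_map g g1 g2 _ _ _).2 (h.2.1 n F a))
        (h'.2.1 n F _)
    · rw [h.2.2]
      exact (h'.2.2 n r _).trans (gR_map g g1 g2 _ _)

noncomputable def codeRel {n : ℕ} (r : L.Relations n) (hn : 1 < n) : Code L := by
  classical
  let i : Fin n := ⟨0, by omega⟩
  let j : Fin n := ⟨1, hn⟩
  let ρ : ∀ M : Md L, M → M → Prop := fun M x y => RelMap r (fun k => if k = i then x else y)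
  have hρ : UD2 ρ := (UD.rel r (fun k => if k = i then (0 : Fin 2) else 1)).congr fun M v => by
    simp only [ρ, apply_ite v]
  exact
  { kF := fun m _ => if h : 0 < m then .proj ⟨0, h⟩ else .root
    kR := fun m r' => if h : (⟨m, r'⟩ : Σ n, L.Relations n) = ⟨n, r⟩ then
      .inc ⟨0, by have : m = n := congrArg Sigma.fst h; omega⟩
        ⟨1, by have : m = n := congrArg Sigma.fst h; omega⟩ else .none
    S := fun M x y => (ρ M x x ∧ y = x) ∨ (¬ ρ M x x ∧ ρ M y y ∧ ρ M x y)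
    T := fun M x y => (ρ M x x ∧ y = x) ∨ (¬ ρ M x x ∧ ρ M y y ∧ ρ M y x)
    udS := by
      unfold UD2
      repeat' first | apply hρ.app | apply UD.eq | apply UD.and | apply UD.or | apply UD.not
    udT := by
      unfold UD2
      repeat' first | apply hρ.app | apply UD.eq | apply UD.and | apply UD.or | apply UD.not
    rec' := by
      intro M S0 T0 hB _ h2
      obtain ⟨-, b2, -, b4, b5, b6, b7, -⟩ := hB
      have hij : j ≠ i := by simp [i, j]
      have e : ∀ x y, ρ M x y ↔ (x = y ∧ S0 x x) ∨ (¬ S0 x x ∧ S0 x y) ∨ (¬ S0 y y ∧ T0 y x) := by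
        intro x y
        simp only [ρ, h2, dif_pos, gR]
        simp [i]
      have e' : ∀ x, ρ M x x ↔ S0 x x := fun x => by rw [e, ← b5]; tauto
      constructor
      · funext x y
        apply propext
        rw [e', e', e]
        have := b2 x x y
        have := b6 x y
        by_cases hxy : x = y
        · subst hxy; tauto
        · have := Ne.symm hxy; tauto
      · funext x y
        apply propext
        rw [e', e', e]
        have := b4 x x y
        have := b7 x y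
        have := b5 x
        by_cases hxy : x = y
        · subst hxy; tauto
        · have := Ne.symm hxy; tauto }

noncomputable def codeBin {n : ℕ} (f : L.Functions n) (hn : 1 < n) : Code L := by
  classical
  let i : Fin n := ⟨0, by omega⟩
  let ρ : ∀ M : Md L, M → M → M → Prop := fun M x y z =>
    funMap f (fun k => if k = i then x else y) = z
  have hρ : UD3 ρ := (UD.func f (fun k => if k = i then (0 : Fin 3) else 1) 2).congr fun M v => by
    simp only [ρ, apply_ite v]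
  exact
  { kF := fun m f' => if h : (⟨m, f'⟩ : Σ n, L.Functions n) = ⟨n, f⟩ then
      .bin ⟨0, by have : m = n := congrArg Sigma.fst h; omega⟩
        ⟨1, by have : m = n := congrArg Sigma.fst h; omega⟩
      else if h : 0 < m then .proj ⟨0, h⟩ else .root
    kR := fun _ _ => .none
    S := fun M x y => ρ M x x y
    T := fun M x y => ∃ z, ρ M x x z ∧ ρ M x z y
    udS := hρ.app 0 0 1
    udT := by
      unfold UD2
      repeat' first | apply hρ.app | apply UD.and | apply UD.ex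
    rec' := by
      intro M S0 T0 hB h1 _
      have e : ∀ x y z, ρ M x y z ↔ (y = x ∧ S0 x z) ∨ (¬ y = x ∧ S0 x y ∧ T0 x z) ∨
          (¬ y = x ∧ ¬ S0 x y ∧ z = x) := by
        intro x y z
        have h := h1 n f (fun k => if k = i then x else y)
        have h' : (ρ M x y z) ↔ gF S0 T0 _ (fun k => if k = i then x else y) z :=
          ⟨fun hz => hz ▸ h, fun hz => gF_uniq hB _ _ _ _ h hz⟩
        rw [h']
        simp only [dif_pos, gF]
        simp [i]
      obtain ⟨b1, b2, -, b4, b5, b6, b7, -⟩ := hB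
      have e' : ∀ x y, ρ M x x y ↔ S0 x y := fun x y => by rw [e]; simp
      constructor
      · funext x y
        exact propext (e' x y)
      · funext x y
        apply propext
        simp only [e', e]
        constructor
        · rintro ⟨z, hz, ⟨rfl, h⟩ | h | h⟩
          · rw [← b2 _ _ _ hz h]; exact (b5 _).1 hz
          · exact h.2.2
          · exact absurd hz h.2.1
        · intro h
          obtain ⟨z, hz⟩ := b1 x
          refine ⟨z, hz, ?_⟩
          by_cases hzx : z = x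
          · subst hzx
            exact Or.inl ⟨rfl, by rw [← b4 _ _ _ ((b5 _).1 hz) h]; exact hz⟩
          · exact Or.inr (Or.inl ⟨hzx, hz, h⟩) }

noncomputable def codeUn (f g : L.Functions 1) (hfg : f ≠ g) : Code L := by
  classical
  exact
  { kF := fun m f' => if h : 0 < m then
      (if (⟨m, f'⟩ : Σ n, L.Functions n) = ⟨1, f⟩ then .src ⟨0, h⟩
      else if (⟨m, f'⟩ : Σ n, L.Functions n) = ⟨1, g⟩ then .tgt ⟨0, h⟩ else .proj ⟨0, h⟩)
      else .root
    kR := fun _ _ => .none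
    S := fun M x y => funMap f (fun _ => x) = y
    T := fun M x y => funMap g (fun _ => x) = y
    udS := UD.func f (fun _ => 0) 1
    udT := UD.func g (fun _ => 0) 1
    rec' := by
      intro M S0 T0 hB h1 _
      have hgf : ¬ (⟨1, g⟩ : Σ n, L.Functions n) = ⟨1, f⟩ := fun h =>
        hfg (eq_of_heq (Sigma.mk.inj h).2).symm
      constructor
      · funext x y
        have h := h1 1 f (fun _ => x)
        simp only [Nat.lt_one_iff, dif_pos, if_pos, gF] at h
        exact propext ⟨fun hz => hz ▸ h, fun hz => hB.2.1 _ _ _ h hz⟩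
      · funext x y
        have h := h1 1 g (fun _ => x)
        simp only [Nat.lt_one_iff, dif_pos, if_pos, if_neg hgf, gF] at h
        exact propext ⟨fun hz => hz ▸ h, fun hz => hB.2.2.2.1 _ _ _ h hz⟩ }

theorem exists_iface [Finite (Σ n, L.Functions n)] [Finite (Σ n, L.Relations n)]
    (h : (∃ n, 1 < n ∧ (Nonempty (L.Relations n) ∨ Nonempty (L.Functions n))) ∨
      ∃ f g : L.Functions 1, f ≠ g) : Nonempty (Iface L) := by
  rcases h with ⟨n, hn, ⟨⟨r⟩⟩ | ⟨⟨f⟩⟩⟩ | ⟨f, g, hfg⟩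
  · exact ⟨(codeRel r hn).iface⟩
  · exact ⟨(codeBin f hn).iface⟩
  · exact ⟨(codeUn f g hfg).iface⟩

end Pool.Agent.P.MP_13cc81_lc
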