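import Pool.Agent.P.MP_13cc81_lc.GD

/-! Insertion lemma for finite ladder models via ultraproducts. -/

namespace Pool.Agent.P.MP_13cc81_lc

open FirstOrder FirstOrder.Language FirstOrder.Language.Structure Filter

variable {L : FirstOrder.Language.{0, 0}} {I : Iface L}

structure FM (I : Iface L) where
  n : ℕ
  M : Md L
  μ : Fin (n + 2) → Fin 3
  Ψ : Nd (Fin (n + 2)) → M
  eta : I.eta M
  ch : I.Ch M (StdR μ) Ψ

structure FPt (I : Iface L) extends FM I where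
  i : Fin (n + 2)
  j : Fin (n + 2)
  κ : Fin 3
  κ' : Fin 3
  hκ : κ ≠ 0
  hκ' : κ' ≠ 0
  hij : i = j → κ = κ'

noncomputable def FPt.x (p : FPt I) : p.M := p.Ψ (.lad p.i ⊥ p.κ)
noncomputable def FPt.y (p : FPt I) : p.M := p.Ψ (.lad p.j ⊥ p.κ')

theorem germ_iso (U : Ultrafilter ℕ) (c n : ℕ → ℕ) (hc : ∀ m, ∀ᶠ k in U, c k + m ≤ n k) :
    ∃ h : {a : Germ (U : Filter ℕ) ℕ // a < (n : Germ (U : Filter ℕ) ℕ)} ≃o
      {a : Germ (U : Filter ℕ) ℕ // a < ((fun k => n k + 1 : ℕ → ℕ) : Germ (U : Filter ℕ) ℕ)},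
      ∀ (a : ℕ → ℕ) ha, ((∀ᶠ k in U, a k < c k) → (h ⟨a, ha⟩).1 = a) ∧
        ((∀ m, ∀ᶠ k in U, c k + m ≤ a k) → (h ⟨a, ha⟩).1 = (fun k => a k + 1 : ℕ → ℕ)) := by
  classical
  let J : Germ (U : Filter ℕ) ℕ → Prop := fun a =>
    ∃ m : ℕ, a < ((fun k => c k + m : ℕ → ℕ) : Germ (U : Filter ℕ) ℕ)
  have hJ : ∀ a : ℕ → ℕ, J a ↔ ∃ m, ∀ᶠ k in U, a k < c k + m := fun a => by
    simp only [J, Germ.coe_lt]
  have hs : ∀ a : ℕ → ℕ, (a : Germ (U : Filter ℕ) ℕ) + 1 = (fun k => a k + 1 : ℕ → ℕ) :=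
    fun a => rfl
  let f : Germ (U : Filter ℕ) ℕ → Germ (U : Filter ℕ) ℕ := fun a => if J a then a else a + 1
  have hf : StrictMono f := by
    intro a b hab
    simp only [f]
    split_ifs with h1 h2 h2
    · exact hab
    · exact hab.trans (lt_add_one b)
    · obtain ⟨m, hm⟩ := h2
      exact absurd ⟨m, hab.trans hm⟩ h1
    · exact add_lt_add_left hab 1
  have hlt : ∀ a, a < (n : Germ (U : Filter ℕ) ℕ) →
      f a < ((fun k => n k + 1 : ℕ → ℕ) : Germ (U : Filter ℕ) ℕ) := by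
    intro a ha
    rw [← hs]
    simp only [f]
    split_ifs
    · exact ha.trans (lt_add_one _)
    · exact add_lt_add_left ha 1
  let g : {a : Germ (U : Filter ℕ) ℕ // a < (n : Germ (U : Filter ℕ) ℕ)} →
      {a : Germ (U : Filter ℕ) ℕ // a < ((fun k => n k + 1 : ℕ → ℕ) : Germ (U : Filter ℕ) ℕ)} :=
    fun a => ⟨f a.1, hlt _ a.2⟩
  have hg : StrictMono g := fun a b hab => hf hab
  have hsurj : Function.Surjective g := by
    rintro ⟨b, hb⟩
    induction b using Germ.inductionOn with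
    | _ b =>
    by_cases h : J b
    · obtain ⟨m, hm⟩ := (hJ b).1 h
      refine ⟨⟨b, Germ.coe_lt.2 ?_⟩, Subtype.ext (if_pos h)⟩
      filter_upwards [hm, hc m] with k h1 h2
      omega
    · have h0 : ∀ᶠ k in U, 0 < b k := by
        have : ¬ ∀ᶠ k in U, b k < c k + 1 := fun h' => h ((hJ b).2 ⟨1, h'⟩)
        filter_upwards [Ultrafilter.eventually_not.2 this] with k hk
        omega
      have h1 : ¬ J (fun k => b k - 1 : ℕ → ℕ) := by
        intro h'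
        obtain ⟨m, hm⟩ := (hJ _).1 h'
        refine h ((hJ b).2 ⟨m + 1, ?_⟩)
        filter_upwards [hm] with k hk
        omega
      refine ⟨⟨(fun k => b k - 1 : ℕ → ℕ), Germ.coe_lt.2 ?_⟩, Subtype.ext ?_⟩
      · filter_upwards [Germ.coe_lt.1 hb, h0] with k h1 h2
        omega
      · simp only [g, f, if_neg h1, hs]
        refine Germ.coe_eq.2 ?_
        filter_upwards [h0] with k hk
        omega
  refine ⟨hg.orderIsoOfSurjective g hsurj, fun a ha => ⟨fun h => ?_, fun h => ?_⟩⟩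
  · exact if_pos ((hJ a).2 ⟨0, h⟩)
  · refine (if_neg fun h' => ?_).trans (hs a)
    obtain ⟨m, hm⟩ := (hJ a).1 h'
    obtain ⟨k, h1, h2⟩ := (hm.and (h m)).exists
    omega

theorem ultra_coord (U : Ultrafilter ℕ) (F : ℕ → FM I) {P : Type} [LinearOrder P] [BoundedOrder P]
    {μ : P → Fin 3} {Ψ : Nd P → ultra U (fun k => (F k).M)} (c : I.Ch _ (StdR μ) Ψ) :
    ∃ cd : P ≃o {a : Germ (U : Filter ℕ) ℕ //
        a < ((fun k => (F k).n + 2 : ℕ → ℕ) : Germ (U : Filter ℕ) ℕ)},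
      ∀ (i : ∀ k, Fin ((F k).n + 2)) (p : P),
        umk U (fun k => (F k).M) (fun k => (F k).Ψ (.pos (i k))) = Ψ (.pos p) →
        (cd p).1 = (fun k => (i k : ℕ) : ℕ → ℕ) := by
  classical
  obtain ⟨u1, u2⟩ := (gdPos I).spec
  have ha : ∀ p, ∃ i : ∀ k, Fin ((F k).n + 2),
      umk U (fun k => (F k).M) (fun k => (F k).Ψ (.pos (i k))) = Ψ (.pos p) := by
    intro p
    obtain ⟨z, hz⟩ := umk_surj U _ (Ψ (.pos p))
    have h1 := (u2 _ _ _ _ c (Ψ (.pos p))).2 ⟨_, rfl, (s_pos μ _).2 ⟨p, rfl⟩⟩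
    rw [← hz, u1.los] at h1
    refine ⟨fun k => if h : ∃ q, (F k).Ψ (.pos q) = z k then h.choose else 0, ?_⟩
    rw [← hz, umk_eq]
    filter_upwards [h1] with k hk
    obtain ⟨x, hx, hp⟩ := (u2 _ _ _ _ (F k).ch _).1 hk
    obtain ⟨q, rfl⟩ := (s_pos _ _).1 hp
    have h : ∃ q, (F k).Ψ (.pos q) = z k := ⟨q, hx⟩
    rw [dif_pos h]
    exact h.choose_spec
  have hb : ∀ i : ∀ k, Fin ((F k).n + 2), ∃ p,
      umk U (fun k => (F k).M) (fun k => (F k).Ψ (.pos (i k))) = Ψ (.pos p) := by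
    intro i
    have h1 := (u1.los U (fun k => (F k).M) (fun k => (F k).Ψ (.pos (i k)))).2
      (Eventually.of_forall fun k => (u2 _ _ _ _ (F k).ch _).2 ⟨_, rfl, (s_pos _ _).2 ⟨_, rfl⟩⟩)
    obtain ⟨x, hx, hp⟩ := (u2 _ _ _ _ c _).1 h1
    obtain ⟨q, rfl⟩ := (s_pos _ _).1 hp
    exact ⟨q, hx.symm⟩
  have hc : ∀ (i i' : ∀ k, Fin ((F k).n + 2)) p p',
      umk U (fun k => (F k).M) (fun k => (F k).Ψ (.pos (i k))) = Ψ (.pos p) →
      umk U (fun k => (F k).M) (fun k => (F k).Ψ (.pos (i' k))) = Ψ (.pos p') →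
      (p ≤ p' ↔ ∀ᶠ k in U, (i k : ℕ) ≤ i' k) := by
    intro i i' p p' h h'
    have hE : UD2 (fun (M : Md L) x y => ∃ e, I.E M e x y) :=
      UD.ex (I.udE.app none (some 0) (some 1))
    have h1 := c.2.2 (.pos p) (.pos p')
    rw [← h, ← h', hE.los] at h1
    refine h1.symm.trans (eventually_congr (Eventually.of_forall fun k => ?_))
    exact (F k).ch.2.2 _ _
  choose f hf using ha
  let g : P → {a : Germ (U : Filter ℕ) ℕ //
        a < ((fun k => (F k).n + 2 : ℕ → ℕ) : Germ (U : Filter ℕ) ℕ)} := fun p =>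
    ⟨(fun k => (f p k : ℕ) : ℕ → ℕ), Germ.coe_lt.2 (Eventually.of_forall fun k => (f p k).2)⟩
  have hg : ∀ (i : ∀ k, Fin ((F k).n + 2)) (p : P),
        umk U (fun k => (F k).M) (fun k => (F k).Ψ (.pos (i k))) = Ψ (.pos p) →
        (g p).1 = (fun k => (i k : ℕ) : ℕ → ℕ) := by
    intro i p h
    refine Germ.coe_eq.2 ?_
    filter_upwards [(hc _ _ _ _ h (hf p)).1 le_rfl, (hc _ _ _ _ (hf p) h).1 le_rfl] with k h1 h2
    exact le_antisymm h2 h1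
  have hm : StrictMono g := by
    intro p q hpq
    refine lt_of_not_ge fun h => hpq.not_ge ((hc _ _ _ _ (hf q) (hf p)).2 ?_)
    exact Germ.coe_le.1 h
  have hs : Function.Surjective g := by
    rintro ⟨b, hb'⟩
    induction b using Germ.inductionOn with
    | _ b =>
    obtain ⟨p, hp⟩ := hb (fun k => if h : b k < (F k).n + 2 then ⟨b k, h⟩ else 0)
    refine ⟨p, Subtype.ext ((hg _ p hp).trans (Germ.coe_eq.2 ?_))⟩
    filter_upwards [Germ.coe_lt.1 hb'] with k hk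
    simp only [dif_pos hk]
  exact ⟨hm.orderIsoOfSurjective g hs, hg⟩

theorem ultra_inf (U : Ultrafilter ℕ) (F : ℕ → FM I) (hF : ∀ m, ∀ᶠ k in U, m ≤ (F k).n)
    {P : Type} [LinearOrder P] [BoundedOrder P] [Nontrivial P]
    {μ : P → Fin 3} {Ψ : Nd P → ultra U (fun k => (F k).M)} (c : I.Ch _ (StdR μ) Ψ) :
    ¬ ∃ m, Up m (⊤ : P) := by
  rintro ⟨m, hm⟩
  obtain ⟨n, -, ⟨o⟩⟩ := fin_of_up hm
  obtain ⟨cd, -⟩ := ultra_coord U F c
  have : Finite P := Finite.of_equiv _ o.toEquiv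
  have := Finite.of_equiv _ cd.toEquiv
  refine (not_finite_iff_infinite.2 (inferInstance : Infinite ℕ)) (Finite.of_injective (fun m : ℕ => (⟨(fun _ => m : ℕ → ℕ),
    Germ.coe_lt.2 ((hF m).mono fun k hk => by omega)⟩ : {a : Germ (U : Filter ℕ) ℕ //
        a < ((fun k => (F k).n + 2 : ℕ → ℕ) : Germ (U : Filter ℕ) ℕ)})) fun a b hab => ?_)
  exact (Germ.coe_eq.1 (congrArg Subtype.val hab)).exists.choose_spec

theorem ultra_st (U : Ultrafilter ℕ) (F : ℕ → FM I) {P : Type} [LinearOrder P] [BoundedOrder P]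
    [Nontrivial P] {μ : P → Fin 3} {Ψ : Nd P → ultra U (fun k => (F k).M)}
    (c : I.Ch _ (StdR μ) Ψ) (i : ∀ k, Fin ((F k).n + 2)) (κ : ℕ → Fin 3) (hκ : ∀ k, κ k ≠ 0) :
    ∃ p l, l ≠ 0 ∧ umk U (fun k => (F k).M) (fun k => (F k).Ψ (.pos (i k))) = Ψ (.pos p) ∧
      umk U (fun k => (F k).M) (fun k => (F k).Ψ (.lad (i k) ⊥ (κ k))) = Ψ (.lad p ⊥ l) := by
  obtain ⟨u1, u2⟩ := (gdSt I).spec
  have h1 := (u1.los U (fun k => (F k).M) (fun k => (F k).Ψ (.lad (i k) ⊥ (κ k)))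
    (fun k => (F k).Ψ (.pos (i k)))).2 (Eventually.of_forall fun k =>
      (u2 _ _ _ _ (F k).ch _ _).2 ⟨_, _, rfl, rfl, (s_st _ _ _).2 ⟨_, _, rfl, rfl, hκ k⟩⟩)
  obtain ⟨x, y, hx, hy, hp⟩ := (u2 _ _ _ _ c _ _).1 h1
  obtain ⟨p, l, rfl, rfl, hl⟩ := (s_st _ _ _).1 hp
  exact ⟨p, l, hl, hy.symm, hx.symm⟩

theorem exists_perm {P : Type} (p q : P) (l l' m m' : Fin 3) (hl : l ≠ 0) (hl' : l' ≠ 0)
    (hm : m ≠ 0) (hm' : m' ≠ 0) (h : p = q → l = l' ∧ m = m') :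
    ∃ α : P → Equiv.Perm (Fin 3), (∀ r, α r 0 = 0) ∧ α p l = m ∧ α q l' = m' ∧
      ∀ r, r ≠ p → r ≠ q → α r = 1 := by
  classical
  refine ⟨fun r => if r = p then Equiv.swap l m else if r = q then Equiv.swap l' m' else 1,
    fun r => ?_, by simp, ?_, fun r h1 h2 => by simp [h1, h2]⟩
  · dsimp only
    split_ifs
    · exact Equiv.swap_apply_of_ne_of_ne hl.symm hm.symm
    · exact Equiv.swap_apply_of_ne_of_ne hl'.symm hm'.symm
    · rfl
  · by_cases hq : q = p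
    · obtain ⟨rfl, rfl⟩ := h hq.symm
      simp [hq]
    · simp [hq]

def ins (c i : ℕ) : ℕ := if i < c then i else i + 1

theorem move {Q : ∀ M : Md L, M → M → Prop} (hQ : UD2 Q) :
    ∃ N, ∀ (p p' : FPt I) (c : ℕ), p'.n = p.n + 1 → c + N ≤ p.n + 2 →
      ((p.i : ℕ) < c ∨ c + N ≤ p.i) → ((p.j : ℕ) < c ∨ c + N ≤ p.j) →
      (p'.i : ℕ) = ins c p.i → (p'.j : ℕ) = ins c p.j → (Q p.M p.x p.y ↔ Q p'.M p'.x p'.y) := by
  by_contra hcon
  push Not at hcon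
  choose p p' c h1 h2 h3 h4 h5 h6 h7 using hcon
  let U : Ultrafilter ℕ := Ultrafilter.of atTop
  have hU : ∀ m : ℕ, ∀ᶠ k : ℕ in (U : Filter ℕ), m ≤ k := fun m => Ultrafilter.of_le atTop (eventually_ge_atTop m)
  let F : ℕ → FM I := fun k => (p k).toFM
  let F' : ℕ → FM I := fun k => (p' k).toFM
  have hM : IsMod I (ultra U fun k => (F k).M) := ((udIsMod I).los U _).2
    (Eventually.of_forall fun k => isMod_of_chart (F k).eta (F k).ch)
  have hM' : IsMod I (ultra U fun k => (F' k).M) := ((udIsMod I).los U _).2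
    (Eventually.of_forall fun k => isMod_of_chart (F' k).eta (F' k).ch)
  obtain ⟨P, _, _, _, μ, Ψ, ch⟩ := hM.chart
  obtain ⟨P', _, _, _, μ', Ψ', ch'⟩ := hM'.chart
  obtain ⟨cd, hcd⟩ := ultra_coord U F ch
  obtain ⟨cd', hcd'⟩ := ultra_coord U F' ch'
  obtain ⟨h, hh⟩ := germ_iso U c (fun k => (F k).n + 2)
    (fun m => (hU m).mono fun k hk => by have := h2 k; simp only [F]; omega)
  have en : ((fun k => (F k).n + 2 + 1 : ℕ → ℕ) : Germ (U : Filter ℕ) ℕ) =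
      (fun k => (F' k).n + 2 : ℕ → ℕ) := by
    congr 1; funext k; simp only [F, F', h1]
  let o : P ≃o P' := cd.trans (h.trans ((OrderIso.setCongr _ _ (by rw [← en])).trans cd'.symm))
  have ho : ∀ (i : ∀ k, Fin ((F k).n + 2)) (i' : ∀ k, Fin ((F' k).n + 2)) r r',
      (∀ k, (i k : ℕ) < c k ∨ c k + k ≤ i k) → (∀ k, (i' k : ℕ) = ins (c k) (i k)) →
      umk U (fun k => (F k).M) (fun k => (F k).Ψ (.pos (i k))) = Ψ (.pos r) →
      umk U (fun k => (F' k).M) (fun k => (F' k).Ψ (.pos (i' k))) = Ψ' (.pos r') → o r = r' := by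
    intro i i' r r' a1 a2 a3 a4
    have b1 := hcd i r a3
    have b2 := hcd' i' r' a4
    apply cd'.injective
    apply Subtype.ext
    have b3 : (cd' (o r)).1 = (h (cd r)).1 := by simp [o]; rfl
    have b4 : cd r = ⟨_, b1 ▸ (cd r).2⟩ := Subtype.ext b1
    rw [b3, b2, b4]
    rcases U.eventually_or.1 (Eventually.of_forall a1) with b | b
    · rw [(hh _ _).1 b]
      refine Germ.coe_eq.2 (b.mono fun k hk => ?_)
      simp only [a2, ins, if_pos hk]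
    · rw [(hh _ _).2 fun m => by filter_upwards [b, hU m] with k e1 e2; omega]
      refine Germ.coe_eq.2 (b.mono fun k hk => ?_)
      have : ¬ (i k : ℕ) < c k := by omega
      simp only [a2, ins, if_neg this]
  obtain ⟨r, l, hl, r1, r2⟩ := ultra_st U F ch (fun k => (p k).i) (fun k => (p k).κ)
    (fun k => (p k).hκ)
  obtain ⟨s, l', hl', s1, s2⟩ := ultra_st U F ch (fun k => (p k).j) (fun k => (p k).κ')
    (fun k => (p k).hκ')
  obtain ⟨r', m, hm, r1', r2'⟩ := ultra_st U F' ch' (fun k => (p' k).i) (fun k => (p' k).κ)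
    (fun k => (p' k).hκ)
  obtain ⟨s', m', hm', s1', s2'⟩ := ultra_st U F' ch' (fun k => (p' k).j) (fun k => (p' k).κ')
    (fun k => (p' k).hκ')
  have er := ho _ _ _ _ h3 h5 r1 r1'
  have es := ho _ _ _ _ h4 h6 s1 s1'
  have hsame : ∀ (G : ℕ → FPt I) {P : Type} [LinearOrder P] [BoundedOrder P] {μ : P → Fin 3}
      {Ψ : Nd P → ultra U (fun k => (G k).M)} (_ : I.Ch _ (StdR μ) Ψ) (r : P) l l',
      umk U (fun k => (G k).M) (fun k => (G k).Ψ (.pos (G k).i)) = Ψ (.pos r) →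
      umk U (fun k => (G k).M) (fun k => (G k).Ψ (.pos (G k).j)) = Ψ (.pos r) →
      umk U (fun k => (G k).M) (fun k => (G k).Ψ (.lad (G k).i ⊥ (G k).κ)) = Ψ (.lad r ⊥ l) →
      umk U (fun k => (G k).M) (fun k => (G k).Ψ (.lad (G k).j ⊥ (G k).κ')) = Ψ (.lad r ⊥ l') →
      l = l' := by
    intro G P _ _ μ Ψ ch r l l' a1 a2 a3 a4
    have b1 := (umk_eq _ _ _ _).1 (a1.trans a2.symm)
    have b2 : Ψ (.lad r ⊥ l) = Ψ (.lad r ⊥ l') := by
      rw [← a3, ← a4, umk_eq]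
      refine b1.mono fun k hk => ?_
      have e : (G k).i = (G k).j := by simpa using (G k).ch.1 hk
      rw [e, (G k).hij e]
    simpa using ch.1 b2
  obtain ⟨α, α0, α1, α2, -⟩ := exists_perm r s l l' m m' hl hl' hm hm' (by
    rintro rfl
    obtain rfl : r' = s' := er.symm.trans es
    exact ⟨hsame p ch r l l' r1 s1 r2 s2, hsame p' ch' r' m m' r1' s1' r2' s2'⟩)
  obtain ⟨g, hg⟩ := mod_iso hM.1 hM'.1 ch ch' o α α0 (Or.inl (ultra_inf U F
    (fun m => (hU (m + 2)).mono fun k hk => by have := h2 k; simp only [F]; omega) ch))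
  have e1 := hQ.iso g (Ψ (.lad r ⊥ l)) (Ψ (.lad s ⊥ l'))
  rw [hg, hg, α1, α2, er, es, ← r2, ← s2, ← r2', ← s2', hQ.los, hQ.los] at e1
  have e2 : ∀ᶠ k in U, (Q (p k).M (p k).x (p k).y ↔ Q (p' k).M (p' k).x (p' k).y) := by
    by_cases hq : ∀ᶠ k in U, Q (p k).M (p k).x (p k).y
    · filter_upwards [hq, e1.2 hq] with k a b using iff_of_true a b
    · filter_upwards [Ultrafilter.eventually_not.2 hq,
        Ultrafilter.eventually_not.2 (mt e1.1 hq)] with k a b using iff_of_false a b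
  obtain ⟨k, hk⟩ := e2.exists
  have := h7 k
  tauto

theorem exists_fpt (I : Iface L) (n : ℕ) (μ : Fin (n + 2) → Fin 3) (i j : Fin (n + 2)) :
    ∃ p : FPt I, p.n = n ∧ (p.i : ℕ) = i ∧ (p.j : ℕ) = j := by
  obtain ⟨M, Ψ, h, c⟩ := exists_model I μ
  exact ⟨⟨⟨n, M, μ, Ψ, h, c⟩, i, j, 1, 1, by decide, by decide, fun _ => rfl⟩, rfl, rfl, rfl⟩

theorem chain {Q : ∀ M : Md L, M → M → Prop} (hQ : UD2 Q) :
    ∃ N, ∀ (p p' : FPt I) (c m : ℕ), p'.n = p.n + (m + 1) → c + N ≤ p.n + 2 →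
      ((p.i : ℕ) < c ∧ (p'.i : ℕ) = p.i ∨ c + N ≤ p.i ∧ (p'.i : ℕ) = p.i + (m + 1)) →
      ((p.j : ℕ) < c ∧ (p'.j : ℕ) = p.j ∨ c + N ≤ p.j ∧ (p'.j : ℕ) = p.j + (m + 1)) →
      (Q p.M p.x p.y ↔ Q p'.M p'.x p'.y) := by
  obtain ⟨N, hN⟩ := move (I := I) hQ
  refine ⟨N, fun p p' c m => ?_⟩
  induction m generalizing p' with
  | zero =>
    intro h1 h2 h3 h4
    refine hN p p' c h1 h2 (by omega) (by omega) ?_ ?_ <;> unfold ins <;> split_ifs <;> omega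
  | succ m ih =>
    intro h1 h2 h3 h4
    have hi := p.i.2
    have hj := p.j.2
    obtain ⟨q, q1, q2, q3⟩ := exists_fpt I (p.n + (m + 1)) (fun _ => 0)
      ⟨if (p.i : ℕ) < c then p.i else p.i + (m + 1), by split_ifs <;> omega⟩
      ⟨if (p.j : ℕ) < c then p.j else p.j + (m + 1), by split_ifs <;> omega⟩
    simp only at q2 q3
    refine (ih q q1 h2 (by split_ifs at q2 <;> omega) (by split_ifs at q3 <;> omega)).trans ?_
    refine hN q p' c (by omega) (by omega) (by split_ifs at q2 <;> omega)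
      (by split_ifs at q3 <;> omega) ?_ ?_
    · unfold ins; split_ifs at q2 ⊢ <;> omega
    · unfold ins; split_ifs at q3 ⊢ <;> omega

/-- addresses -/
def Ad (a : ℤ) (n i : ℕ) : Prop := (0 ≤ a ∧ (i : ℤ) = a) ∨ (a < 0 ∧ (i : ℤ) = n + 2 + a)

def Ev (I : Iface L) (Q : ∀ M : Md L, M → M → Prop) (a b : ℤ) : Prop :=
  ∃ N, ∀ p : FPt I, N ≤ p.n → Ad a p.n p.i → Ad b p.n p.j → Q p.M p.x p.y

theorem exists_ad (a : ℤ) (n : ℕ) (hn : a.natAbs ≤ n) : ∃ i : Fin (n + 2), Ad a n i := by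
  by_cases h : 0 ≤ a
  · exact ⟨⟨a.toNat, by omega⟩, Or.inl ⟨h, by simp; omega⟩⟩
  · exact ⟨⟨(n + 2 + a).toNat, by omega⟩, Or.inr ⟨by omega, by simp; omega⟩⟩

theorem exists_fpt_ad (I : Iface L) (a b : ℤ) (n : ℕ) (ha : a.natAbs ≤ n) (hb : b.natAbs ≤ n) :
    ∃ p : FPt I, p.n = n ∧ Ad a p.n p.i ∧ Ad b p.n p.j := by
  obtain ⟨i, hi⟩ := exists_ad a n ha
  obtain ⟨j, hj⟩ := exists_ad b n hb
  obtain ⟨p, h1, h2, h3⟩ := exists_fpt I n (fun _ => 0) i j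
  exact ⟨p, h1, by rw [h2, h1]; exact hi, by rw [h3, h1]; exact hj⟩

theorem ev_dich {Q : ∀ M : Md L, M → M → Prop} (hQ : UD2 Q) (a b : ℤ) :
    Ev I Q a b ∨ Ev I (fun M x y => ¬ Q M x y) a b := by
  obtain ⟨N, hN⟩ := chain (I := I) hQ
  obtain ⟨p, h1, h2, h3⟩ := exists_fpt_ad I a b (2 * (a.natAbs + b.natAbs) + N + 1) (by omega)
    (by omega)
  have key : ∀ p' : FPt I, p.n + 1 ≤ p'.n → Ad a p'.n p'.i → Ad b p'.n p'.j →
      (Q p.M p.x p.y ↔ Q p'.M p'.x p'.y) := by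
    intro p' k1 k2 k3
    refine hN p p' (a.natAbs + b.natAbs + 1) (p'.n - p.n - 1) (by omega) (by omega) ?_ ?_
    · unfold Ad at h2 k2; omega
    · unfold Ad at h3 k3; omega
  by_cases hq : Q p.M p.x p.y
  · exact Or.inl ⟨p.n + 1, fun p' k1 k2 k3 => (key p' k1 k2 k3).1 hq⟩
  · exact Or.inr ⟨p.n + 1, fun p' k1 k2 k3 => mt (key p' k1 k2 k3).2 hq⟩

theorem ev_class {Q : ∀ M : Md L, M → M → Prop} (hQ : UD2 Q) :
    ∃ N, ∀ p : FPt I, N ≤ p.n → Q p.M p.x p.y →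
      ∃ a b, Ad a p.n p.i ∧ Ad b p.n p.j ∧ Ev I Q a b := by
  obtain ⟨N, hN⟩ := chain (I := I) hQ
  refine ⟨3 * N, fun p hp hq => ?_⟩
  obtain ⟨c, c1, c2, c3⟩ : ∃ c, c + N ≤ p.n + 2 ∧ ((p.i : ℕ) < c ∨ c + N ≤ p.i) ∧
      ((p.j : ℕ) < c ∨ c + N ≤ p.j) := by
    by_cases h0 : N ≤ p.i ∧ N ≤ p.j
    · exact ⟨0, by omega, by omega, by omega⟩
    by_cases h1 : ((p.i : ℕ) < N ∨ N + N ≤ p.i) ∧ ((p.j : ℕ) < N ∨ N + N ≤ p.j)
    · exact ⟨N, by omega, h1.1, h1.2⟩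
    · exact ⟨2 * N, by omega, by omega, by omega⟩
  have hi := p.i.2
  have hj := p.j.2
  refine ⟨if (p.i : ℕ) < c then p.i else p.i - (p.n + 2), if (p.j : ℕ) < c then p.j else
    p.j - (p.n + 2), ?_, ?_, p.n + 1, fun p' k1 k2 k3 => ?_⟩
  · unfold Ad; split_ifs <;> omega
  · unfold Ad; split_ifs <;> omega
  · refine (hN p p' c (p'.n - p.n - 1) (by omega) c1 ?_ ?_).1 hq
    · unfold Ad at k2; split_ifs at k2 <;> omega
    · unfold Ad at k3; split_ifs at k3 <;> omega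

theorem ev_not {Q : ∀ M : Md L, M → M → Prop} {a b : ℤ} (h : Ev I Q a b)
    (h' : Ev I (fun M x y => ¬ Q M x y) a b) : False := by
  obtain ⟨N, hN⟩ := h
  obtain ⟨N', hN'⟩ := h'
  obtain ⟨p, h1, h2, h3⟩ := exists_fpt_ad I a b (a.natAbs + b.natAbs + N + N') (by omega)
    (by omega)
  exact hN' p (by omega) h2 h3 (hN p (by omega) h2 h3)

theorem ev_cofin {Q : ∀ M : Md L, M → M → Prop} (hQ : UD2 Q) :
    {a | Ev I Q a a}.Finite ∨ {a | Ev I Q a a}ᶜ.Finite := by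
  have main : ∀ {Q : ∀ M : Md L, M → M → Prop}, UD2 Q → ∃ N : ℕ, ∀ N' : ℕ, N ≤ N' →
      Ev I Q N' N' → {a | Ev I Q a a}ᶜ.Finite := by
    intro Q hQ
    obtain ⟨N0, hN⟩ := chain (I := I) hQ
    refine ⟨N0, fun N hN0 ⟨K, hK⟩ => ?_⟩
    refine (Set.finite_Icc (-(K + N + 2 : ℤ)) (N : ℤ)).subset fun a ha => ?_
    by_contra hcon
    apply ha
    rcases ev_dich (I := I) hQ a a with h | ⟨K', hK'⟩
    · exact h
    exfalso
    rw [Set.mem_Icc, not_and_or, not_le, not_le] at hcon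
    rcases hcon with h | h
    · obtain ⟨p, h1, h2, h3⟩ := exists_fpt_ad I N N (a.natAbs + N - 2) (by omega) (by omega)
      obtain ⟨p', h1', h2', h3'⟩ := exists_fpt_ad I a a (p.n + (K' + a.natAbs + 1)) (by omega)
        (by omega)
      refine hK' p' (by omega) h2' h3' ((hN p p' 0 (K' + a.natAbs) h1' (by omega) ?_ ?_).1
        (hK p (by omega) h2 h3))
      · unfold Ad at h2 h2'; omega
      · unfold Ad at h3 h3'; omega
    · obtain ⟨p, h1, h2, h3⟩ := exists_fpt_ad I N N (K + K' + N) (by omega) (by omega)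
      obtain ⟨p', h1', h2', h3'⟩ := exists_fpt_ad I a a (p.n + (a.natAbs - N - 1 + 1)) (by omega)
        (by omega)
      refine hK' p' (by omega) h2' h3' ((hN p p' 0 (a.natAbs - N - 1) h1' (by omega) ?_ ?_).1
        (hK p (by omega) h2 h3))
      · unfold Ad at h2 h2'; omega
      · unfold Ad at h3 h3'; omega
  obtain ⟨N, hN⟩ := main hQ
  obtain ⟨N', hN'⟩ := main (Q := fun M x y => ¬ Q M x y) (UD.not hQ)
  rcases ev_dich (I := I) hQ (N + N' : ℕ) (N + N' : ℕ) with h | h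
  · exact Or.inr (hN _ (by omega) h)
  · exact Or.inl ((hN' _ (by omega) h).subset fun a ha ha' => ev_not ha ha')

end Pool.Agent.P.MP_13cc81_lc
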