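import Pool.Agent.P.MP_13cc81_lc.Df
import Pool.Agent.P.MP_13cc81_lc.Move

/-! The definable ultrafilter at infinity of the finite ladder models. -/

namespace Pool.Agent.P.MP_13cc81_lc

open FirstOrder FirstOrder.Language FirstOrder.Language.Structure Lind Filter

variable {L : FirstOrder.Language.{0, 0}} (I : Iface L)

def gV {X : Type} (R : X → X → Prop) (a : ℤ) (x : X) : Prop := ∃ i, gRow R a i ∧ gSt R x i
def gVall {X : Type} (R : X → X → Prop) (x : X) : Prop := ∃ i, gSt R x i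

theorem gdV (a : ℤ) : GD1 I (fun _ R => gV R a) :=
  GD.ex (GD.and ((gdRow I a).app none) ((gdSt I).app (some 0) none))

theorem gdVall : GD1 I (fun _ R => gVall R) := GD.ex ((gdSt I).app (some 0) none)

def vP (a : ℤ) : ∀ M : Md L, M → Prop := Lf1 I (fun _ R => gV R a)
def vAllP : ∀ M : Md L, M → Prop := Lf1 I (fun _ R => gVall R)
def rhoP (m : ℕ) : ∀ M : Md L, M → Prop := Lf1 I (fun _ R => gRho R m)

theorem udv (a : ℤ) : UD1 (vP I a) := (gdV I a).spec.1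
theorem udvAll : UD1 (vAllP I) := (gdVall I).spec.1
theorem udrho (m : ℕ) : UD1 (rhoP I m) := (gdRho I m).spec.1

variable {I}

theorem dn_fin_bot {n : ℕ} (m : ℕ) : Dn m (⊥ : Fin (n + 2)) ↔ m = n + 1 := by
  rw [dn_fin]
  exact Iff.of_eq (congrArg (· = n + 1) (Nat.zero_add m))

theorem vP_fm (F : FM I) (a : ℤ) (z : F.M) : vP I a F.M z ↔
    ∃ (i : Fin (F.n + 2)) (κ : Fin 3), κ ≠ 0 ∧ Ad a F.n i ∧ F.Ψ (.lad i ⊥ κ) = z := by
  rw [vP, (gdV I a).spec.2 _ _ _ _ F.ch]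
  have hrow : ∀ i : Fin (F.n + 2), gRow (StdR F.μ) a (.pos i) ↔ Ad a F.n i := by
    intro i
    cases a with
    | ofNat m =>
      simp only [gRow, s_up, Nd.pos.injEq, exists_eq_left', up_fin, Ad, Int.ofNat_eq_natCast]
      omega
    | negSucc m =>
      simp only [gRow, s_dn, Nd.pos.injEq, exists_eq_left', dn_fin, Ad, Int.negSucc_eq]
      omega
  simp only [gV, s_st]
  constructor
  · rintro ⟨_, rfl, _, h, i, k, rfl, rfl, hk⟩
    exact ⟨i, k, hk, (hrow i).1 h, rfl⟩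
  · rintro ⟨i, k, hk, h, rfl⟩
    exact ⟨_, rfl, _, (hrow i).2 h, i, k, rfl, rfl, hk⟩

theorem vAllP_fm (F : FM I) (z : F.M) : vAllP I F.M z ↔
    ∃ (i : Fin (F.n + 2)) (κ : Fin 3), κ ≠ 0 ∧ F.Ψ (.lad i ⊥ κ) = z := by
  rw [vAllP, (gdVall I).spec.2 _ _ _ _ F.ch]
  simp only [gVall, s_st]
  constructor
  · rintro ⟨_, rfl, _, i, k, rfl, rfl, hk⟩
    exact ⟨i, k, hk, rfl⟩
  · rintro ⟨i, k, hk, rfl⟩
    exact ⟨_, rfl, _, i, k, rfl, rfl, hk⟩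

theorem vP_zero {M : Md L} {P : Type} [LinearOrder P] [BoundedOrder P] [Nontrivial P]
    {μ : P → Fin 3} {Ψ : Nd P → M} (c : I.Ch M (StdR μ) Ψ) (z : M) (h : vP I 0 M z) :
    ∃ κ, κ ≠ 0 ∧ Ψ (.lad ⊥ ⊥ κ) = z := by
  rw [vP, (gdV I 0).spec.2 _ _ _ _ c] at h
  obtain ⟨_, rfl, _, h, h'⟩ := h
  obtain ⟨i, k, rfl, rfl, hk⟩ := (s_st _ _ _).1 h'
  have : Nd.pos i = Nd.pos ⊥ := (s_bot μ _).1 h
  obtain rfl : i = ⊥ := by simpa using this
  exact ⟨k, hk, rfl⟩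

theorem rhoP_st {M : Md L} {P : Type} [LinearOrder P] [BoundedOrder P] [Nontrivial P]
    {μ : P → Fin 3} {Ψ : Nd P → M} (c : I.Ch M (StdR μ) Ψ) (m : ℕ) (i : P) (κ : Fin 3) :
    rhoP I m M (Ψ (.lad i ⊥ κ)) ↔ κ = μ i ∧ Dn m (⊥ : P) := by
  rw [rhoP, (gdRho I m).spec.2 _ _ _ _ c]
  simp only [c.1.eq_iff, exists_eq_left, s_rho, Nd.lad.injEq]
  constructor
  · rintro ⟨_, _, ⟨rfl, rfl, rfl⟩, h⟩; exact ⟨rfl, h⟩
  · rintro ⟨rfl, h⟩; exact ⟨_, _, ⟨rfl, rfl, rfl⟩, h⟩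

theorem fm_split (F : FM I) (a : ℤ) (i : Fin (F.n + 2)) (hi : Ad a F.n i) (hμ : F.μ i ≠ 0) :
    ∃ x y, vP I a F.M x ∧ vP I a F.M y ∧ rhoP I (F.n + 1) F.M x ∧ ¬ rhoP I (F.n + 1) F.M y := by
  obtain ⟨κ, h1, h2⟩ : ∃ κ : Fin 3, κ ≠ 0 ∧ κ ≠ F.μ i := by
    generalize F.μ i = t
    revert t; decide
  refine ⟨_, _, (vP_fm F a _).2 ⟨i, _, hμ, hi, rfl⟩, (vP_fm F a _).2 ⟨i, κ, h1, hi, rfl⟩,
    (rhoP_st F.ch _ _ _).2 ⟨rfl, (dn_fin _ _).2 ?_⟩, fun h => h2 ((rhoP_st F.ch _ _ _).1 h).1⟩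
  exact Nat.zero_add _

theorem fm_of_up {M : Md L} {P : Type} [LinearOrder P] [BoundedOrder P] [Nontrivial P]
    {μ : P → Fin 3} {Ψ : Nd P → M} (c : I.Ch M (StdR μ) Ψ) (h : ∃ m, Up m (⊤ : P)) :
    ∃ (n : ℕ) (μ' : Fin (n + 2) → Fin 3) (Ψ' : Nd (Fin (n + 2)) → M), I.Ch M (StdR μ') Ψ' := by
  obtain ⟨m, hm⟩ := h
  obtain ⟨n, -, ⟨o⟩⟩ := fin_of_up hm
  obtain ⟨e, he, -⟩ := std_iso (fun i => μ (o i)) μ o (fun _ => 1) (fun _ => rfl)
    (Or.inr fun _ => rfl)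
  exact ⟨n, _, _, Chart.comp c e he⟩

theorem no_split {M : Md L} (hM : I.eta M) {P : Type} [LinearOrder P] [BoundedOrder P]
    [Nontrivial P] {μ : P → Fin 3} {Ψ : Nd P → M} (c : I.Ch M (StdR μ) Ψ)
    (h : (¬ ∃ m, Up m (⊤ : P)) ∨ μ ⊥ = 0) {ψ : ∀ M : Md L, M → Prop} (hψ : UD1 ψ) {x y : M}
    (hx : vP I 0 M x) (hy : vP I 0 M y) (h1 : ψ M x) : ψ M y := by
  obtain ⟨κ, hκ, rfl⟩ := vP_zero c x hx
  obtain ⟨κ', hκ', rfl⟩ := vP_zero c y hy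
  obtain ⟨α, α0, α1, -, α3⟩ := exists_perm (⊥ : P) ⊥ κ κ κ' κ' hκ hκ hκ' hκ' (fun _ => ⟨rfl, rfl⟩)
  obtain ⟨g, hg⟩ := mod_iso hM hM c c (OrderIso.refl P) α α0 (h.imp_right fun h i => by
    by_cases hi : i = ⊥
    · subst hi; simp [h, α0]
    · simp [α3 i hi hi])
  have := (hψ.iso g _).2 h1
  rwa [hg, α1] at this

variable (I)

def sig (m : ℕ) (M : Md L) : Prop :=
  IsMod I M ∧ ∃ x y, vP I 0 M x ∧ vP I 0 M y ∧ rhoP I m M x ∧ ¬ rhoP I m M y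

theorem udsig (m : ℕ) : UD0 (sig I m) := by
  unfold UD0 sig
  repeat' first | apply (udIsMod I).app | apply (udv I 0).app | apply (udrho I m).app | apply UD.and | apply UD.not | apply UD.ex

variable {I}

theorem sig_fm {m : ℕ} {M : Md L} (h : sig I m M) : ∃ F : FM I, F.M = M ∧ F.n + 1 = m := by
  obtain ⟨hM, x, y, hx, -, h1, -⟩ := h
  obtain ⟨P, _, _, _, μ, Ψ, c⟩ := hM.chart
  obtain ⟨κ, -, rfl⟩ := vP_zero c x hx
  obtain ⟨n, μ', Ψ', c'⟩ := fm_of_up c (dn_up ((rhoP_st c _ _ _).1 h1).2)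
  obtain ⟨κ', -, e⟩ := vP_zero c' _ hx
  rw [← e, rhoP_st c', dn_fin_bot] at h1
  exact ⟨⟨n, M, μ', Ψ', hM.1, c'⟩, rfl, h1.2.symm⟩

theorem sig_of_split {M : Md L} (hM : IsMod I M) {ψ : ∀ M : Md L, M → Prop} (hψ : UD1 ψ) {x y : M}
    (hx : vP I 0 M x) (hy : vP I 0 M y) (h1 : ψ M x) (h2 : ¬ ψ M y) : ∃ m, sig I m M := by
  obtain ⟨P, _, _, _, μ, Ψ, c⟩ := hM.chart
  by_cases h : ∃ m, Up m (⊤ : P)
  · obtain ⟨n, μ', Ψ', c'⟩ := fm_of_up c h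
    by_cases h' : μ' ⊥ = 0
    · exact absurd (no_split hM.1 c' (Or.inr h') hψ hx hy h1) h2
    · exact ⟨n + 1, hM, fm_split ⟨n, M, μ', Ψ', hM.1, c'⟩ 0 ⊥ (Or.inl ⟨le_rfl, rfl⟩) h'⟩
  · exact absurd (no_split hM.1 c (Or.inl h) hψ hx hy h1) h2

variable (I)

def Large (P : Md L → Prop) : Prop := ∃ N, ∀ F : FM I, N ≤ F.n → P F.M

variable {I}

theorem Large.and {P Q : Md L → Prop} (h : Large I P) (h' : Large I Q) :
    Large I (fun M => P M ∧ Q M) := by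
  obtain ⟨N, hN⟩ := h
  obtain ⟨N', hN'⟩ := h'
  exact ⟨N + N', fun F hF => ⟨hN F (by omega), hN' F (by omega)⟩⟩

theorem Large.mono {P Q : Md L → Prop} (h : Large I P) (h' : ∀ F : FM I, P F.M → Q F.M) :
    Large I Q := by
  obtain ⟨N, hN⟩ := h
  exact ⟨N, fun F hF => h' F (hN F hF)⟩

theorem exists_fm (I : Iface L) (n : ℕ) (μ : Fin (n + 2) → Fin 3) :
    ∃ (M : Md L) (Ψ : Nd (Fin (n + 2)) → M), I.eta M ∧ I.Ch M (StdR μ) Ψ := exists_model I μ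

theorem Large.exists {P : Md L → Prop} (h : Large I P) (K : ℕ) : ∃ F : FM I, K ≤ F.n ∧ P F.M := by
  obtain ⟨N, hN⟩ := h
  obtain ⟨M, Ψ, h1, h2⟩ := exists_fm I (N + K) (fun _ => 0)
  exact ⟨⟨_, M, _, Ψ, h1, h2⟩, by simp, hN ⟨_, M, _, Ψ, h1, h2⟩ (by simp)⟩

theorem large_dich {P : Md L → Prop} (h : UD0 P) : Large I P ∨ Large I (fun M => ¬ P M) := by
  rcases ev_dich (I := I) (Q := fun M _ _ => P M) h.app 0 0 with ⟨N, hN⟩ | ⟨N, hN⟩
  · exact Or.inl ⟨N, fun F hF => hN ⟨F, 0, 0, 1, 1, by decide, by decide, fun _ => rfl⟩ hF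
      (Or.inl ⟨le_rfl, rfl⟩) (Or.inl ⟨le_rfl, rfl⟩)⟩
  · exact Or.inr ⟨N, fun F hF => hN ⟨F, 0, 0, 1, 1, by decide, by decide, fun _ => rfl⟩ hF
      (Or.inl ⟨le_rfl, rfl⟩) (Or.inl ⟨le_rfl, rfl⟩)⟩

variable (I)

noncomputable def thS : Lind L := (udIsMod I).exists_S.choose
theorem thS_spec (M : Md L) : hold (thS I) M ↔ IsMod I M := (udIsMod I).exists_S.choose_spec.2 M
theorem thS_S : IsS (thS I) := (udIsMod I).exists_S.choose_spec.1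

noncomputable def vS (a : ℤ) : Lind L := (udv I a).exists_mem.choose
theorem vS_spec (a : ℤ) (M : Md L) (x : M) : mem (vS I a) M x ↔ vP I a M x :=
  (udv I a).exists_mem.choose_spec M x

def JJ (s : Lind L) : Prop := IsS s ∧ Sub s (thS I) ∧ Split (vS I 0) s

def UU (s : Lind L) : Prop :=
  IsS s ∧ ¬ ∃ s', (Sub s' s ∧ JJ I s') ∧ ∀ s'', Sub s'' s → JJ I s'' → Sub s'' s'

theorem dfJJ : Df1 (JJ I) := by
  unfold Df1 JJ
  repeat' first | apply Tm.var | apply Tm.const | apply dfS.app | apply dfSub.app | apply dfSplit.app | apply Df.and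

theorem dfUU : Df1 (UU I) := by
  unfold Df1 UU
  repeat' first | apply Tm.var | apply dfS.app | apply dfSub.app | apply (dfJJ I).app | apply Df.and | apply Df.not | apply Df.ex | apply Df.imp | apply Df.all

variable {I}

theorem sub_iff {s s' : Lind L} (h : IsS s) : Sub s s' ↔ ∀ M, hold s M → hold s' M :=
  ⟨fun h1 M h2 x => h1 M x (h2 x), fun h1 M x h2 => h1 M ((IsS.mem_iff h M x).1 h2) x⟩

theorem jj_iff {s : Lind L} : JJ I s ↔ IsS s ∧ ∃ N, ∀ M, hold s M → ∃ m < N, sig I m M := by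
  refine and_congr_right fun hs => ?_
  rw [sub_iff hs, split_iff]
  simp only [thS_spec, vS_spec]
  constructor
  · rintro ⟨h1, ψ, hψ, h2⟩
    by_contra hc
    push Not at hc
    choose M hM hM' using hc
    have hF : ∀ k, ∃ F : FM I, F.M = M k ∧ k ≤ F.n + 1 := by
      intro k
      obtain ⟨x, y, a1, a2, a3, a4⟩ := h2 _ (hM k)
      obtain ⟨m, hm⟩ := sig_of_split (h1 _ (hM k)) hψ a1 a2 a3 a4
      obtain ⟨F, e1, e2⟩ := sig_fm hm
      exact ⟨F, e1, not_lt.1 fun h => hM' k m (by omega) hm⟩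
    choose F hF1 hF2 using hF
    let U : Ultrafilter ℕ := Ultrafilter.of atTop
    have hU : ∀ m : ℕ, ∀ᶠ k : ℕ in (U : Filter ℕ), m ≤ k :=
      fun m => Ultrafilter.of_le atTop (eventually_ge_atTop m)
    have hh : hold s (ultra U fun k => (F k).M) := ((ud_hold s).los U _).2
      (Eventually.of_forall fun k => by rw [hF1]; exact hM k)
    obtain ⟨P, _, _, _, μ, Ψ, c⟩ := (h1 _ hh).chart
    obtain ⟨x, y, a1, a2, a3, a4⟩ := h2 _ hh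
    exact a4 (no_split (h1 _ hh).1 c (Or.inl (ultra_inf U F
      (fun m => (hU (m + 1)).mono fun k hk => by have := hF2 k; omega) c)) hψ a1 a2 a3)
  · rintro ⟨N, hN⟩
    refine ⟨fun M hM => (hN M hM).choose_spec.2.1, fun M x => ∃ m : Fin N, rhoP I m M x,
      UD.iOr fun m => (udrho I m).app 0, fun M hM => ?_⟩
    obtain ⟨m, hm, hs⟩ := hN M hM
    obtain ⟨F, rfl, e⟩ := sig_fm hs
    obtain ⟨-, x, y, a1, a2, a3, a4⟩ := hs
    refine ⟨x, y, a1, a2, ⟨⟨m, hm⟩, a3⟩, ?_⟩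
    rintro ⟨m', h'⟩
    obtain ⟨κ, -, rfl⟩ := vP_zero F.ch y a2
    rw [rhoP_st F.ch, dn_fin_bot] at a4 h'
    exact a4 ⟨h'.1, e.symm⟩

theorem uu_iff {s : Lind L} : UU I s ↔ IsS s ∧ Large I (hold s) := by
  refine and_congr_right fun hs => ?_
  constructor
  · intro h
    refine (large_dich (ud_hold s)).resolve_right ?_
    rintro ⟨N, hN⟩
    obtain ⟨s', h1, h2⟩ := UD0.exists_S (P := fun M => hold s M ∧ ∃ m : Fin (N + 1), sig I m M)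
      (UD.and (ud_hold s) (UD.iOr fun m => udsig I m))
    refine h ⟨s', ⟨(sub_iff h1).2 fun M hM => ((h2 M).1 hM).1, jj_iff.2 ⟨h1, N + 1, fun M hM => ?_⟩⟩,
      fun s'' a1 a2 => ?_⟩
    · obtain ⟨m, hm⟩ := ((h2 M).1 hM).2
      exact ⟨m, m.2, hm⟩
    · obtain ⟨b1, K, b2⟩ := jj_iff.1 a2
      refine (sub_iff b1).2 fun M hM => (h2 M).2 ⟨(sub_iff b1).1 a1 M hM, ?_⟩
      obtain ⟨m, -, hm⟩ := b2 M hM
      obtain ⟨F, rfl, e⟩ := sig_fm hm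
      have : F.n < N := not_le.1 fun h => hN F h ((sub_iff b1).1 a1 _ hM)
      exact ⟨⟨m, by omega⟩, hm⟩
  · rintro ⟨N, hN⟩ ⟨s', ⟨-, h1⟩, h2⟩
    obtain ⟨b1, K, b2⟩ := jj_iff.1 h1
    obtain ⟨s'', c1, c2⟩ := (udsig I (N + K + 1)).exists_S
    have c3 := h2 s'' ((sub_iff c1).2 fun M hM => by
      obtain ⟨F, rfl, e⟩ := sig_fm ((c2 M).1 hM)
      exact hN F (by omega)) (jj_iff.2 ⟨c1, N + K + 2, fun M hM => ⟨_, by omega, (c2 M).1 hM⟩⟩)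
    obtain ⟨M, Ψ, e1, e2⟩ := exists_fm I (N + K) (fun _ => 1)
    have c4 : sig I (N + K + 1) M := ⟨isMod_of_chart e1 e2,
      fm_split ⟨_, M, _, Ψ, e1, e2⟩ 0 0 (Or.inl ⟨le_rfl, rfl⟩) (by simp)⟩
    obtain ⟨m, hm, c5⟩ := b2 M ((sub_iff c1).1 c3 M ((c2 M).2 c4))
    obtain ⟨-, x, y, a1, -, a3, -⟩ := c5
    obtain ⟨κ, -, rfl⟩ := vP_zero e2 x a1
    rw [rhoP_st e2, dn_fin_bot] at a3
    have := a3.2
    omega

theorem Large.uu {P : Md L → Prop} (h : Large I P) (hP : UD0 P) :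
    ∃ s, UU I s ∧ ∀ M, hold s M ↔ P M := by
  obtain ⟨s, h1, h2⟩ := hP.exists_S
  exact ⟨s, uu_iff.2 ⟨h1, h.mono fun F hF => (h2 _).2 hF⟩, h2⟩

variable (I)

def Null (b : Lind L) : Prop := ∃ s, UU I s ∧ Emp (cap s b)

theorem dfNull : Df1 (Null I) := by
  unfold Df1 Null
  repeat' first | apply Tm.var | apply Tm.cap | apply (dfUU I).app | apply dfEmp.app | apply Df.and | apply Df.ex

def Le (b c : Lind L) : Prop := Null I (cap b (neg c))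

theorem dfLe : Df2 (Le I) := (dfNull I).app ((Tm.var 0).cap (Tm.var 1).neg)

def At (b : Lind L) : Prop := ¬ Null I b ∧ ∀ c, Le I b c ∨ Null I (cap b c)

theorem dfAt : Df1 (At I) := by
  unfold Df1 At
  repeat' first | apply Tm.var | apply Tm.cap | apply (dfLe I).app | apply (dfNull I).app | apply Df.and | apply Df.or | apply Df.not | apply Df.all

variable {I}

theorem null_iff {b : Lind L} : Null I b ↔ Large I (fun M => ∀ x, ¬ mem b M x) := by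
  constructor
  · rintro ⟨s, h1, h2⟩
    exact (uu_iff.1 h1).2.mono fun F hF x hx => h2 _ x ((mem_cap _ _ _ _).2 ⟨hF x, hx⟩)
  · intro h
    obtain ⟨s, h1, h2⟩ := h.uu (UD.all (UD.not ((ud_mem b).app none)))
    refine ⟨s, h1, fun M x hx => ?_⟩
    rw [mem_cap] at hx
    exact (h2 M).1 ((IsS.mem_iff h1.1 M x).1 hx.1) x hx.2

theorem le_iff {b c : Lind L} : Le I b c ↔ Large I (fun M => ∀ x, mem b M x → mem c M x) := by
  simp [Le, null_iff]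

theorem Le.trans {b c d : Lind L} (h : Le I b c) (h' : Le I c d) : Le I b d :=
  le_iff.2 (((le_iff.1 h).and (le_iff.1 h')).mono fun _ hF x hx => hF.2 x (hF.1 x hx))

theorem Le.refl (b : Lind L) : Le I b b := le_iff.2 ⟨0, fun _ _ _ h => h⟩

theorem At.le_of {b c : Lind L} (h : At I b) (hc : ¬ Null I c) (hcb : Le I c b) : Le I b c := by
  refine (h.2 c).resolve_right fun h' => hc (null_iff.2 ?_)
  exact ((null_iff.1 h').and (le_iff.1 hcb)).mono fun F hF x hx =>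
    hF.1 x ((mem_cap _ _ _ _).2 ⟨hF.2 x hx, hx⟩)

theorem At.congr {b c : Lind L} (h : At I c) (h1 : Le I b c) (h2 : Le I c b) : At I b := by
  refine ⟨fun h' => h.1 (null_iff.2 ?_), fun d => (h.2 d).imp h1.trans fun h' => null_iff.2 ?_⟩
  · exact ((null_iff.1 h').and (le_iff.1 h2)).mono fun F hF x hx => hF.1 x (hF.2 x hx)
  · refine ((null_iff.1 h').and (le_iff.1 h1)).mono fun F hF x hx => hF.1 x ?_
    rw [mem_cap] at hx ⊢
    exact ⟨hF.2 x hx.1, hx.2⟩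

end Pool.Agent.P.MP_13cc81_lc
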