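import Mathlib

/-! Ladder digraphs: definitions and standard models. -/

namespace Pool.Agent.P.MP_13cc81_lc

inductive Nd (P : Type) : Type
  | root : Nd P
  | pos (p : P) : Nd P
  | lad (i j : P) (k : Fin 3) : Nd P

open Nd

def StdR {P : Type} [LinearOrder P] [BoundedOrder P] (μ : P → Fin 3) : Nd P → Nd P → Prop
  | pos p, pos q => p ≤ q
  | lad i _ _, pos p => p = i
  | pos p, lad _ j _ => p = j
  | lad i j k, lad i' j' k' => (j = ⊥ ∧ j' = ⊥ ∧ i ≠ i') ∨ (i = i' ∧ j ⋖ j' ∧ k = k')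
  | lad i j k, root => (j = ⊥ ∧ k = 0) ∨ (j = ⊤ ∧ k = μ i)
  | pos _, root => False
  | root, _ => False

section G
variable {X : Type} (R : X → X → Prop)

def gPos (x : X) : Prop := R x x
def gRoot (x : X) : Prop := ∀ y, ¬ R x y
def gLad (x : X) : Prop := ¬ R x x ∧ ∃ y, R x y
def gBot (x : X) : Prop := gPos R x ∧ ∀ y, gPos R y → R x y
def gTop (x : X) : Prop := gPos R x ∧ ∀ y, gPos R y → R y x
def gCov (x y : X) : Prop :=
  gPos R x ∧ gPos R y ∧ R x y ∧ ¬ x = y ∧ ∀ z, gPos R z → R x z → R z y → z = x ∨ z = y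
def gMark (x : X) : Prop := ∃ o, gRoot R o ∧ R x o
def gIn (x i j : X) : Prop := gLad R x ∧ gPos R i ∧ gPos R j ∧ R x i ∧ R j x
def gNx (x y : X) : Prop := R x y ∧ ∃ i j j', gIn R x i j ∧ gIn R y i j'
def gUp : ℕ → X → Prop
  | 0, x => gBot R x
  | m + 1, x => ∃ y, gUp m y ∧ gCov R y x
def gDn : ℕ → X → Prop
  | 0, x => gTop R x
  | m + 1, x => ∃ y, gDn m y ∧ gCov R x y
def gRow : ℤ → X → Prop
  | Int.ofNat m, x => gUp R m x
  | Int.negSucc m, x => gDn R m x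
def gSt (x i : X) : Prop := (∃ b, gBot R b ∧ gIn R x i b) ∧ ¬ gMark R x
def gRho : ℕ → X → Prop
  | 0, x => gMark R x ∧ ∃ i t, gTop R t ∧ gIn R x i t
  | m + 1, x => ∃ y, gNx R x y ∧ gRho m y

def Th : Prop :=
  (∃ o, gRoot R o ∧ ∀ o', gRoot R o' → o' = o) ∧
  (∀ x y, gPos R x → gPos R y → R x y → R y x → x = y) ∧
  (∀ x y z, gPos R x → gPos R y → gPos R z → R x y → R y z → R x z) ∧
  (∀ x y, gPos R x → gPos R y → R x y ∨ R y x) ∧
  (∃ b t, gBot R b ∧ gTop R t ∧ ¬ b = t) ∧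
  (∀ p o, gPos R p → gRoot R o → ¬ R p o) ∧
  (∀ x, gLad R x → ∃ i j, gIn R x i j ∧ (∀ i', gPos R i' → R x i' → i' = i) ∧
    (∀ j', gPos R j' → R j' x → j' = j)) ∧
  (∀ i j, gPos R i → gPos R j → ∃ x0 x1 x2, ¬ x0 = x1 ∧ ¬ x0 = x2 ∧ ¬ x1 = x2 ∧
    ∀ x, (gIn R x i j ↔ x = x0 ∨ x = x1 ∨ x = x2)) ∧
  (∀ x y i j i' j', gIn R x i j → gIn R y i' j' →
    (¬ i = i' → (R x y ↔ gBot R j ∧ gBot R j')) ∧ (i = i' → R x y → gCov R j j')) ∧
  (∀ i j j', gPos R i → gCov R j j' →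
    (∀ x, gIn R x i j → ∃ y, (gIn R y i j' ∧ R x y) ∧ ∀ y', gIn R y' i j' ∧ R x y' → y' = y) ∧
    (∀ y, gIn R y i j' → ∃ x, (gIn R x i j ∧ R x y) ∧ ∀ x', gIn R x' i j ∧ R x' y → x' = x)) ∧
  (∀ x i j, gIn R x i j → gMark R x → gBot R j ∨ gTop R j) ∧
  (∀ i j, gPos R i → (gBot R j ∨ gTop R j) →
    ∃ x, (gIn R x i j ∧ gMark R x) ∧ ∀ x', gIn R x' i j ∧ gMark R x' → x' = x)

end G

section S
variable {P : Type} [LinearOrder P] [BoundedOrder P] (μ : P → Fin 3)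

theorem s_pos (x : Nd P) : gPos (StdR μ) x ↔ ∃ p, x = pos p := by
  cases x <;> simp [gPos, StdR]

theorem s_root (x : Nd P) : gRoot (StdR μ) x ↔ x = root := by
  cases x with
  | root => simp [gRoot, StdR]
  | pos p => simp only [gRoot, reduceCtorEq, iff_false, not_forall, not_not]; exact ⟨pos p, le_refl p⟩
  | lad i j k => simp only [gRoot, reduceCtorEq, iff_false, not_forall, not_not]; exact ⟨pos i, rfl⟩

theorem s_lad (x : Nd P) : gLad (StdR μ) x ↔ ∃ i j k, x = lad i j k := by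
  cases x with
  | root => simp [gLad, StdR]
  | pos p => simp [gLad, StdR]
  | lad i j k =>
    simp only [gLad, StdR]
    refine ⟨fun _ => ⟨i, j, k, rfl⟩, fun _ => ⟨by simp, pos i, rfl⟩⟩

theorem s_bot (x : Nd P) : gBot (StdR μ) x ↔ x = pos ⊥ := by
  simp only [gBot, s_pos]
  constructor
  · rintro ⟨⟨p, rfl⟩, h⟩
    have := h (pos ⊥) ⟨_, rfl⟩
    simp only [StdR, le_bot_iff] at this
    rw [this]
  · rintro rfl
    refine ⟨⟨_, rfl⟩, ?_⟩
    rintro y ⟨p, rfl⟩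
    simp [StdR]

theorem s_top (x : Nd P) : gTop (StdR μ) x ↔ x = pos ⊤ := by
  simp only [gTop, s_pos]
  constructor
  · rintro ⟨⟨p, rfl⟩, h⟩
    have := h (pos ⊤) ⟨_, rfl⟩
    simp only [StdR, top_le_iff] at this
    rw [this]
  · rintro rfl
    refine ⟨⟨_, rfl⟩, ?_⟩
    rintro y ⟨p, rfl⟩
    simp [StdR]

theorem s_cov (x y : Nd P) : gCov (StdR μ) x y ↔ ∃ p q, x = pos p ∧ y = pos q ∧ p ⋖ q := by
  simp only [gCov, s_pos]
  constructor
  · rintro ⟨⟨p, rfl⟩, ⟨q, rfl⟩, h1, h2, h3⟩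
    refine ⟨p, q, rfl, rfl, lt_of_le_of_ne h1 (fun h => h2 (by rw [h])), fun c hc1 hc2 => ?_⟩
    rcases h3 (pos c) ⟨_, rfl⟩ hc1.le hc2.le with h | h
    · exact hc1.ne' (by simpa using h)
    · exact hc2.ne (by simpa using h)
  · rintro ⟨p, q, rfl, rfl, h⟩
    refine ⟨⟨_, rfl⟩, ⟨_, rfl⟩, h.le, by simpa using h.ne, ?_⟩
    rintro z ⟨c, rfl⟩ h1 h2
    simpa using h.eq_or_eq h1 h2

theorem s_mark (x : Nd P) : gMark (StdR μ) x ↔
    ∃ i j k, x = lad i j k ∧ ((j = ⊥ ∧ k = 0) ∨ (j = ⊤ ∧ k = μ i)) := by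
  simp only [gMark, s_root, exists_eq_left]
  cases x with
  | root => simp [StdR]
  | pos p => simp [StdR]
  | lad i j k =>
    simp only [StdR, lad.injEq]
    constructor
    · intro h; exact ⟨i, j, k, ⟨rfl, rfl, rfl⟩, h⟩
    · rintro ⟨_, _, _, ⟨rfl, rfl, rfl⟩, h⟩; exact h

theorem s_in (x a b : Nd P) : gIn (StdR μ) x a b ↔
    ∃ i j k, x = lad i j k ∧ a = pos i ∧ b = pos j := by
  simp only [gIn, s_lad, s_pos]
  constructor
  · rintro ⟨⟨i, j, k, rfl⟩, ⟨p, rfl⟩, ⟨q, rfl⟩, h1, h2⟩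
    simp only [StdR] at h1 h2
    subst h1 h2
    exact ⟨_, _, _, rfl, rfl, rfl⟩
  · rintro ⟨i, j, k, rfl, rfl, rfl⟩
    exact ⟨⟨_, _, _, rfl⟩, ⟨_, rfl⟩, ⟨_, rfl⟩, rfl, rfl⟩

theorem s_nx (x y : Nd P) : gNx (StdR μ) x y ↔
    ∃ i j j' k, x = lad i j k ∧ y = lad i j' k ∧ j ⋖ j' := by
  simp only [gNx, s_in]
  constructor
  · rintro ⟨h, _, _, _, ⟨i, j, k, rfl, rfl, rfl⟩, ⟨i', j', k', rfl, hi, rfl⟩⟩
    obtain rfl : i = i' := by simpa using hi
    simp only [StdR, ne_eq, not_true_eq_false, and_false, true_and, false_or] at h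
    obtain ⟨h, rfl⟩ := h
    exact ⟨_, _, _, _, rfl, rfl, h⟩
  · rintro ⟨i, j, j', k, rfl, rfl, h⟩
    exact ⟨Or.inr ⟨rfl, h, rfl⟩, _, _, _, ⟨_, _, _, rfl, rfl, rfl⟩, ⟨_, _, _, rfl, rfl, rfl⟩⟩

theorem s_st (x a : Nd P) [Nontrivial P] : gSt (StdR μ) x a ↔
    ∃ i k, x = lad i ⊥ k ∧ a = pos i ∧ k ≠ 0 := by
  simp only [gSt, s_bot, s_in, s_mark, exists_eq_left]
  constructor
  · rintro ⟨⟨i, j, k, rfl, rfl, hj⟩, h⟩
    obtain rfl : ⊥ = j := by simpa using hj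
    refine ⟨_, _, rfl, rfl, ?_⟩
    rintro rfl
    exact h ⟨_, _, _, rfl, Or.inl ⟨rfl, rfl⟩⟩
  · rintro ⟨i, k, rfl, rfl, hk⟩
    refine ⟨⟨_, _, _, rfl, rfl, rfl⟩, ?_⟩
    rintro ⟨i', j', k', h, h'⟩
    simp only [lad.injEq] at h
    obtain ⟨rfl, rfl, rfl⟩ := h
    rcases h' with h' | h'
    · exact hk h'.2
    · exact bot_ne_top h'.1

/-- reachability by covering steps -/
def Up : ℕ → P → Prop
  | 0, p => p = ⊥
  | m + 1, p => ∃ q, Up m q ∧ q ⋖ p

def Dn : ℕ → P → Prop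
  | 0, p => p = ⊤
  | m + 1, p => ∃ q, Dn m q ∧ p ⋖ q

theorem s_up (m : ℕ) (x : Nd P) : gUp (StdR μ) m x ↔ ∃ p, x = pos p ∧ Up m p := by
  induction m generalizing x with
  | zero => simp [gUp, Up, s_bot]
  | succ m ih =>
    simp only [gUp, Up, ih, s_cov]
    constructor
    · rintro ⟨_, ⟨p, rfl, hp⟩, p', q, h1, rfl, h2⟩
      obtain rfl : p = p' := by simpa using h1
      exact ⟨q, rfl, p, hp, h2⟩
    · rintro ⟨q, rfl, p, hp, h⟩
      exact ⟨_, ⟨p, rfl, hp⟩, p, q, rfl, rfl, h⟩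

theorem s_dn (m : ℕ) (x : Nd P) : gDn (StdR μ) m x ↔ ∃ p, x = pos p ∧ Dn m p := by
  induction m generalizing x with
  | zero => simp [gDn, Dn, s_top]
  | succ m ih =>
    simp only [gDn, Dn, ih, s_cov]
    constructor
    · rintro ⟨_, ⟨p, rfl, hp⟩, q, p', rfl, h1, h2⟩
      obtain rfl : p = p' := by simpa using h1
      exact ⟨q, rfl, p, hp, h2⟩
    · rintro ⟨q, rfl, p, hp, h⟩
      exact ⟨_, ⟨p, rfl, hp⟩, q, p, rfl, rfl, h⟩

theorem s_rho [Nontrivial P] (m : ℕ) (x : Nd P) : gRho (StdR μ) m x ↔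
    ∃ i j, x = lad i j (μ i) ∧ Dn m j := by
  induction m generalizing x with
  | zero =>
    simp only [gRho, Dn, s_mark, s_top, s_in]
    constructor
    · rintro ⟨⟨i, j, k, rfl, h⟩, _, _, rfl, i', j', k', h1, rfl, h2⟩
      simp only [lad.injEq] at h1
      obtain ⟨rfl, rfl, rfl⟩ := h1
      obtain rfl : ⊤ = j := by simpa using h2
      rcases h with h | h
      · exact absurd h.1 top_ne_bot
      · exact ⟨i, ⊤, by rw [h.2], rfl⟩
    · rintro ⟨i, j, rfl, rfl⟩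
      exact ⟨⟨_, _, _, rfl, Or.inr ⟨rfl, rfl⟩⟩, _, _, rfl, _, _, _, rfl, rfl, rfl⟩
  | succ m ih =>
    simp only [gRho, Dn, ih, s_nx]
    constructor
    · rintro ⟨_, ⟨i, j, j', k, rfl, rfl, h⟩, i', j'', h1, h2⟩
      simp only [lad.injEq] at h1
      obtain ⟨rfl, rfl, rfl⟩ := h1
      exact ⟨i, j, rfl, j', h2, h⟩
    · rintro ⟨i, j, rfl, j', h2, h⟩
      exact ⟨_, ⟨i, j, j', _, rfl, rfl, h⟩, i, j', rfl, h2⟩

theorem th_std [Nontrivial P] : Th (StdR μ) := by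
  refine ⟨⟨root, by simp [s_root], by simp [s_root]⟩, ?_, ?_, ?_, ?_, ?_, ?_, ?_, ?_, ?_, ?_, ?_⟩
  · simp only [s_pos]
    rintro _ _ ⟨p, rfl⟩ ⟨q, rfl⟩ h1 h2
    rw [le_antisymm h1 h2]
  · simp only [s_pos]
    rintro _ _ _ ⟨p, rfl⟩ ⟨q, rfl⟩ ⟨r, rfl⟩ h1 h2
    exact le_trans h1 h2
  · simp only [s_pos]
    rintro _ _ ⟨p, rfl⟩ ⟨q, rfl⟩
    exact le_total p q
  · exact ⟨pos ⊥, pos ⊤, by simp [s_bot], by simp [s_top], by simp⟩
  · simp only [s_pos, s_root]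
    rintro _ _ ⟨p, rfl⟩ rfl h
    exact h
  · simp only [s_pos, s_lad, s_in]
    rintro _ ⟨i, j, k, rfl⟩
    refine ⟨pos i, pos j, ⟨_, _, _, rfl, rfl, rfl⟩, ?_, ?_⟩
    · rintro _ ⟨p, rfl⟩ h; simp only [StdR] at h; rw [h]
    · rintro _ ⟨p, rfl⟩ h; simp only [StdR] at h; rw [h]
  · simp only [s_pos, s_in]
    rintro _ _ ⟨i, rfl⟩ ⟨j, rfl⟩
    refine ⟨lad i j 0, lad i j 1, lad i j 2, by simp, by simp, by simp, fun x => ?_⟩
    constructor
    · rintro ⟨i', j', k, rfl, h1, h2⟩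
      obtain rfl : i = i' := by simpa using h1
      obtain rfl : j = j' := by simpa using h2
      fin_cases k <;> simp
    · rintro (rfl | rfl | rfl) <;> exact ⟨_, _, _, rfl, rfl, rfl⟩
  · simp only [s_in, s_bot, s_cov]
    rintro _ _ _ _ _ _ ⟨i, j, k, rfl, rfl, rfl⟩ ⟨i', j', k', rfl, rfl, rfl⟩
    simp only [pos.injEq, StdR]
    refine ⟨fun h => by simp [h], ?_⟩
    rintro rfl h
    simp only [ne_eq, not_true_eq_false, and_false, true_and, false_or] at h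
    exact ⟨_, _, rfl, rfl, h.1⟩
  · simp only [s_in, s_pos, s_cov]
    rintro _ _ _ ⟨i, rfl⟩ ⟨j, j', rfl, rfl, h⟩
    constructor
    · rintro _ ⟨i', j'', k, rfl, h1, h2⟩
      obtain rfl : i = i' := by simpa using h1
      obtain rfl : j = j'' := by simpa using h2
      refine ⟨lad i j' k, ⟨⟨_, _, _, rfl, rfl, rfl⟩, Or.inr ⟨rfl, h, rfl⟩⟩, ?_⟩
      rintro _ ⟨⟨i', j'', k', rfl, h1, h2⟩, h3⟩
      obtain rfl : i = i' := by simpa using h1
      obtain rfl : j' = j'' := by simpa using h2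
      simp only [StdR, ne_eq, not_true_eq_false, and_false, true_and, false_or] at h3
      rw [h3.2]
    · rintro _ ⟨i', j'', k, rfl, h1, h2⟩
      obtain rfl : i = i' := by simpa using h1
      obtain rfl : j' = j'' := by simpa using h2
      refine ⟨lad i j k, ⟨⟨_, _, _, rfl, rfl, rfl⟩, Or.inr ⟨rfl, h, rfl⟩⟩, ?_⟩
      rintro _ ⟨⟨i', j'', k', rfl, h1, h2⟩, h3⟩
      obtain rfl : i = i' := by simpa using h1
      obtain rfl : j = j'' := by simpa using h2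
      simp only [StdR, ne_eq, not_true_eq_false, and_false, true_and, false_or] at h3
      rw [h3.2]
  · simp only [s_in, s_mark, s_bot, s_top]
    rintro _ _ _ ⟨i, j, k, rfl, rfl, rfl⟩ ⟨i', j', k', h, h'⟩
    simp only [lad.injEq] at h
    obtain ⟨rfl, rfl, rfl⟩ := h
    rcases h' with h' | h'
    · left; rw [h'.1]
    · right; rw [h'.1]
  · simp only [s_in, s_mark, s_bot, s_top, s_pos]
    rintro _ _ ⟨i, rfl⟩ (rfl | rfl)
    · refine ⟨lad i ⊥ 0, ⟨⟨_, _, _, rfl, rfl, rfl⟩, _, _, _, rfl, Or.inl ⟨rfl, rfl⟩⟩, ?_⟩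
      rintro _ ⟨⟨i', j', k, rfl, h1, h2⟩, i'', j'', k', h, h'⟩
      obtain rfl : i = i' := by simpa using h1
      obtain rfl : ⊥ = j' := by simpa using h2
      simp only [lad.injEq] at h
      obtain ⟨rfl, rfl, rfl⟩ := h
      rcases h' with h' | h'
      · rw [h'.2]
      · exact absurd h'.1 bot_ne_top
    · refine ⟨lad i ⊤ (μ i), ⟨⟨_, _, _, rfl, rfl, rfl⟩, _, _, _, rfl, Or.inr ⟨rfl, rfl⟩⟩, ?_⟩
      rintro _ ⟨⟨i', j', k, rfl, h1, h2⟩, i'', j'', k', h, h'⟩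
      obtain rfl : i = i' := by simpa using h1
      obtain rfl : ⊤ = j' := by simpa using h2
      simp only [lad.injEq] at h
      obtain ⟨rfl, rfl, rfl⟩ := h
      rcases h' with h' | h'
      · exact absurd h'.1 top_ne_bot
      · rw [h'.2]

theorem up_cov {j j' : P} (h : j ⋖ j') : (∃ m, Up m j) ↔ ∃ m, Up m j' := by
  constructor
  · rintro ⟨m, hm⟩; exact ⟨m + 1, j, hm, h⟩
  · rintro ⟨m, hm⟩
    cases m with
    | zero => simp only [Up] at hm; subst hm; exact absurd h.lt not_lt_bot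
    | succ m =>
      obtain ⟨q, hq, hq'⟩ := hm
      exact ⟨m, (hq'.unique_left h) ▸ hq⟩

/-- isomorphisms of standard ladder digraphs -/
theorem std_iso [Nontrivial P] {P' : Type} [LinearOrder P'] [BoundedOrder P'] (μ' : P' → Fin 3)
    (h : P ≃o P') (α : P → Equiv.Perm (Fin 3)) (hα : ∀ i, α i 0 = 0)
    (hμ : (¬ ∃ m, Up m (⊤ : P)) ∨ ∀ i, α i (μ i) = μ' (h i)) :
    ∃ e : Nd P ≃ Nd P', (∀ a b, StdR μ' (e a) (e b) ↔ StdR μ a b) ∧
      ∀ i k, e (lad i ⊥ k) = lad (h i) ⊥ (α i k) := by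
  classical
  obtain ⟨τ, h1, h2, h3⟩ : ∃ τ : P → P → Equiv.Perm (Fin 3), (∀ i j j', j ⋖ j' → τ i j = τ i j') ∧
      (∀ i, τ i ⊥ = α i) ∧ ∀ i, τ i ⊤ (μ i) = μ' (h i) := by
    rcases hμ with hμ | hμ
    · refine ⟨fun i j => if ∃ m, Up m j then α i else Equiv.swap (μ i) (μ' (h i)), ?_, ?_, ?_⟩
      · intro i j j' hj; simp only [up_cov hj]
      · intro i; exact if_pos ⟨0, rfl⟩
      · intro i; simp only [if_neg hμ, Equiv.swap_apply_left]
    · exact ⟨fun i _ => α i, fun _ _ _ _ => rfl, fun _ => rfl, hμ⟩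
  let f : Nd P → Nd P' := fun a => match a with
    | root => root
    | pos p => pos (h p)
    | lad i j k => lad (h i) (h j) (τ i j k)
  let g : Nd P' → Nd P := fun a => match a with
    | root => root
    | pos p => pos (h.symm p)
    | lad i j k => lad (h.symm i) (h.symm j) ((τ (h.symm i) (h.symm j)).symm k)
  have hb : ∀ j, h j = ⊥ ↔ j = ⊥ := fun j => by
    rw [← h.map_bot]; exact h.injective.eq_iff
  have ht : ∀ j, h j = ⊤ ↔ j = ⊤ := fun j => by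
    rw [← h.map_top]; exact h.injective.eq_iff
  refine ⟨⟨f, g, fun a => by cases a <;> simp [f, g], fun a => by cases a <;> simp [f, g]⟩, ?_, ?_⟩
  · intro a b
    cases a with
    | root => cases b <;> simp [f, StdR]
    | pos p => cases b <;> simp [f, StdR]
    | lad i j k =>
      cases b with
      | root =>
        simp only [f, StdR, Equiv.coe_fn_mk, hb, ht]
        refine or_congr (and_congr_right ?_) (and_congr_right ?_)
        · rintro rfl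
          rw [h2, ← hα i, (α i).injective.eq_iff, hα]
        · rintro rfl
          rw [← h3, (τ i ⊤).injective.eq_iff]
      | pos p => simp [f, StdR]
      | lad i' j' k' =>
        simp only [f, StdR, Equiv.coe_fn_mk, hb, ne_eq, h.injective.eq_iff, apply_covBy_apply_iff]
        refine or_congr Iff.rfl (and_congr_right ?_)
        rintro rfl
        refine and_congr_right fun hj => ?_
        rw [h1 i j j' hj, (τ i j').injective.eq_iff]
  · intro i k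
    simp [f, h2]

theorem up_fin {n : ℕ} (m : ℕ) (p : Fin (n + 2)) : Up m p ↔ (p : ℕ) = m := by
  induction m generalizing p with
  | zero =>
    simp only [Up, Fin.ext_iff]
    exact Iff.rfl
  | succ m ih =>
    simp only [Up, ih, Fin.covBy_iff, Nat.covBy_iff_add_one_eq]
    constructor
    · rintro ⟨q, rfl, h⟩; exact h.symm
    · intro h; exact ⟨⟨m, by omega⟩, rfl, h.symm⟩

theorem dn_fin {n : ℕ} (m : ℕ) (p : Fin (n + 2)) : Dn m p ↔ (p : ℕ) + m = n + 1 := by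
  induction m generalizing p with
  | zero =>
    simp only [Dn, Fin.ext_iff]
    exact Iff.rfl
  | succ m ih =>
    simp only [Dn, ih, Fin.covBy_iff, Nat.covBy_iff_add_one_eq]
    constructor
    · rintro ⟨q, h1, h⟩; omega
    · intro h; exact ⟨⟨p + 1, by omega⟩, by simp; omega, rfl⟩

/-- if the top is reachable the order is finite -/
theorem fin_of_up {m : ℕ} (h : Up m (⊤ : P)) [Nontrivial P] :
    ∃ n, m = n + 1 ∧ Nonempty (Fin (n + 2) ≃o P) := by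
  have key : ∀ m (p : P), Up m p → ∃ f : Fin (m + 1) → P, StrictMono f ∧ f (Fin.last m) = p ∧
      ∀ q ≤ p, q ∈ Set.range f := by
    intro m
    induction m with
    | zero =>
      rintro p rfl
      exact ⟨fun _ => ⊥, fun a b hab => absurd hab (by omega), rfl,
        fun q hq => ⟨0, (le_bot_iff.1 hq).symm⟩⟩
    | succ m ih =>
      rintro p ⟨q, hq, hc⟩
      obtain ⟨f, hf, hl, hs⟩ := ih q hq
      refine ⟨Fin.snoc (α := fun _ => P) f p, ?_, by simp, fun r hr => ?_⟩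
      · rw [Fin.strictMono_iff_lt_succ]
        intro i
        rcases Fin.eq_castSucc_or_eq_last i with ⟨i, rfl⟩ | rfl
        · rw [Fin.snoc_castSucc, Fin.succ_castSucc, Fin.snoc_castSucc]
          exact hf (Fin.castSucc_lt_succ)
        · rw [Fin.snoc_castSucc, Fin.succ_last, Fin.snoc_last, hl]
          exact hc.lt
      · rcases hr.eq_or_lt with rfl | hr
        · exact ⟨Fin.last _, by simp⟩
        · obtain ⟨i, hi⟩ := hs r (hc.le_of_lt hr)
          exact ⟨i.castSucc, by simp [hi]⟩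
  cases m with
  | zero => exact absurd h top_ne_bot
  | succ n =>
    obtain ⟨f, hf, -, hs⟩ := key _ _ h
    exact ⟨n, rfl, ⟨hf.orderIsoOfSurjective f fun q => hs q le_top⟩⟩

theorem dn_up {m : ℕ} (h : Dn m (⊥ : P)) : ∃ m, Up m (⊤ : P) := by
  have key : ∀ m (p : P), Dn m p → (∃ k, Up k p) → ∃ k, Up k (⊤ : P) := by
    intro m
    induction m with
    | zero => rintro p rfl h; exact h
    | succ m ih =>
      rintro p ⟨q, hq, hc⟩ h
      exact ih q hq ((up_cov hc).1 h)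
  exact key m ⊥ h ⟨0, rfl⟩

end S

end Pool.Agent.P.MP_13cc81_lc
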